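import Pool.Agent.Helper513.SI.Defs

set_option autoImplicit false

namespace AS
open Finset

/-- number of surjections from an `N`-set onto a `u`-set -/
def sj : ℕ → ℕ → ℕ
  | 0, 0 => 1
  | 0, _ + 1 => 0
  | _ + 1, 0 => 0
  | N + 1, u + 1 => (u + 1) * (sj N (u + 1) + sj N u)

/-- number of maps from an `N`-set to an `x`-set which cover `u` given elements -/
def cvr : ℕ → ℕ → ℕ → ℕ
  | N, x, 0 => x ^ N
  | 0, _, _ + 1 => 0
  | N + 1, x, u + 1 => (x - (u + 1)) * cvr N x (u + 1) + (u + 1) * cvr N x u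

open Classical in
/-- transition tables which agree with `T0` on the cells in `X`, and which off `X` avoid `K` and
cover `R`. -/
noncomputable def Om {V : Type} [Fintype V] {k : ℕ} (T0 : V → Fin k → V)
    (X : Finset (V × Fin k)) (K R : Finset V) : Finset (V → Fin k → V) :=
  Finset.univ.filter (fun T => (∀ c ∈ X, T c.1 c.2 = T0 c.1 c.2) ∧ (∀ c, c ∉ X → T c.1 c.2 ∉ K) ∧
    ∀ r ∈ R, ∃ c, c ∉ X ∧ T c.1 c.2 = r)

open Classical in
/-- generic version: maps `f : C → W` which agree with `f0` on `X`, and which off `X` avoid `K` and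
cover `R`. -/
noncomputable def OmG {C W : Type} [Fintype C] [Fintype W] (f0 : C → W)
    (X : Finset C) (K R : Finset W) : Finset (C → W) :=
  Finset.univ.filter (fun f => (∀ c ∈ X, f c = f0 c) ∧ (∀ c, c ∉ X → f c ∉ K) ∧
    ∀ r ∈ R, ∃ c, c ∉ X ∧ f c = r)

/-- surjective words all of whose checkpoints `k * i > N1` are good -/
def gp (k N1 : ℕ) : ℕ → ℕ → ℕ
  | 0, 0 => 1
  | 0, _ + 1 => 0
  | _ + 1, 0 => 0
  | N + 1, u + 1 => if N1 < N + 1 ∧ k ∣ N + 1 ∧ k * (u + 1) ≤ N + 1 then 0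
      else (u + 1) * (gp k N1 N (u + 1) + gp k N1 N u)

open SI in
/-- the walk from `o` along `W` arrives at `x` at time `L`, is self-avoiding before and avoids `B`
before -/
def Nice {V : Type} {k : ℕ} (T : V → Fin k → V) (B : Finset V) (o x : V) (W : ℕ → Fin k)
    (L : ℕ) : Prop :=
  traj T o W L = x ∧ (∀ i, i < L → traj T o W i ∉ B) ∧
    ∀ i j, i < j → j < L → traj T o W i ≠ traj T o W j
end AS
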