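import Pool.Agent.Helper949.ASX.Defs2

set_option autoImplicit false

namespace RA
variable {V : Type} {k : ℕ}
end RA

namespace SI
variable {V : Type} {k : ℕ}
end SI

namespace AS
open Finset

end AS

namespace AS
open Finset Filter Topology
/-! TARGETS -/
theorem lam_exists (k : ℝ) (hk : 1 < k) :
    ∃! lam : ℝ, 0 < lam ∧ lam = k * (1 - Real.exp (-lam)) := by
  have hk0 : 0 < k := by linarith
  have hlog0 : 0 < Real.log k := Real.log_pos hk
  have hlog1 : Real.log k < k - 1 := Real.log_lt_sub_one_of_pos hk0 hk.ne'
  have hex : ∃ x ∈ Set.Icc (Real.log k) k, k * (1 - Real.exp (-x)) - x = 0 := by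
    have hcont : ContinuousOn (fun x : ℝ => k * (1 - Real.exp (-x)) - x)
        (Set.Icc (Real.log k) k) := by fun_prop
    have h1 := intermediate_value_Icc' (by linarith : Real.log k ≤ k) hcont
    have h0 : (0 : ℝ) ∈ Set.Icc (k * (1 - Real.exp (-k)) - k)
        (k * (1 - Real.exp (-Real.log k)) - Real.log k) := by
      constructor
      · have : 0 < k * Real.exp (-k) := mul_pos hk0 (Real.exp_pos _)
        linarith
      · rw [Real.exp_neg, Real.exp_log hk0]
        have : k * (1 - k⁻¹) = k - 1 := by field_simp
        rw [this]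
        linarith
    obtain ⟨x, hx, hx2⟩ := h1 h0
    exact ⟨x, hx, hx2⟩
  obtain ⟨x, hx, hx0⟩ := hex
  have huniq : ∀ a b : ℝ, 0 < a → a < b → a = k * (1 - Real.exp (-a)) →
      b = k * (1 - Real.exp (-b)) → False := by
    intro a b ha hab h1 h2
    have hb : 0 < b := ha.trans hab
    have h3 := strictConvexOn_exp.2 (Set.mem_univ (-b)) (Set.mem_univ (0 : ℝ))
      (by linarith : -b ≠ 0) (div_pos ha hb) (sub_pos.2 ((div_lt_one hb).2 hab))
      (by ring)
    have h4 : (a / b) • (-b) + (1 - a / b) • (0 : ℝ) = -a := by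
      simp only [smul_eq_mul]
      field_simp
      ring
    rw [h4, Real.exp_zero] at h3
    simp only [smul_eq_mul] at h3
    have h5 : Real.exp (-b) = 1 - b / k := by
      field_simp
      linarith
    have h6 : Real.exp (-a) = 1 - a / k := by
      field_simp
      linarith
    rw [h5, h6] at h3
    have h7 : a / b * (1 - b / k) + (1 - a / b) * 1 = 1 - a / k := by
      field_simp
      ring
    linarith
  refine ⟨x, ⟨by linarith [hx.1], by linarith⟩, ?_⟩
  rintro y ⟨hy0, hy⟩
  have hxx : x = k * (1 - Real.exp (-x)) := by linarith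
  have hx0' : 0 < x := by linarith [hx.1]
  rcases lt_trichotomy y x with h | h | h
  · exact (huniq y x hy0 h hy hxx).elim
  · exact h
  · exact (huniq x y hx0' h hxx hy).elim

theorem lam_le (k lam : ℝ) (hk : 1 < k) (h0 : 0 < lam) (h : lam = k * (1 - Real.exp (-lam))) :
    lam < k ∧ k < Real.exp lam := by
  have hk0 : 0 < k := by linarith
  constructor
  · have : 0 < k * Real.exp (-lam) := mul_pos hk0 (Real.exp_pos _)
    linarith
  · have h1 : lam * Real.exp lam = k * (Real.exp lam - 1) := by
      have h2 : Real.exp (-lam) * Real.exp lam = 1 := by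
        rw [← Real.exp_add, neg_add_cancel, Real.exp_zero]
      calc lam * Real.exp lam = k * (1 - Real.exp (-lam)) * Real.exp lam := by rw [← h]
        _ = k * (Real.exp lam - Real.exp (-lam) * Real.exp lam) := by ring
        _ = k * (Real.exp lam - 1) := by rw [h2]
    have h3 : lam + 1 < Real.exp lam := Real.add_one_lt_exp h0.ne'
    have h4 : k * lam < k * (Real.exp lam - 1) := by
      apply mul_lt_mul_of_pos_left _ hk0
      linarith
    rw [← h1, mul_comm k lam] at h4
    exact lt_of_mul_lt_mul_left h4 h0.le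
end AS

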