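import Pool.Agent.Helper949.ASX.Defs

set_option autoImplicit false

namespace RA
variable {V : Type} {k : ℕ}
end RA

namespace SI
variable {V : Type} {k : ℕ}
end SI

namespace AS
open Finset

end AS

namespace AS
open Finset
/-! TARGETS -/
private theorem sj_succ352 (N u : ℕ) : sj (N + 1) (u + 1) = (u + 1) * (sj N (u + 1) + sj N u) := rfl

private theorem sj_zero_right352 (N : ℕ) : sj (N + 1) 0 = 0 := rfl

theorem sj_zero_of_lt (N u : ℕ) (h : N < u) : sj N u = 0 := by
  induction N generalizing u with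
  | zero =>
    obtain ⟨v, rfl⟩ : ∃ v, u = v + 1 := ⟨u - 1, by omega⟩
    rfl
  | succ N ih =>
    obtain ⟨v, rfl⟩ : ∃ v, u = v + 1 := ⟨u - 1, by omega⟩
    rw [sj_succ352, ih (v + 1) (by omega), ih v (by omega)]
    simp

theorem sj_pos (N u : ℕ) (h1 : 1 ≤ u) (h2 : u ≤ N) : 0 < sj N u := by
  induction N generalizing u with
  | zero => omega
  | succ N ih =>
    obtain ⟨v, rfl⟩ : ∃ v, u = v + 1 := ⟨u - 1, by omega⟩
    rw [sj_succ352]
    refine Nat.mul_pos (Nat.succ_pos v) ?_
    rcases Nat.eq_zero_or_pos v with hv | hv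
    · subst hv
      rcases Nat.eq_zero_or_pos N with hN | hN
      · subst hN; decide
      · have h5 : 0 < sj N (0 + 1) := ih 1 le_rfl hN
        omega
    · have := ih v hv (by omega)
      omega

theorem sj_split (N v : ℕ) : (N - v) * sj N v ≤ v * sj N (v + 1) := by
  induction N generalizing v with
  | zero => simp
  | succ N ih =>
    rcases v with _ | w
    · rw [sj_zero_right352]; simp
    · rcases Nat.lt_or_ge w N with h | h
      · obtain ⟨d, rfl⟩ : ∃ d, N = w + 1 + d := ⟨N - (w + 1), by omega⟩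
        have h1 := ih (w + 1)
        have h2 := ih w
        have e1 : w + 1 + d - (w + 1) = d := by omega
        have e2 : w + 1 + d - w = d + 1 := by omega
        have e3 : w + 1 + d + 1 - (w + 1) = d + 1 := by omega
        rw [e1] at h1
        rw [e2] at h2
        rw [e3, sj_succ352 _ w, sj_succ352 _ (w + 1)]
        have h3 : (d + 1) * (sj (w + 1 + d) (w + 1) + sj (w + 1 + d) w) ≤
            (w + 1 + 1) * (sj (w + 1 + d) (w + 1 + 1) + sj (w + 1 + d) (w + 1)) := by
          nlinarith
        calc (d + 1) * ((w + 1) * (sj (w + 1 + d) (w + 1) + sj (w + 1 + d) w))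
            = (w + 1) * ((d + 1) * (sj (w + 1 + d) (w + 1) + sj (w + 1 + d) w)) := by ring
          _ ≤ _ := Nat.mul_le_mul_left _ h3
      · have e : N + 1 - (w + 1) = 0 := by omega
        rw [e]; simp

private theorem sj_low352 (M u : ℕ) :
    2 * (M + 2) * sj (M + 1) u + (M + 2) * (M + 1) * sj M u ≤ 2 * sj (M + 2) (u + 1) := by
  induction M generalizing u with
  | zero =>
    rcases u with _ | _ | u
    · decide
    · decide
    · rw [sj_zero_of_lt (0 + 1) (u + 1 + 1) (by omega), sj_zero_of_lt 0 (u + 1 + 1) (by omega)]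
      simp
  | succ M ih =>
    rcases u with _ | u
    · rw [sj_zero_right352, sj_zero_right352]
      simp
    · have h1 := ih (u + 1)
      have h2 := ih u
      have e1 : sj (M + 1 + 2) (u + 1 + 1) =
          (u + 2) * (sj (M + 2) (u + 1 + 1) + sj (M + 2) (u + 1)) := rfl
      have e2 : sj (M + 1 + 1) (u + 1) = (u + 1) * (sj (M + 1) (u + 1) + sj (M + 1) u) := rfl
      have e3 : sj (M + 1) (u + 1) = (u + 1) * (sj M (u + 1) + sj M u) := rfl
      have e2' : sj (M + 2) (u + 1) = (u + 1) * (sj (M + 1) (u + 1) + sj (M + 1) u) := rfl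
      rw [e1]
      have e4 : sj (M + 1 + 1) (u + 1) = sj (M + 2) (u + 1) := rfl
      rw [e4]
      set a := sj (M + 2) (u + 1 + 1)
      set b := sj (M + 2) (u + 1)
      set c := sj (M + 1) (u + 1)
      set d := sj (M + 1) u
      set f := sj M (u + 1)
      set g := sj M u
      -- h1 : 2 (M+2) c + (M+2)(M+1) f ≤ 2 a ; h2 : 2 (M+2) d + (M+2)(M+1) g ≤ 2 b
      have k1 : (u + 2) * (2 * (M + 2) * c + (M + 2) * (M + 1) * f) ≤ (u + 2) * (2 * a) :=
        Nat.mul_le_mul_left _ h1
      have k2 : (u + 1) * (2 * (M + 2) * d + (M + 2) * (M + 1) * g) ≤ (u + 1) * (2 * b) :=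
        Nat.mul_le_mul_left _ h2
      have k3 : 2 * (M + 2) * b + (M + 2) * (M + 1) * c =
          (u + 1) * (2 * (M + 2) * c + (M + 2) * (M + 1) * f) +
          (u + 1) * (2 * (M + 2) * d + (M + 2) * (M + 1) * g) := by
        rw [e2']
        nth_rewrite 2 [e3]
        ring
      calc 2 * (M + 1 + 2) * b + (M + 1 + 2) * (M + 1 + 1) * c
          = (2 * (M + 2) * b + (M + 2) * (M + 1) * c) + 2 * b + 2 * (M + 2) * c := by ring
        _ ≤ ((u + 2) * (2 * (M + 2) * c + (M + 2) * (M + 1) * f) +
            (u + 1) * (2 * (M + 2) * d + (M + 2) * (M + 1) * g)) + 2 * b := by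
            rw [k3]
            have : (u + 2) * (2 * (M + 2) * c + (M + 2) * (M + 1) * f) =
              (u + 1) * (2 * (M + 2) * c + (M + 2) * (M + 1) * f) +
              (2 * (M + 2) * c + (M + 2) * (M + 1) * f) := by ring
            rw [this]
            have h0 : 0 ≤ (M + 2) * (M + 1) * f := Nat.zero_le _
            omega
        _ ≤ (u + 2) * (2 * a) + (u + 1) * (2 * b) + 2 * b := by
            have := Nat.add_le_add k1 k2
            omega
        _ = 2 * ((u + 2) * (a + b)) := by ring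

theorem sj_unique (N v : ℕ) (h : 3 * (v + 1) ≤ 2 * (N + 1)) :
    5 * (N + 1) * sj N v ≤ 4 * sj (N + 1) (v + 1) := by
  rcases N with _ | M
  · omega
  · have h1 := sj_low352 M v
    have h2 : sj (M + 1) v ≤ 2 * (M + 1) * sj M v := by
      rcases v with _ | w
      · rw [sj_zero_right352]; exact Nat.zero_le _
      · have h3 := sj_split M w
        obtain ⟨d, hd⟩ : ∃ d, M = w + 1 + d := ⟨M - (w + 1), by omega⟩
        have e : M - w = d + 1 := by omega
        rw [e] at h3
        rw [sj_succ352]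
        have h4 : (d + 1) * ((w + 1) * (sj M (w + 1) + sj M w)) ≤
            (d + 1) * (2 * (M + 1) * sj M (w + 1)) := by
          calc (d + 1) * ((w + 1) * (sj M (w + 1) + sj M w))
              = (w + 1) * ((d + 1) * sj M (w + 1) + (d + 1) * sj M w) := by ring
            _ ≤ (w + 1) * ((d + 1) * sj M (w + 1) + w * sj M (w + 1)) :=
                Nat.mul_le_mul_left _ (Nat.add_le_add_left h3 _)
            _ = ((w + 1) * (d + 1 + w)) * sj M (w + 1) := by ring
            _ ≤ ((d + 1) * (2 * (M + 1))) * sj M (w + 1) := by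
                refine Nat.mul_le_mul_right _ ?_
                have e5 : d + 1 + w = M := by omega
                rw [e5]
                have e6 : w + 1 ≤ 2 * (d + 1) := by omega
                calc (w + 1) * M ≤ (2 * (d + 1)) * M := Nat.mul_le_mul_right _ e6
                  _ ≤ (2 * (d + 1)) * (M + 1) := Nat.mul_le_mul_left _ (Nat.le_succ M)
                  _ = (d + 1) * (2 * (M + 1)) := by ring
            _ = _ := by ring
        exact Nat.le_of_mul_le_mul_left h4 (Nat.succ_pos d)
    have h3 : (M + 2) * sj (M + 1) v ≤ 2 * ((M + 2) * (M + 1) * sj M v) := by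
      calc (M + 2) * sj (M + 1) v ≤ (M + 2) * (2 * (M + 1) * sj M v) := Nat.mul_le_mul_left _ h2
        _ = _ := by ring
    calc 5 * (M + 1 + 1) * sj (M + 1) v
        = 2 * (2 * (M + 2) * sj (M + 1) v) + (M + 2) * sj (M + 1) v := by ring
      _ ≤ 2 * (2 * (M + 2) * sj (M + 1) v) + 2 * ((M + 2) * (M + 1) * sj M v) :=
          Nat.add_le_add_left h3 _
      _ = 2 * (2 * (M + 2) * sj (M + 1) v + (M + 2) * (M + 1) * sj M v) := by ring
      _ ≤ 2 * (2 * sj (M + 2) (v + 1)) := Nat.mul_le_mul_left _ h1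
      _ = 4 * sj (M + 1 + 1) (v + 1) := by
          have : sj (M + 1 + 1) (v + 1) = sj (M + 2) (v + 1) := rfl
          rw [this]; ring

theorem sj_up (N v : ℕ) (h : 3 * v ≤ 2 * N) : sj (N + 1) v ≤ 3 * v * sj N v := by
  rcases v with _ | w
  · rw [sj_zero_right352]; exact Nat.zero_le _
  · have h3 := sj_split N w
    obtain ⟨d, hd⟩ : ∃ d, N = w + 1 + d := ⟨N - (w + 1), by omega⟩
    have e : N - w = d + 1 := by omega
    rw [e] at h3
    rw [sj_succ352]
    have h4 : sj N w ≤ 2 * sj N (w + 1) := by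
      have h5 : (d + 1) * sj N w ≤ (d + 1) * (2 * sj N (w + 1)) := by
        calc (d + 1) * sj N w ≤ w * sj N (w + 1) := h3
          _ ≤ (2 * (d + 1)) * sj N (w + 1) := Nat.mul_le_mul_right _ (by omega)
          _ = _ := by ring
      exact Nat.le_of_mul_le_mul_left h5 (Nat.succ_pos d)
    calc (w + 1) * (sj N (w + 1) + sj N w) ≤ (w + 1) * (sj N (w + 1) + 2 * sj N (w + 1)) :=
          Nat.mul_le_mul_left _ (Nat.add_le_add_left h4 _)
      _ = _ := by ring

private theorem cvr_zero352 (N x : ℕ) : cvr N x 0 = x ^ N := by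
  cases N <;> rfl

private theorem cvr_rec352 (N x u : ℕ) (h : u ≤ x) :
    cvr N (x + 1) u = cvr N (x + 1) (u + 1) + cvr N x u := by
  induction N generalizing u with
  | zero =>
    rcases u with _ | u
    · rw [cvr_zero352, cvr_zero352]
      show (x + 1) ^ 0 = 0 + x ^ 0
      simp
    · rfl
  | succ N ih =>
    rcases u with _ | w
    · rw [cvr_zero352, cvr_zero352]
      have e1 : cvr (N + 1) (x + 1) (0 + 1) =
          (x + 1 - (0 + 1)) * cvr N (x + 1) (0 + 1) + (0 + 1) * cvr N (x + 1) 0 := rfl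
      have e2 : x + 1 - (0 + 1) = x := by omega
      have h1 := ih 0 (Nat.zero_le _)
      rw [cvr_zero352, cvr_zero352] at h1
      rw [e1, e2, cvr_zero352, pow_succ, pow_succ]
      have e3 : x * (x + 1) ^ N = x * cvr N (x + 1) (0 + 1) + x * x ^ N := by
        rw [h1]; ring
      calc (x + 1) ^ N * (x + 1) = x * (x + 1) ^ N + (x + 1) ^ N := by ring
        _ = x * cvr N (x + 1) (0 + 1) + x * x ^ N + (x + 1) ^ N := by rw [e3]
        _ = _ := by ring
    · obtain ⟨d, rfl⟩ : ∃ d, x = w + 1 + d := ⟨x - (w + 1), by omega⟩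
      have e1 : cvr (N + 1) (w + 1 + d + 1) (w + 1) =
          (w + 1 + d + 1 - (w + 1)) * cvr N (w + 1 + d + 1) (w + 1) +
            (w + 1) * cvr N (w + 1 + d + 1) w := rfl
      have e2 : cvr (N + 1) (w + 1 + d + 1) (w + 1 + 1) =
          (w + 1 + d + 1 - (w + 1 + 1)) * cvr N (w + 1 + d + 1) (w + 1 + 1) +
            (w + 1 + 1) * cvr N (w + 1 + d + 1) (w + 1) := rfl
      have e3 : cvr (N + 1) (w + 1 + d) (w + 1) =
          (w + 1 + d - (w + 1)) * cvr N (w + 1 + d) (w + 1) +
            (w + 1) * cvr N (w + 1 + d) w := rfl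
      have f1 : w + 1 + d + 1 - (w + 1) = d + 1 := by omega
      have f2 : w + 1 + d + 1 - (w + 1 + 1) = d := by omega
      have f3 : w + 1 + d - (w + 1) = d := by omega
      rw [e1, e2, e3, f1, f2, f3]
      have h1 := ih (w + 1) (by omega)
      have h2 := ih w (by omega)
      set a2 := cvr N (w + 1 + d + 1) (w + 1 + 1)
      set b1 := cvr N (w + 1 + d) (w + 1)
      set b0 := cvr N (w + 1 + d) w
      rw [h2, h1]
      ring

theorem cvr_top (N u : ℕ) : cvr N u u = sj N u := by
  induction N generalizing u with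
  | zero =>
    rcases u with _ | u
    · rfl
    · rfl
  | succ N ih =>
    rcases u with _ | u
    · rw [cvr_zero352, sj_zero_right352]; simp
    · have e1 : cvr (N + 1) (u + 1) (u + 1) =
          (u + 1 - (u + 1)) * cvr N (u + 1) (u + 1) + (u + 1) * cvr N (u + 1) u := rfl
      rw [e1, Nat.sub_self, zero_mul, zero_add, cvr_rec352 N u u le_rfl, ih, ih, sj_succ352]

theorem cvr_top1 (N u : ℕ) : cvr N (u + 1) u = sj N (u + 1) + sj N u := by
  rw [cvr_rec352 N u u le_rfl, cvr_top, cvr_top]
end AS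

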