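import Pool.Agent.Helper949.ASX.Defs
import Pool.Agent.Helper949.ASX.A1

set_option autoImplicit false

namespace RA
variable {V : Type} {k : ℕ}
end RA

namespace SI
variable {V : Type} {k : ℕ}
end SI

namespace AS
open Finset

end AS

namespace AS
open Finset
/-! GIVEN -/
/-! TARGETS -/
theorem gp_le (k N1 N u : ℕ) : gp k N1 N u ≤ sj N u := by
  induction N generalizing u with
  | zero =>
    cases u with
    | zero => exact le_refl _
    | succ u => exact le_refl _
  | succ N ih =>
    cases u with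
    | zero => exact le_refl _
    | succ u =>
      rw [gp, sj]
      split_ifs
      · exact Nat.zero_le _
      · exact Nat.mul_le_mul_left _ (Nat.add_le_add (ih _) (ih _))

private theorem j16218_eq (k N1 N u : ℕ) (hN : N ≤ N1) : gp k N1 N u = sj N u := by
  induction N generalizing u with
  | zero =>
    cases u with
    | zero => rfl
    | succ u => rfl
  | succ N ih =>
    cases u with
    | zero => rfl
    | succ u =>
      rw [gp, sj, if_neg (fun h => absurd h.1 (by omega)), ih _ (by omega), ih _ (by omega)]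

private theorem j16218_exp : Real.exp (1 / 6) ≤ 1.196 := by
  have h1 : Real.exp (1 / 6) ^ 6 = Real.exp 1 := by
    rw [← Real.exp_nat_mul]
    norm_num
  have h2 := Real.exp_one_lt_d9
  by_contra hcon
  have h3 : (1.196 : ℝ) ^ 6 < Real.exp (1 / 6) ^ 6 :=
    pow_lt_pow_left₀ (not_le.1 hcon) (by norm_num) (by norm_num)
  rw [h1] at h3
  norm_num at h3 h2
  linarith

private theorem j16218_zk (k : ℕ) (hk : 2 ≤ k) : (1 + 1 / (6 * (k:ℝ))) ^ k ≤ 1.196 := by
  have hk0 : (0 : ℝ) < k := by
    have : 0 < k := by omega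
    exact_mod_cast this
  have h1 : 1 + 1 / (6 * (k:ℝ)) ≤ Real.exp (1 / (6 * (k:ℝ))) := by
    have := Real.add_one_le_exp (1 / (6 * (k:ℝ)))
    linarith
  have h2 : (1 + 1 / (6 * (k:ℝ))) ^ k ≤ Real.exp (1 / (6 * (k:ℝ))) ^ k :=
    pow_le_pow_left₀ (by positivity) h1 k
  have h3 : Real.exp (1 / (6 * (k:ℝ))) ^ k = Real.exp (1 / 6) := by
    rw [← Real.exp_nat_mul]
    congr 1
    field_simp
  rw [h3] at h2
  exact h2.trans j16218_exp

/-- the numerical core -/
private theorem j16218_num {k n v A B S W z q r : ℝ} (hk : 2 ≤ k) (hz : z = 1 + 1 / (6 * k))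
    (Z : ℝ) (hZ : Z ≤ 1.196) (hZ1 : 1 ≤ Z) (hA : 0 ≤ A) (hB : 0 ≤ B) (hS : A + B = S)
    (hW : 0 < W) (hq : q = Z / r) (hr : 0 < r) (hn : 0 < n)
    (h : (16 * (k * v) ≤ 17 * n ∧ 5 * n * B ≤ 4 * v * S) ∨ W ≤ 1 / r) :
    A * (W * z⁻¹) + B * (W * z⁻¹ * Z) ≤ S * (W + q) := by
  have hk0 : 0 < k := by linarith
  have hz1 : 1 < z := by
    rw [hz]
    have : 0 < 1 / (6 * k) := by positivity
    linarith
  have hz0 : 0 < z := by linarith
  have hS0 : 0 ≤ S := by linarith
  have hZ0 : 0 < Z := by linarith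
  have hq0 : 0 ≤ q := by
    rw [hq]
    positivity
  rcases h with ⟨h1, h2⟩ | h1
  · have h3 : k * B ≤ 0.85 * S := by
      have h4 : n * (k * B) ≤ n * (0.85 * S) := by
        have h5 : 16 * (k * v) * S ≤ 17 * n * S := mul_le_mul_of_nonneg_right h1 hS0
        have h6 : k * (5 * n * B) ≤ k * (4 * v * S) := mul_le_mul_of_nonneg_left h2 hk0.le
        nlinarith
      exact le_of_mul_le_mul_left h4 hn
    have h4 : A + B * Z ≤ S * z := by
      have h5 : B * (Z - 1) ≤ B * 0.196 := mul_le_mul_of_nonneg_left (by linarith) hB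
      have h6 : B * 0.196 ≤ S * (1 / (6 * k)) := by
        rw [mul_one_div, le_div_iff₀ (by positivity)]
        nlinarith
      have h7 : S * z = S + S * (1 / (6 * k)) := by rw [hz]; ring
      rw [h7]
      linarith
    have h5 : A * (W * z⁻¹) + B * (W * z⁻¹ * Z) = (W * z⁻¹) * (A + B * Z) := by ring
    have h6 : (W * z⁻¹) * (A + B * Z) ≤ (W * z⁻¹) * (S * z) :=
      mul_le_mul_of_nonneg_left h4 (mul_nonneg hW.le (inv_nonneg.2 hz0.le))
    have h7 : (W * z⁻¹) * (S * z) = S * W := by
      field_simp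
    have h8 : 0 ≤ S * q := mul_nonneg hS0 hq0
    rw [h5]
    linarith
  · have hzi : z⁻¹ ≤ 1 := inv_le_one_of_one_le₀ hz1.le
    have hzi0 : 0 ≤ z⁻¹ := inv_nonneg.2 hz0.le
    have h2 : W * z⁻¹ ≤ W := by
      calc W * z⁻¹ ≤ W * 1 := mul_le_mul_of_nonneg_left hzi hW.le
        _ = W := mul_one W
    have h3 : A * (W * z⁻¹) ≤ A * (W * Z) := by
      refine mul_le_mul_of_nonneg_left ?_ hA
      refine h2.trans ?_
      calc W = W * 1 := (mul_one W).symm
        _ ≤ W * Z := mul_le_mul_of_nonneg_left hZ1 hW.le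
    have h4 : B * (W * z⁻¹ * Z) ≤ B * (W * Z) :=
      mul_le_mul_of_nonneg_left (mul_le_mul_of_nonneg_right h2 hZ0.le) hB
    have h5 : W * Z ≤ q := by
      rw [hq]
      calc W * Z ≤ 1 / r * Z := mul_le_mul_of_nonneg_right h1 hZ0.le
        _ = Z / r := by ring
    have h6 : S * (W * Z) ≤ S * q := mul_le_mul_of_nonneg_left h5 hS0
    have h7 : 0 ≤ S * W := mul_nonneg hS0 hW.le
    have h8 : A * (W * Z) + B * (W * Z) = S * (W * Z) := by rw [← hS]; ring
    linarith

theorem chain (k : ℕ) (hk : 2 ≤ k) (N1 N u : ℕ) (hN : N1 ≤ N) :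
    (sj N u : ℝ) - gp k N1 N u ≤ sj N u *
      ((1 + 1 / (6 * (k:ℝ))) ^ (-((k:ℤ) * u - N)) +
        ((N:ℝ) - N1) * ((1 + 1 / (6 * (k:ℝ))) ^ k / (1 + 1 / (6 * (k:ℝ))) ^ (N1 / 16))) := by
  have hk0 : (0 : ℝ) < k := by
    have : 0 < k := by omega
    exact_mod_cast this
  have hk2 : (2 : ℝ) ≤ k := by exact_mod_cast hk
  have hz1 : 1 ≤ 1 + 1 / (6 * (k:ℝ)) := by
    have : 0 < 1 / (6 * (k:ℝ)) := by positivity
    linarith
  have hZ := j16218_zk k hk
  have hZ1 : 1 ≤ (1 + 1 / (6 * (k:ℝ))) ^ k := one_le_pow₀ hz1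
  induction N, hN using Nat.le_induction generalizing u with
  | base =>
    rw [j16218_eq k N1 N1 u le_rfl, sub_self, sub_self, zero_mul, add_zero]
    exact mul_nonneg (Nat.cast_nonneg _) (zpow_nonneg (by linarith) _)
  | succ N hN ih =>
    cases u with
    | zero =>
      rw [gp, sj, Nat.cast_zero, sub_zero, zero_mul]
    | succ u =>
      generalize hz : 1 + 1 / (6 * (k:ℝ)) = z at hz1 hZ hZ1 ih ⊢
      have hz0 : 0 < z := by linarith
      have hr : 0 < z ^ (N1 / 16) := pow_pos hz0 _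
      set q : ℝ := z ^ k / z ^ (N1 / 16) with hq
      have hq0 : 0 ≤ q := div_nonneg (by linarith) hr.le
      have hNN : (N1 : ℝ) ≤ N := by exact_mod_cast hN
      by_cases hchk : N1 < N + 1 ∧ k ∣ N + 1 ∧ k * (u + 1) ≤ N + 1
      · rw [gp, if_pos hchk, Nat.cast_zero, sub_zero]
        have hS0 : (0 : ℝ) ≤ sj (N + 1) (u + 1) := Nat.cast_nonneg _
        have h1 : 1 ≤ z ^ (-((k:ℤ) * ((u + 1 : ℕ) : ℤ) - ((N + 1 : ℕ) : ℤ))) := by
          refine one_le_zpow₀ hz1 ?_
          have := hchk.2.2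
          have h2 : (k : ℤ) * ((u + 1 : ℕ) : ℤ) ≤ ((N + 1 : ℕ) : ℤ) := by exact_mod_cast this
          linarith
        have h2 : 0 ≤ (((N + 1 : ℕ) : ℝ) - N1) * q := by
          refine mul_nonneg ?_ hq0
          push_cast
          linarith
        calc (sj (N + 1) (u + 1) : ℝ) = sj (N + 1) (u + 1) * 1 := (mul_one _).symm
          _ ≤ _ := mul_le_mul_of_nonneg_left (by linarith) hS0
      · rw [gp, if_neg hchk]
        set Y : ℤ := (k:ℤ) * ((u + 1 : ℕ) : ℤ) - ((N + 1 : ℕ) : ℤ) with hY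
        set W : ℝ := z ^ (-Y) with hWd
        have hW : 0 < W := zpow_pos hz0 _
        have e1 : z ^ (-((k:ℤ) * ((u + 1 : ℕ) : ℤ) - (N : ℤ))) = W * z⁻¹ := by
          rw [hWd, ← zpow_sub_one₀ hz0.ne']
          congr 1
          rw [hY]
          push_cast
          ring
        have e2 : z ^ (-((k:ℤ) * (u : ℤ) - (N : ℤ))) = W * z⁻¹ * z ^ k := by
          rw [← e1, ← zpow_natCast, ← zpow_add₀ hz0.ne']
          congr 1
          push_cast
          ring
        have i1 := ih (u + 1)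
        have i2 := ih u
        rw [e1] at i1
        rw [e2] at i2
        have hS : ((u:ℝ) + 1) * sj N (u + 1) + ((u:ℝ) + 1) * sj N u = sj (N + 1) (u + 1) := by
          rw [sj]
          push_cast
          ring
        have hu0 : (0 : ℝ) ≤ (u:ℝ) + 1 := by positivity
        have hA0 : 0 ≤ ((u:ℝ) + 1) * sj N (u + 1) := mul_nonneg hu0 (Nat.cast_nonneg _)
        have hB0 : 0 ≤ ((u:ℝ) + 1) * sj N u := mul_nonneg hu0 (Nat.cast_nonneg _)
        have hcore := j16218_num (k := k) (n := (N:ℝ) + 1) (v := (u:ℝ) + 1) hk2 hz.symm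
          (z ^ k) hZ hZ1 hA0 hB0 hS hW hq hr (by positivity) (by
            by_cases hc : 16 * (k * (u + 1)) ≤ 17 * (N + 1)
            · left
              refine ⟨by exact_mod_cast hc, ?_⟩
              have h3 : 3 * (u + 1) ≤ 2 * (N + 1) := by
                have : 2 * (u + 1) ≤ k * (u + 1) := Nat.mul_le_mul_right _ hk
                omega
              have h4 := sj_unique N u h3
              have h5 : (5:ℝ) * (N + 1) * sj N u ≤ 4 * sj (N + 1) (u + 1) := by
                exact_mod_cast h4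
              have h6 := mul_le_mul_of_nonneg_left h5 hu0
              linarith
            · right
              have h3 : ((N1 / 16 : ℕ) : ℤ) ≤ Y := by
                have h4 : ((17 * (N + 1) : ℕ) : ℤ) < ((16 * (k * (u + 1)) : ℕ) : ℤ) := by
                  exact_mod_cast not_le.1 hc
                push_cast at h4
                rw [hY]
                push_cast
                have h5 : (16 : ℤ) * (N1 / 16) ≤ N1 := by omega
                have h6 : (N1 : ℤ) ≤ N := by exact_mod_cast hN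
                linarith
              rw [hWd, one_div, ← zpow_natCast, ← zpow_neg]
              exact zpow_le_zpow_right₀ hz1 (neg_le_neg h3))
        have e3 : ((sj (N + 1) (u + 1) : ℕ) : ℝ) -
            (((u + 1) * (gp k N1 N (u + 1) + gp k N1 N u) : ℕ) : ℝ) =
            ((u:ℝ) + 1) * ((sj N (u + 1) : ℝ) - gp k N1 N (u + 1)) +
            ((u:ℝ) + 1) * ((sj N u : ℝ) - gp k N1 N u) := by
          rw [← hS]
          push_cast
          ring
        rw [e3]
        have j1 := mul_le_mul_of_nonneg_left i1 hu0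
        have j2 := mul_le_mul_of_nonneg_left i2 hu0
        have e4 : (((N + 1 : ℕ) : ℝ) - N1) * q = ((N:ℝ) - N1) * q + q := by
          push_cast
          ring
        rw [e4]
        have e5 : (sj (N + 1) (u + 1) : ℝ) * (((N:ℝ) - N1) * q) =
            ((u:ℝ) + 1) * sj N (u + 1) * (((N:ℝ) - N1) * q) +
            ((u:ℝ) + 1) * sj N u * (((N:ℝ) - N1) * q) := by
          rw [← hS]
          ring
        linarith
end AS

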