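import Pool.Agent.Helper949.ASX.Defs

set_option autoImplicit false

namespace RA
variable {V : Type} {k : ℕ}
end RA

namespace SI
variable {V : Type} {k : ℕ}
end SI

namespace AS
open Finset

end AS

namespace AS
open Finset
/-! TARGETS -/
/-- checkpoint condition -/
private def h170_Q (k N1 : ℕ) {N u : ℕ} (f : Fin N → Fin u) : Prop :=
  ∀ i, N1 < k * i → k * i ≤ N → i < ((Finset.univ.filter (fun p : Fin N => p.val < k * i)).image f).card

/-- the append map -/
private def h170_ap {N u : ℕ} (g : Fin N → Fin u) (a : Fin u) : Fin (N + 1) → Fin u :=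
  Fin.snoc (α := fun _ => Fin u) g a

private theorem h170_ap_castSucc {N u : ℕ} (g : Fin N → Fin u) (a : Fin u) (p : Fin N) :
    h170_ap g a p.castSucc = g p := by
  unfold h170_ap
  exact Fin.snoc_castSucc (α := fun _ => Fin u) a g p

private theorem h170_ap_last {N u : ℕ} (g : Fin N → Fin u) (a : Fin u) :
    h170_ap g a (Fin.last N) = a := by
  unfold h170_ap
  exact Fin.snoc_last (α := fun _ => Fin u) a g

private theorem h170_ap_self {N u : ℕ} (f : Fin (N + 1) → Fin u) :
    h170_ap (fun p => f p.castSucc) (f (Fin.last N)) = f := by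
  funext q
  refine Fin.lastCases ?_ (fun p => ?_) q
  · rw [h170_ap_last]
  · rw [h170_ap_castSucc]

private theorem h170_image_le {N u : ℕ} (g : Fin N → Fin u) (a : Fin u) (m : ℕ) (hm : m ≤ N) :
    (Finset.univ.filter (fun p : Fin (N + 1) => p.val < m)).image (h170_ap g a)
      = (Finset.univ.filter (fun p : Fin N => p.val < m)).image g := by
  ext b
  simp only [Finset.mem_image, Finset.mem_filter, Finset.mem_univ, true_and]
  constructor
  · rintro ⟨q, hq, rfl⟩
    revert hq
    refine Fin.lastCases ?_ (fun p => ?_) q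
    · intro hq
      rw [Fin.val_last] at hq
      omega
    · intro hq
      exact ⟨p, hq, (h170_ap_castSucc g a p).symm⟩
  · rintro ⟨p, hp, rfl⟩
    exact ⟨p.castSucc, hp, h170_ap_castSucc g a p⟩

private theorem h170_image_succAbove {N u : ℕ} (g : Fin N → Fin u) (a : Fin (u + 1)) (s : Finset (Fin N)) :
    (s.image (fun p => a.succAbove (g p))).card = (s.image g).card := by
  have h : s.image (fun p => a.succAbove (g p)) = (s.image g).image a.succAbove := by
    rw [Finset.image_image]
    rfl
  rw [h, Finset.card_image_of_injective _ Fin.succAbove_right_injective]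

private theorem h170_Q_succAbove (k N1 : ℕ) {N u : ℕ} (g : Fin N → Fin u) (a : Fin (u + 1)) :
    h170_Q k N1 (fun p => a.succAbove (g p)) ↔ h170_Q k N1 g := by
  unfold h170_Q
  refine forall_congr' fun i => ?_
  rw [h170_image_succAbove]

private theorem h170_Q_ap (k N1 : ℕ) {N u : ℕ} (g : Fin N → Fin u) (a : Fin u)
    (hs : Function.Surjective (h170_ap g a)) :
    h170_Q k N1 (h170_ap g a) ↔ (h170_Q k N1 g ∧ ∀ i, N1 < k * i → k * i = N + 1 → i < u) := by
  unfold h170_Q
  constructor
  · intro h
    refine ⟨fun i h1 h2 => ?_, fun i h1 h2 => ?_⟩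
    · rw [← h170_image_le g a (k * i) h2]
      exact h i h1 (by omega)
    · have h3 := h i h1 (by omega)
      refine lt_of_lt_of_le h3 ?_
      calc _ ≤ (Finset.univ : Finset (Fin u)).card := Finset.card_le_card (Finset.subset_univ _)
        _ = u := by simp
  · rintro ⟨h1, h2⟩ i h3 h4
    by_cases h5 : k * i ≤ N
    · rw [h170_image_le g a (k * i) h5]
      exact h1 i h3 h5
    · have h6 : k * i = N + 1 := by omega
      have h7 : (Finset.univ.filter (fun p : Fin (N + 1) => p.val < k * i)) = Finset.univ := by
        rw [h6]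
        ext p
        simp only [Finset.mem_filter, Finset.mem_univ, true_and, iff_true]
        exact p.isLt
      rw [h7, Finset.image_univ_of_surjective hs]
      simpa using h2 i h3 h6

/-- the set of good surjections -/
private def h170_S (k N1 N u : ℕ) : Set (Fin N → Fin u) := {f | Function.Surjective f ∧ h170_Q k N1 f}

private theorem h170_surj_ap_of {N u : ℕ} (g : Fin N → Fin u) (a : Fin u) (hg : Function.Surjective g) :
    Function.Surjective (h170_ap g a) := by
  intro b
  obtain ⟨p, rfl⟩ := hg b
  exact ⟨p.castSucc, h170_ap_castSucc g a p⟩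

private theorem h170_surj_ap_succAbove {N u : ℕ} (g : Fin N → Fin u) (a : Fin (u + 1)) (hg : Function.Surjective g) :
    Function.Surjective (h170_ap (fun p => a.succAbove (g p)) a) := by
  intro b
  by_cases hb : b = a
  · exact ⟨Fin.last N, by rw [h170_ap_last, hb]⟩
  · obtain ⟨c, rfl⟩ := Fin.exists_succAbove_eq hb
    obtain ⟨p, rfl⟩ := hg c
    exact ⟨p.castSucc, h170_ap_castSucc _ a p⟩

private theorem h170_succ (k N1 N u : ℕ) (hk : 1 ≤ k) :
    (h170_S k N1 (N + 1) (u + 1)).ncard = if N1 < N + 1 ∧ k ∣ N + 1 ∧ k * (u + 1) ≤ N + 1 then 0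
      else (u + 1) * ((h170_S k N1 N (u + 1)).ncard + (h170_S k N1 N u).ncard) := by
  classical
  by_cases hc : N1 < N + 1 ∧ k ∣ N + 1 ∧ k * (u + 1) ≤ N + 1
  · rw [if_pos hc]
    obtain ⟨h1, ⟨i, hi⟩, h3⟩ := hc
    have h4 : h170_S k N1 (N + 1) (u + 1) = ∅ := by
      rw [Set.eq_empty_iff_forall_notMem]
      rintro f ⟨hf, hQ⟩
      rw [← h170_ap_self f] at hQ hf
      rw [h170_Q_ap k N1 _ _ hf] at hQ
      have h5 := hQ.2 i (by omega) hi.symm
      have h6 : k * i < k * (u + 1) := Nat.mul_lt_mul_of_pos_left h5 (by omega)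
      omega
    rw [h4, Set.ncard_empty]
  · rw [if_neg hc]
    have hlast : ∀ i, N1 < k * i → k * i = N + 1 → i < u + 1 := by
      intro i h1 h2
      have h3 : ¬ k * (u + 1) ≤ N + 1 := fun h4 => hc ⟨by omega, ⟨i, h2.symm⟩, h4⟩
      by_contra h4
      have h5 : k * (u + 1) ≤ k * i := Nat.mul_le_mul_left k (by omega)
      omega
    obtain ⟨φ, hφ⟩ : ∃ φ : Fin (u + 1) × (Fin N → Fin (u + 1)) → (Fin (N + 1) → Fin (u + 1)),
        φ = fun q => h170_ap q.2 q.1 := ⟨_, rfl⟩
    obtain ⟨ψ, hψ⟩ : ∃ ψ : Fin (u + 1) × (Fin N → Fin u) → (Fin (N + 1) → Fin (u + 1)),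
        ψ = fun q => h170_ap (fun p => q.1.succAbove (q.2 p)) q.1 := ⟨_, rfl⟩
    have hφi : Function.Injective φ := by
      rintro ⟨a, g⟩ ⟨a', g'⟩ h
      rw [hφ] at h
      have h1 := congrFun h (Fin.last N)
      simp only [h170_ap_last] at h1
      have h2 : g = g' := by
        funext p
        have h3 := congrFun h p.castSucc
        simpa only [h170_ap_castSucc] using h3
      rw [h1, h2]
    have hψi : Function.Injective ψ := by
      rintro ⟨a, g⟩ ⟨a', g'⟩ h
      rw [hψ] at h
      have h1 := congrFun h (Fin.last N)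
      simp only [h170_ap_last] at h1
      subst h1
      have h2 : g = g' := by
        funext p
        have h3 := congrFun h p.castSucc
        simp only [h170_ap_castSucc] at h3
        exact Fin.succAbove_right_injective h3
      rw [h2]
    have hset : h170_S k N1 (N + 1) (u + 1) = φ '' (Set.univ ×ˢ h170_S k N1 N (u + 1)) ∪
        ψ '' (Set.univ ×ˢ h170_S k N1 N u) := by
      ext f
      constructor
      · rintro ⟨hf, hQ⟩
        have hfe := h170_ap_self f
        rw [← hfe] at hQ
        rw [h170_Q_ap k N1 _ _ (by rw [hfe]; exact hf)] at hQ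
        by_cases hg : Function.Surjective (fun p : Fin N => f p.castSucc)
        · left
          refine ⟨(f (Fin.last N), fun p => f p.castSucc), ⟨Set.mem_univ _, hg, hQ.1⟩, ?_⟩
          rw [hφ]
          exact hfe
        · right
          have hmiss : ∀ p : Fin N, f p.castSucc ≠ f (Fin.last N) := by
            unfold Function.Surjective at hg
            push Not at hg
            obtain ⟨b, hb⟩ := hg
            obtain ⟨q, hq⟩ := hf b
            have hql : q = Fin.last N := by
              revert hq
              refine Fin.lastCases (fun _ => rfl) (fun p hq => ?_) q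
              exact absurd hq (hb p)
            intro p hp
            apply hb p
            rw [hp, ← hql, hq]
          choose g' hg' using fun p => Fin.exists_succAbove_eq (hmiss p)
          have hge : (fun p : Fin N => f p.castSucc) = fun p => (f (Fin.last N)).succAbove (g' p) := by
            funext p
            exact (hg' p).symm
          refine ⟨(f (Fin.last N), g'), ⟨Set.mem_univ _, ?_, ?_⟩, ?_⟩
          · intro c
            obtain ⟨q, hq⟩ := hf ((f (Fin.last N)).succAbove c)
            revert hq
            refine Fin.lastCases (fun hq => ?_) (fun p hq => ?_) q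
            · exact absurd hq.symm (Fin.succAbove_ne _ _)
            · refine ⟨p, ?_⟩
              rw [← hg' p] at hq
              exact Fin.succAbove_right_injective hq
          · have h1 := hQ.1
            rw [hge, h170_Q_succAbove] at h1
            exact h1
          · rw [hψ]
            show h170_ap (fun p => (f (Fin.last N)).succAbove (g' p)) (f (Fin.last N)) = f
            rw [← hge]
            exact hfe
      · rintro (⟨⟨a, g⟩, ⟨-, hg, hQ⟩, rfl⟩ | ⟨⟨a, g⟩, ⟨-, hg, hQ⟩, rfl⟩)
        · rw [hφ]
          have hs := h170_surj_ap_of g a hg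
          refine ⟨hs, ?_⟩
          show h170_Q k N1 (h170_ap g a)
          rw [h170_Q_ap k N1 g a hs]
          exact ⟨hQ, hlast⟩
        · rw [hψ]
          have hs := h170_surj_ap_succAbove g a hg
          refine ⟨hs, ?_⟩
          show h170_Q k N1 (h170_ap (fun p => a.succAbove (g p)) a)
          rw [h170_Q_ap k N1 _ a hs, h170_Q_succAbove]
          exact ⟨hQ, hlast⟩
    have hdisj : Disjoint (φ '' (Set.univ ×ˢ h170_S k N1 N (u + 1))) (ψ '' (Set.univ ×ˢ h170_S k N1 N u)) := by
      rw [Set.disjoint_left]
      rintro f ⟨⟨a, g⟩, ⟨-, hg, -⟩, rfl⟩ ⟨⟨a', g'⟩, -, h⟩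
      rw [hφ, hψ] at h
      have hg' : Function.Surjective g := hg
      obtain ⟨p, hp⟩ := hg' a'
      have h3 := congrFun h p.castSucc
      simp only [h170_ap_castSucc] at h3
      rw [hp] at h3
      exact Fin.succAbove_ne _ _ h3
    rw [hset, Set.ncard_union_eq hdisj (Set.toFinite _) (Set.toFinite _), Set.ncard_image_of_injective _ hφi,
      Set.ncard_image_of_injective _ hψi, Set.ncard_prod, Set.ncard_prod, Set.ncard_univ, Nat.card_eq_fintype_card,
      Fintype.card_fin, mul_add]

private theorem h170_gp (k N1 : ℕ) (hk : 1 ≤ k) (N u : ℕ) : (h170_S k N1 N u).ncard = gp k N1 N u := by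
  induction N generalizing u with
  | zero =>
    cases u with
    | zero =>
      have h : h170_S k N1 0 0 = Set.univ := by
        ext f
        simp only [Set.mem_univ, iff_true]
        refine ⟨fun b => b.elim0, fun i h1 h2 => ?_⟩
        omega
      rw [h, Set.ncard_univ, Nat.card_eq_fintype_card]
      simp [gp]
    | succ u =>
      have h : h170_S k N1 0 (u + 1) = ∅ := by
        rw [Set.eq_empty_iff_forall_notMem]
        rintro f ⟨hf, -⟩
        obtain ⟨p, -⟩ := hf 0
        exact p.elim0
      rw [h, Set.ncard_empty]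
      rfl
  | succ N ih =>
    cases u with
    | zero =>
      have h : h170_S k N1 (N + 1) 0 = ∅ := by
        rw [Set.eq_empty_iff_forall_notMem]
        intro f _
        exact (f 0).elim0
      rw [h, Set.ncard_empty]
      rfl
    | succ u =>
      rw [h170_succ k N1 N u hk, ih, ih]
      rfl

private theorem h170_gp_sj (k N1 N u : ℕ) (h : N ≤ N1) : gp k N1 N u = sj N u := by
  induction N generalizing u with
  | zero => cases u <;> rfl
  | succ N ih =>
    cases u with
    | zero => rfl
    | succ u =>
      show (if N1 < N + 1 ∧ k ∣ N + 1 ∧ k * (u + 1) ≤ N + 1 then 0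
        else (u + 1) * (gp k N1 N (u + 1) + gp k N1 N u)) = (u + 1) * (sj N (u + 1) + sj N u)
      rw [if_neg (fun hc => by omega), ih (u + 1) (by omega), ih u (by omega)]

theorem gp_card (k N1 : ℕ) (hk : 1 ≤ k) (N u : ℕ) :
    Set.ncard {f : Fin N → Fin u | Function.Surjective f ∧ ∀ i, N1 < k * i → k * i ≤ N →
      i < ((Finset.univ.filter (fun p : Fin N => p.val < k * i)).image f).card} = gp k N1 N u :=
  h170_gp k N1 hk N u

theorem sj_card (N u : ℕ) :
    Set.ncard {f : Fin N → Fin u | Function.Surjective f} = sj N u := by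
  rw [← h170_gp_sj 1 N N u le_rfl, ← h170_gp 1 N le_rfl N u]
  congr 1
  ext f
  refine ⟨fun h => ⟨h, fun i h1 h2 => ?_⟩, fun h => h.1⟩
  omega

end AS

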