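import Pool.Agent.Helper949.ASX.Defs

set_option autoImplicit false

namespace RA
variable {V : Type} {k : ℕ}
end RA

namespace SI
variable {V : Type} {k : ℕ}
end SI

namespace AS
open Finset

end AS

namespace AS
open Finset
end AS

namespace AS
open Finset
private theorem ASB2_mem {C W : Type} [Fintype C] [Fintype W] (f0 : C → W) (X : Finset C) (K R : Finset W)
    (f : C → W) : f ∈ OmG f0 X K R ↔ (∀ c ∈ X, f c = f0 c) ∧ (∀ c, c ∉ X → f c ∉ K) ∧
    ∀ r ∈ R, ∃ c, c ∉ X ∧ f c = r := by
  simp [OmG]

private theorem ASB2_fiber {C W : Type} [Fintype C] [Fintype W] [DecidableEq C] [DecidableEq W]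
    (f0 : C → W) (X : Finset C) (K R : Finset W) (z : C) (hz : z ∉ X) (w : W) (hw : w ∉ K)
    (f : C → W) : f ∈ OmG (Function.update f0 z w) (insert z X) K (R.erase w) ↔
      f ∈ OmG f0 X K R ∧ f z = w := by
  rw [ASB2_mem, ASB2_mem]
  constructor
  · rintro ⟨h1, h2, h3⟩
    have hfz : f z = w := by
      have := h1 z (Finset.mem_insert_self _ _)
      rwa [Function.update_self] at this
    refine ⟨⟨?_, ?_, ?_⟩, hfz⟩
    · intro c hc
      have hcz : c ≠ z := fun h => hz (h ▸ hc)
      have := h1 c (Finset.mem_insert_of_mem hc)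
      rwa [Function.update_of_ne hcz] at this
    · intro c hc
      by_cases hcz : c = z
      · rw [hcz, hfz]; exact hw
      · exact h2 c (by simp [hcz, hc])
    · intro r hr
      by_cases hrw : r = w
      · exact ⟨z, hz, by rw [hfz, hrw]⟩
      · obtain ⟨c, hc, hfc⟩ := h3 r (Finset.mem_erase.2 ⟨hrw, hr⟩)
        rw [Finset.mem_insert, not_or] at hc
        exact ⟨c, hc.2, hfc⟩
  · rintro ⟨⟨h1, h2, h3⟩, hfz⟩
    refine ⟨?_, ?_, ?_⟩
    · intro c hc
      by_cases hcz : c = z
      · rw [hcz, Function.update_self, hfz]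
      · rw [Function.update_of_ne hcz]
        exact h1 c ((Finset.mem_insert.1 hc).resolve_left hcz)
    · intro c hc
      rw [Finset.mem_insert, not_or] at hc
      exact h2 c hc.2
    · intro r hr
      rw [Finset.mem_erase] at hr
      obtain ⟨c, hc, hfc⟩ := h3 r hr.2
      refine ⟨c, ?_, hfc⟩
      rw [Finset.mem_insert, not_or]
      refine ⟨?_, hc⟩
      rintro rfl
      exact hr.1 (hfc.symm.trans hfz)

private theorem ASB2_inj {C W : Type} [Fintype C] [Fintype W] [DecidableEq C] [DecidableEq W]
    (f0 : C → W) (X : Finset C) (K R : Finset W) (hRK : Disjoint R K) (z : C) (hz : z ∉ X)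
    (w w' : W) (hw : w ∉ K) (hw' : w' ∈ R) :
    ((OmG f0 X K R).filter (fun f => f z = w)).card ≤
      ((OmG f0 X K R).filter (fun f => f z = w')).card := by
  have hw'K : w' ∉ K := Finset.disjoint_left.1 hRK hw'
  apply Finset.card_le_card_of_injOn (fun f c => if c ∈ X then f c else Equiv.swap w w' (f c))
  · intro f hf
    rw [Finset.mem_coe, Finset.mem_filter, ASB2_mem] at hf
    obtain ⟨⟨h1, h2, h3⟩, hfz⟩ := hf
    rw [Finset.mem_coe, Finset.mem_filter, ASB2_mem]
    refine ⟨⟨?_, ?_, ?_⟩, ?_⟩
    · intro c hc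
      simp only [hc, if_true]
      exact h1 c hc
    · intro c hc
      simp only [hc, if_false]
      have h4 := h2 c hc
      rcases eq_or_ne (f c) w with h5 | h5
      · rw [h5, Equiv.swap_apply_left]; exact hw'K
      · rcases eq_or_ne (f c) w' with h6 | h6
        · rw [h6, Equiv.swap_apply_right]; exact hw
        · rw [Equiv.swap_apply_of_ne_of_ne h5 h6]; exact h4
    · intro r hr
      rcases eq_or_ne r w' with h5 | h5
      · refine ⟨z, hz, ?_⟩
        simp only [hz, if_false]
        rw [hfz, Equiv.swap_apply_left, h5]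
      · rcases eq_or_ne r w with h6 | h6
        · obtain ⟨c, hc, hfc⟩ := h3 w' hw'
          refine ⟨c, hc, ?_⟩
          simp only [hc, if_false]
          rw [hfc, Equiv.swap_apply_right, h6]
        · obtain ⟨c, hc, hfc⟩ := h3 r hr
          refine ⟨c, hc, ?_⟩
          simp only [hc, if_false]
          rw [hfc, Equiv.swap_apply_of_ne_of_ne h6 h5]
    · simp only [hz, if_false]
      rw [hfz, Equiv.swap_apply_left]
  · intro f hf g hg hfg
    funext c
    have h1 := congrFun hfg c
    simp only at h1
    by_cases hc : c ∈ X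
    · simpa [hc] using h1
    · simpa [hc] using h1

private theorem ASB2_sum {C W : Type} [Fintype C] [Fintype W] [DecidableEq C] [DecidableEq W]
    (f0 : C → W) (X : Finset C) (K R : Finset W) (z : C) (hz : z ∉ X) :
    (OmG f0 X K R).card = ∑ w ∈ Kᶜ, ((OmG f0 X K R).filter (fun f => f z = w)).card := by
  apply Finset.card_eq_sum_card_fiberwise
  intro f hf
  rw [Finset.mem_coe, ASB2_mem] at hf
  rw [Finset.mem_coe, Finset.mem_compl]
  exact hf.2.1 z hz

private theorem ASB2_up {C W : Type} [Fintype C] [Fintype W] [DecidableEq C] [DecidableEq W]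
    (f0 : C → W) (X : Finset C) (K R : Finset W) (hRK : Disjoint R K) (z : C) (hz : z ∉ X)
    (w : W) (hw : w ∉ K) :
    R.card * ((OmG f0 X K R).filter (fun f => f z = w)).card ≤ (OmG f0 X K R).card := by
  rw [ASB2_sum f0 X K R z hz]
  calc R.card * ((OmG f0 X K R).filter (fun f => f z = w)).card
      = ∑ w' ∈ R, ((OmG f0 X K R).filter (fun f => f z = w)).card := by
        rw [Finset.sum_const, smul_eq_mul]
    _ ≤ ∑ w' ∈ R, ((OmG f0 X K R).filter (fun f => f z = w')).card :=
        Finset.sum_le_sum (fun w' hw' => ASB2_inj f0 X K R hRK z hz w w' hw hw')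
    _ ≤ ∑ w ∈ Kᶜ, ((OmG f0 X K R).filter (fun f => f z = w)).card := by
        apply Finset.sum_le_sum_of_subset
        intro r hr
        rw [Finset.mem_compl]
        exact Finset.disjoint_left.1 hRK hr

private theorem ASB2_low {C W : Type} [Fintype C] [Fintype W] [DecidableEq C] [DecidableEq W]
    (f0 : C → W) (X : Finset C) (K R : Finset W) (hRK : Disjoint R K) (z : C) (hz : z ∉ X)
    (w : W) (hw : w ∈ R) :
    (OmG f0 X K R).card ≤ (Fintype.card W - K.card) *
      ((OmG f0 X K R).filter (fun f => f z = w)).card := by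
  conv_lhs => rw [ASB2_sum f0 X K R z hz]
  calc ∑ w' ∈ Kᶜ, ((OmG f0 X K R).filter (fun f => f z = w')).card
      ≤ ∑ w' ∈ Kᶜ, ((OmG f0 X K R).filter (fun f => f z = w)).card :=
        Finset.sum_le_sum (fun w' hw' =>
          ASB2_inj f0 X K R hRK z hz w' w (Finset.mem_compl.1 hw') hw)
    _ = _ := by rw [Finset.sum_const, smul_eq_mul, Finset.card_compl]

private theorem ASB2_ncard0 {C W : Type} [Fintype C] [Fintype W] [DecidableEq C] [DecidableEq W]
    (f0 σ : C → W) (X : Finset C) (K R : Finset W) :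
    Set.ncard {f | f ∈ OmG f0 X K R ∧ ∀ c ∈ (∅ : Finset C), f c = σ c} = (OmG f0 X K R).card := by
  have : {f | f ∈ OmG f0 X K R ∧ ∀ c ∈ (∅ : Finset C), f c = σ c} =
      ((OmG f0 X K R : Finset (C → W)) : Set (C → W)) := by
    ext f; simp
  rw [this, Set.ncard_coe_finset]

private theorem ASB2_set {C W : Type} [Fintype C] [Fintype W] [DecidableEq C] [DecidableEq W]
    (f0 σ : C → W) (X Z : Finset C) (K R : Finset W) (z : C) (hz : z ∉ X) (hw : σ z ∉ K) :
    {f | f ∈ OmG f0 X K R ∧ ∀ c ∈ insert z Z, f c = σ c} =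
      {f | f ∈ OmG (Function.update f0 z (σ z)) (insert z X) K (R.erase (σ z)) ∧
        ∀ c ∈ Z, f c = σ c} := by
  ext f
  simp only [Set.mem_ofPred_eq, ASB2_fiber f0 X K R z hz (σ z) hw, Finset.forall_mem_insert]
  tauto

private theorem ASB2_cardfib {C W : Type} [Fintype C] [Fintype W] [DecidableEq C] [DecidableEq W]
    (f0 σ : C → W) (X : Finset C) (K R : Finset W) (z : C) (hz : z ∉ X) (hw : σ z ∉ K) :
    (OmG (Function.update f0 z (σ z)) (insert z X) K (R.erase (σ z))).card =
      ((OmG f0 X K R).filter (fun f => f z = σ z)).card := by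
  congr 1
  ext f
  rw [ASB2_fiber f0 X K R z hz (σ z) hw, Finset.mem_filter]

/-! TARGETS -/
theorem prescribe_upper {C W : Type} [Fintype C] [Fintype W] [DecidableEq C] [DecidableEq W]
    (f0 σ : C → W) (X Z : Finset C) (K R : Finset W) (hZ : Disjoint Z X) :
    Set.ncard {f | f ∈ OmG f0 X K R ∧ ∀ c ∈ Z, f c = σ c} * R.card.descFactorial Z.card
      ≤ (OmG f0 X K R).card := by
  induction Z using Finset.induction_on generalizing f0 X R with
  | empty => rw [ASB2_ncard0]; simp
  | insert z Z hzZ ih =>
    have hzX : z ∉ X := Finset.disjoint_left.1 hZ (Finset.mem_insert_self _ _)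
    have hZX : Disjoint Z (insert z X) := by
      rw [Finset.disjoint_left]
      intro c hc hc2
      rcases Finset.mem_insert.1 hc2 with rfl | h
      · exact hzZ hc
      · exact Finset.disjoint_left.1 hZ (Finset.mem_insert_of_mem hc) h
    by_cases hw : σ z ∈ K
    · have : {f | f ∈ OmG f0 X K R ∧ ∀ c ∈ insert z Z, f c = σ c} = ∅ := by
        ext f
        simp only [Set.mem_ofPred_eq, Set.mem_empty_iff_false, iff_false, not_and]
        intro hf h
        rw [ASB2_mem] at hf
        apply hf.2.1 z hzX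
        rw [h z (Finset.mem_insert_self _ _)]
        exact hw
      rw [this, Set.ncard_empty, zero_mul]
      exact Nat.zero_le _
    by_cases hRK : Disjoint R K
    swap
    · rw [Finset.not_disjoint_iff] at hRK
      obtain ⟨r, hr, hrK⟩ := hRK
      have : {f | f ∈ OmG f0 X K R ∧ ∀ c ∈ insert z Z, f c = σ c} = ∅ := by
        ext f
        simp only [Set.mem_ofPred_eq, Set.mem_empty_iff_false, iff_false, not_and]
        intro hf _
        rw [ASB2_mem] at hf
        obtain ⟨c, hc, hfc⟩ := hf.2.2 r hr
        exact (hf.2.1 c hc (hfc ▸ hrK)).elim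
      rw [this, Set.ncard_empty, zero_mul]
      exact Nat.zero_le _
    rw [ASB2_set f0 σ X Z K R z hzX hw, Finset.card_insert_of_notMem hzZ]
    have h1 := ih (Function.update f0 z (σ z)) (insert z X) (R.erase (σ z)) hZX
    rw [ASB2_cardfib f0 σ X K R z hzX hw] at h1
    have h2 := ASB2_up f0 X K R hRK z hzX (σ z) hw
    set N := Set.ncard {f | f ∈ OmG (Function.update f0 z (σ z)) (insert z X) K (R.erase (σ z)) ∧
        ∀ c ∈ Z, f c = σ c} with hN
    rcases Nat.eq_zero_or_pos R.card with h0 | h0
    · rw [h0, Nat.zero_descFactorial_succ, mul_zero]; exact Nat.zero_le _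
    · obtain ⟨u, hu⟩ := Nat.exists_eq_succ_of_ne_zero h0.ne'
      have h3 : u ≤ (R.erase (σ z)).card := by
        have := Finset.pred_card_le_card_erase (s := R) (a := σ z)
        omega
      have h4 : u.descFactorial Z.card ≤ (R.erase (σ z)).card.descFactorial Z.card :=
        Nat.descFactorial_le _ h3
      calc N * R.card.descFactorial (Z.card + 1)
          = R.card * (N * u.descFactorial Z.card) := by
            rw [hu, Nat.succ_eq_add_one, Nat.succ_descFactorial_succ]; ring
        _ ≤ R.card * (N * (R.erase (σ z)).card.descFactorial Z.card) :=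
            Nat.mul_le_mul_left _ (Nat.mul_le_mul_left _ h4)
        _ ≤ R.card * ((OmG f0 X K R).filter (fun f => f z = σ z)).card :=
            Nat.mul_le_mul_left _ h1
        _ ≤ _ := h2

theorem prescribe_lower {C W : Type} [Fintype C] [Fintype W] [DecidableEq C] [DecidableEq W]
    (f0 σ : C → W) (X Z : Finset C) (K R : Finset W) (hZ : Disjoint Z X) (hRK : Disjoint R K)
    (hinj : Set.InjOn σ Z) (hσ : ∀ c ∈ Z, σ c ∈ R) :
    (OmG f0 X K R).card ≤ Set.ncard {f | f ∈ OmG f0 X K R ∧ ∀ c ∈ Z, f c = σ c}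
      * (Fintype.card W - K.card) ^ Z.card := by
  induction Z using Finset.induction_on generalizing f0 X R with
  | empty => rw [ASB2_ncard0]; simp
  | insert z Z hzZ ih =>
    have hzX : z ∉ X := Finset.disjoint_left.1 hZ (Finset.mem_insert_self _ _)
    have hZX : Disjoint Z (insert z X) := by
      rw [Finset.disjoint_left]
      intro c hc hc2
      rcases Finset.mem_insert.1 hc2 with rfl | h
      · exact hzZ hc
      · exact Finset.disjoint_left.1 hZ (Finset.mem_insert_of_mem hc) h
    have hzR : σ z ∈ R := hσ z (Finset.mem_insert_self _ _)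
    have hw : σ z ∉ K := Finset.disjoint_left.1 hRK hzR
    have h1 := ih (Function.update f0 z (σ z)) (insert z X) (R.erase (σ z)) hZX
      (Finset.disjoint_of_subset_left (Finset.erase_subset _ _) hRK)
      (hinj.mono (by simp)) (by
        intro c hc
        rw [Finset.mem_erase]
        refine ⟨?_, hσ c (Finset.mem_insert_of_mem hc)⟩
        intro h
        have : c = z := hinj (by simp [hc]) (by simp) h
        exact hzZ (this ▸ hc))
    rw [ASB2_cardfib f0 σ X K R z hzX hw] at h1
    rw [ASB2_set f0 σ X Z K R z hzX hw, Finset.card_insert_of_notMem hzZ]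
    have h2 := ASB2_low f0 X K R hRK z hzX (σ z) hzR
    calc (OmG f0 X K R).card ≤ (Fintype.card W - K.card) *
          ((OmG f0 X K R).filter (fun f => f z = σ z)).card := h2
      _ ≤ (Fintype.card W - K.card) * _ := Nat.mul_le_mul_left _ h1
      _ = _ := by ring
end AS

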