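import Pool.Agent.Helper949.ASX.Defs
import Pool.Agent.Helper949.ASX.A3
import Pool.Agent.Helper949.ASX.B2

set_option autoImplicit false

namespace RA
variable {V : Type} {k : ℕ}
end RA

namespace SI
variable {V : Type} {k : ℕ}
end SI

namespace AS
open Finset

end AS

namespace AS
open Finset
end AS

namespace AS
open Finset
/-! GIVEN -/
/-! TARGET -/
private theorem start_aux1 (N u : ℕ) (σ : Fin N → Fin u) (Z : Finset (Fin N)) :
    Set.ncard {f : Fin N → Fin u | Function.Surjective f ∧ ∀ c ∈ Z, f c = σ c} *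
      u.descFactorial Z.card ≤ sj N u := by
  classical
  have h := prescribe_upper σ σ ∅ Z ∅ (Finset.univ : Finset (Fin u)) (Finset.disjoint_empty_right Z)
  have h1 : ∀ f : Fin N → Fin u, f ∈ OmG σ ∅ ∅ (Finset.univ : Finset (Fin u)) ↔
      Function.Surjective f := by
    intro f
    simp [OmG, Function.Surjective]
  have h2 : (OmG σ ∅ ∅ (Finset.univ : Finset (Fin u))).card = sj N u := by
    rw [← sj_card, ← Set.ncard_coe_finset]
    congr 1
    ext f
    simp only [Finset.mem_coe, h1, Set.mem_setOf_eq]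
  simp only [h1] at h
  rw [Finset.card_univ, Fintype.card_fin, h2] at h
  exact h

private theorem start_aux2 (N u : ℕ) (hu : 0 < u) (Z : Finset (Fin N)) (I : Finset (Fin u)) (M : ℝ)
    (hM : ∀ σ : Fin N → Fin u,
      (Set.ncard {f : Fin N → Fin u | Function.Surjective f ∧ ∀ c ∈ Z, f c = σ c} : ℝ) ≤ M) :
    (Set.ncard {f : Fin N → Fin u | Function.Surjective f ∧ ∀ c ∈ Z, f c ∈ I} : ℝ) ≤
      (I.card : ℝ) ^ Z.card * M := by
  classical
  let σ : (↥Z → ↥I) → Fin N → Fin u := fun τ c => if h : c ∈ Z then (τ ⟨c, h⟩ : Fin u) else ⟨0, hu⟩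
  have hsub : {f : Fin N → Fin u | Function.Surjective f ∧ ∀ c ∈ Z, f c ∈ I} ⊆
      ⋃ τ ∈ (Finset.univ : Finset (↥Z → ↥I)),
        {f : Fin N → Fin u | Function.Surjective f ∧ ∀ c ∈ Z, f c = σ τ c} := by
    rintro f ⟨hf1, hf2⟩
    rw [Set.mem_iUnion₂]
    refine ⟨fun c => ⟨f c.1, hf2 c.1 c.2⟩, Finset.mem_univ _, hf1, fun c hc => ?_⟩
    show f c = if h : c ∈ Z then f c else ⟨0, hu⟩
    rw [dif_pos hc]
  have h1 := (Set.ncard_le_ncard hsub (Set.toFinite _)).trans (Finset.set_ncard_biUnion_le _ _)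
  calc (Set.ncard {f : Fin N → Fin u | Function.Surjective f ∧ ∀ c ∈ Z, f c ∈ I} : ℝ)
      ≤ ((∑ τ ∈ (Finset.univ : Finset (↥Z → ↥I)),
        Set.ncard {f : Fin N → Fin u | Function.Surjective f ∧ ∀ c ∈ Z, f c = σ τ c} : ℕ) : ℝ) := by
        exact_mod_cast h1
    _ = ∑ τ ∈ (Finset.univ : Finset (↥Z → ↥I)),
        (Set.ncard {f : Fin N → Fin u | Function.Surjective f ∧ ∀ c ∈ Z, f c = σ τ c} : ℝ) := by
        push_cast; rfl
    _ ≤ ∑ τ ∈ (Finset.univ : Finset (↥Z → ↥I)), M := Finset.sum_le_sum fun τ _ => hM _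
    _ = (I.card : ℝ) ^ Z.card * M := by
        rw [Finset.sum_const, nsmul_eq_mul, Finset.card_univ, Fintype.card_fun, Fintype.card_coe,
          Fintype.card_coe]
        push_cast
        rfl

private theorem start_aux3 (N u i : ℕ) (hu : 0 < u) (hiu : i ≤ u) (Z : Finset (Fin N)) (M : ℝ)
    (hM : ∀ σ : Fin N → Fin u,
      (Set.ncard {f : Fin N → Fin u | Function.Surjective f ∧ ∀ c ∈ Z, f c = σ c} : ℝ) ≤ M) :
    (Set.ncard {f : Fin N → Fin u | Function.Surjective f ∧ (Z.image f).card ≤ i} : ℝ) ≤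
      (u.choose i : ℝ) * ((i : ℝ) ^ Z.card * M) := by
  classical
  have hsub : {f : Fin N → Fin u | Function.Surjective f ∧ (Z.image f).card ≤ i} ⊆
      ⋃ I ∈ Finset.powersetCard i (Finset.univ : Finset (Fin u)),
        {f : Fin N → Fin u | Function.Surjective f ∧ ∀ c ∈ Z, f c ∈ I} := by
    rintro f ⟨hf1, hf2⟩
    obtain ⟨I, hI1, hI2, hI3⟩ := Finset.exists_subsuperset_card_eq (Finset.subset_univ (Z.image f))
      hf2 (by rw [Finset.card_univ, Fintype.card_fin]; exact hiu)
    rw [Set.mem_iUnion₂]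
    exact ⟨I, Finset.mem_powersetCard.2 ⟨hI2, hI3⟩, hf1,
      fun c hc => hI1 (Finset.mem_image_of_mem f hc)⟩
  have h1 := (Set.ncard_le_ncard hsub (Set.toFinite _)).trans (Finset.set_ncard_biUnion_le _ _)
  calc (Set.ncard {f : Fin N → Fin u | Function.Surjective f ∧ (Z.image f).card ≤ i} : ℝ)
      ≤ ((∑ I ∈ Finset.powersetCard i (Finset.univ : Finset (Fin u)),
        Set.ncard {f : Fin N → Fin u | Function.Surjective f ∧ ∀ c ∈ Z, f c ∈ I} : ℕ) : ℝ) := by
        exact_mod_cast h1
    _ = ∑ I ∈ Finset.powersetCard i (Finset.univ : Finset (Fin u)),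
        (Set.ncard {f : Fin N → Fin u | Function.Surjective f ∧ ∀ c ∈ Z, f c ∈ I} : ℝ) := by
        push_cast; rfl
    _ ≤ ∑ I ∈ Finset.powersetCard i (Finset.univ : Finset (Fin u)), ((i : ℝ) ^ Z.card * M) := by
        refine Finset.sum_le_sum fun I hI => ?_
        have h2 := start_aux2 N u hu Z I M hM
        rwa [(Finset.mem_powersetCard.1 hI).2] at h2
    _ = (u.choose i : ℝ) * ((i : ℝ) ^ Z.card * M) := by
        rw [Finset.sum_const, nsmul_eq_mul, Finset.card_powersetCard, Finset.card_univ,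
          Fintype.card_fin]

theorem start_bad (k N u i1 : ℕ) (hk : 1 ≤ k) (h : k * i1 < u) (huN : u ≤ N) :
    (Set.ncard {f : Fin N → Fin u | Function.Surjective f ∧ ∃ i, 1 ≤ i ∧ i ≤ i1 ∧
      ((Finset.univ.filter (fun p : Fin N => p.val < k * i)).image f).card ≤ i} : ℝ) ≤
    (∑ i ∈ Finset.Icc 1 i1, ((u.choose i : ℝ) * (i:ℝ) ^ (k * i) / ((u:ℝ) - k * i) ^ (k * i)))
      * sj N u := by
  classical
  have hsub : {f : Fin N → Fin u | Function.Surjective f ∧ ∃ i, 1 ≤ i ∧ i ≤ i1 ∧
      ((Finset.univ.filter (fun p : Fin N => p.val < k * i)).image f).card ≤ i} ⊆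
      ⋃ i ∈ Finset.Icc 1 i1, {f : Fin N → Fin u | Function.Surjective f ∧
        ((Finset.univ.filter (fun p : Fin N => p.val < k * i)).image f).card ≤ i} := by
    rintro f ⟨hf1, i, hi1, hi2, hi3⟩
    rw [Set.mem_iUnion₂]
    exact ⟨i, Finset.mem_Icc.2 ⟨hi1, hi2⟩, hf1, hi3⟩
  have h1 := (Set.ncard_le_ncard hsub (Set.toFinite _)).trans (Finset.set_ncard_biUnion_le _ _)
  calc (Set.ncard {f : Fin N → Fin u | Function.Surjective f ∧ ∃ i, 1 ≤ i ∧ i ≤ i1 ∧
      ((Finset.univ.filter (fun p : Fin N => p.val < k * i)).image f).card ≤ i} : ℝ)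
      ≤ ((∑ i ∈ Finset.Icc 1 i1, Set.ncard {f : Fin N → Fin u | Function.Surjective f ∧
        ((Finset.univ.filter (fun p : Fin N => p.val < k * i)).image f).card ≤ i} : ℕ) : ℝ) := by
        exact_mod_cast h1
    _ = ∑ i ∈ Finset.Icc 1 i1, (Set.ncard {f : Fin N → Fin u | Function.Surjective f ∧
        ((Finset.univ.filter (fun p : Fin N => p.val < k * i)).image f).card ≤ i} : ℝ) := by
        push_cast; rfl
    _ ≤ ∑ i ∈ Finset.Icc 1 i1, ((u.choose i : ℝ) * (i:ℝ) ^ (k * i) /
        ((u:ℝ) - k * i) ^ (k * i)) * sj N u := by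
        refine Finset.sum_le_sum fun i hi => ?_
        rw [Finset.mem_Icc] at hi
        have hki : k * i < u := (Nat.mul_le_mul_left k hi.2).trans_lt h
        have hiu : i ≤ u := by nlinarith [hi.1]
        have hcard : (Finset.univ.filter (fun p : Fin N => p.val < k * i)).card = k * i := by
          rw [Fin.card_filter_val_lt]
          exact min_eq_right (by omega)
        have hpos : (0 : ℝ) < (u : ℝ) - k * i := by
          have : ((k * i : ℕ) : ℝ) < u := by exact_mod_cast hki
          push_cast at this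
          linarith
        have h3 := start_aux3 N u i (by omega) hiu
          (Finset.univ.filter (fun p : Fin N => p.val < k * i))
          (sj N u / ((u:ℝ) - k * i) ^ (k * i)) (by
            intro σ
            rw [le_div_iff₀ (pow_pos hpos _)]
            have h4 := start_aux1 N u σ (Finset.univ.filter (fun p : Fin N => p.val < k * i))
            rw [hcard] at h4
            have h5 : (u - k * i) ^ (k * i) ≤ u.descFactorial (k * i) :=
              (Nat.pow_le_pow_left (by omega) _).trans (Nat.pow_sub_le_descFactorial u (k * i))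
            have h6 := (Nat.mul_le_mul_left (Set.ncard {f : Fin N → Fin u | Function.Surjective f ∧
              ∀ c ∈ (Finset.univ.filter (fun p : Fin N => p.val < k * i)), f c = σ c}) h5).trans h4
            have h7 : ((u - k * i : ℕ) : ℝ) = (u : ℝ) - k * i := by
              rw [Nat.cast_sub hki.le]
              push_cast
              rfl
            rw [← h7]
            exact_mod_cast h6)
        rw [hcard] at h3
        refine h3.trans (le_of_eq ?_)
        ring
    _ = _ := by rw [← Finset.sum_mul]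
end AS

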