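import Pool.Agent.Helper949.ASX.Defs

set_option autoImplicit false

namespace RA
variable {V : Type} {k : ℕ}
end RA

namespace SI
variable {V : Type} {k : ℕ}
end SI

namespace AS
open Finset

end AS

namespace AS
open Finset
end AS

namespace AS
open Finset
/-! TARGETS -/
theorem card_OmG {C W : Type} [Fintype C] [Fintype W] (f0 : C → W) (X : Finset C)
    (K R : Finset W) (hRK : Disjoint R K) :
    (OmG f0 X K R).card = cvr (Fintype.card C - X.card) (Fintype.card W - K.card) R.card := by
  classical
  obtain ⟨n, hn⟩ : ∃ n, n = Fintype.card C - X.card := ⟨_, rfl⟩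
  rw [← hn]
  induction n generalizing X f0 R with
  | zero =>
    have hX : X = univ := by
      apply Finset.eq_univ_of_card
      have h1 := Finset.card_le_univ X
      omega
    rcases Finset.eq_empty_or_nonempty R with hR | hR
    · have h : OmG f0 X K R = {f0} := by
        ext f
        rw [OmG, mem_filter, mem_singleton, hX, hR]
        constructor
        · rintro ⟨-, h1, -⟩
          funext c
          exact h1 c (mem_univ c)
        · rintro rfl
          exact ⟨mem_univ _, fun c _ => rfl, fun c hc => absurd (mem_univ c) hc,
            fun r hr => absurd hr (notMem_empty r)⟩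
      rw [h, hR]
      simp [cvr]
    · obtain ⟨r, hr⟩ := hR
      have h : OmG f0 X K R = ∅ := by
        apply Finset.eq_empty_of_forall_notMem
        intro f hf
        rw [OmG, mem_filter] at hf
        obtain ⟨c, hc, -⟩ := hf.2.2.2 r hr
        apply hc
        rw [hX]
        exact mem_univ c
      have hc : 0 < R.card := card_pos.mpr ⟨r, hr⟩
      obtain ⟨u, hu⟩ := Nat.exists_eq_succ_of_ne_zero hc.ne'
      rw [h, hu]
      simp [cvr]
  | succ n ih =>
    obtain ⟨c, hc⟩ : ∃ c, c ∉ X := by
      by_contra hcon
      push Not at hcon
      have h : X = univ := eq_univ_of_forall hcon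
      rw [h, card_univ] at hn
      omega
    have hcard : (OmG f0 X K R).card
        = ∑ w ∈ univ \ K, (cvr n (Fintype.card W - K.card) (R.erase w).card) := by
      rw [Finset.card_eq_sum_card_fiberwise (f := fun f => f c) (t := univ \ K)]
      · apply Finset.sum_congr rfl
        intro w hw
        have hwK : w ∉ K := (mem_sdiff.mp hw).2
        rw [← ih (Function.update f0 c w) (insert c X) (R.erase w)]
        · congr 1
          ext f
          rw [mem_filter, OmG, mem_filter, OmG, mem_filter]
          constructor
          · rintro ⟨⟨-, h1, h2, h3⟩, h4⟩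
            refine ⟨mem_univ _, ?_, ?_, ?_⟩
            · intro c' hc'
              rcases mem_insert.mp hc' with h | h
              · rw [h, Function.update_self]
                exact h4
              · have hne : c' ≠ c := fun h' => hc (h' ▸ h)
                rw [Function.update_of_ne hne]
                exact h1 c' h
            · intro c' hc'
              exact h2 c' (fun h => hc' (mem_insert_of_mem h))
            · intro r hr
              obtain ⟨hrw, hrR⟩ := mem_erase.mp hr
              obtain ⟨c', hc', hr'⟩ := h3 r hrR
              refine ⟨c', ?_, hr'⟩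
              intro h
              rcases mem_insert.mp h with h | h
              · rw [h] at hr'
                exact hrw (hr'.symm.trans h4)
              · exact hc' h
          · rintro ⟨-, h1, h2, h3⟩
            have h4 : f c = w := by
              have h := h1 c (mem_insert_self _ _)
              rwa [Function.update_self] at h
            refine ⟨⟨mem_univ _, ?_, ?_, ?_⟩, h4⟩
            · intro c' hc'
              have hne : c' ≠ c := fun h' => hc (h' ▸ hc')
              have h := h1 c' (mem_insert_of_mem hc')
              rwa [Function.update_of_ne hne] at h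
            · intro c' hc'
              by_cases hcc : c' = c
              · rw [hcc, h4]
                exact hwK
              · apply h2 c'
                intro h
                rcases mem_insert.mp h with h | h
                · exact hcc h
                · exact hc' h
            · intro r hr
              by_cases hrw : r = w
              · exact ⟨c, hc, h4.trans hrw.symm⟩
              · obtain ⟨c', hc', hr'⟩ := h3 r (mem_erase.mpr ⟨hrw, hr⟩)
                exact ⟨c', fun h => hc' (mem_insert_of_mem h), hr'⟩
        · exact Finset.disjoint_of_subset_left (erase_subset _ _) hRK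
        · rw [card_insert_of_notMem hc]
          omega
      · intro f hf
        rw [mem_coe, OmG, mem_filter] at hf
        rw [mem_coe, mem_sdiff]
        exact ⟨mem_univ _, hf.2.2.1 c hc⟩
    rw [hcard]
    have hKc : (univ \ K : Finset W).card = Fintype.card W - K.card := by
      rw [card_sdiff_of_subset (subset_univ K), card_univ]
    have hRsub : R ⊆ univ \ K := by
      intro r hr
      rw [mem_sdiff]
      exact ⟨mem_univ _, fun h => (Finset.disjoint_left.mp hRK) hr h⟩
    rw [← Finset.sum_sdiff hRsub]
    have hA : ∑ w ∈ (univ \ K) \ R, cvr n (Fintype.card W - K.card) (R.erase w).card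
        = (Fintype.card W - K.card - R.card) * cvr n (Fintype.card W - K.card) R.card := by
      rw [Finset.sum_congr rfl (g := fun _ => cvr n (Fintype.card W - K.card) R.card)]
      · rw [sum_const, card_sdiff_of_subset hRsub, hKc, smul_eq_mul]
      · intro w hw
        rw [erase_eq_of_notMem (mem_sdiff.mp hw).2]
    have hB : ∑ w ∈ R, cvr n (Fintype.card W - K.card) (R.erase w).card
        = R.card * cvr n (Fintype.card W - K.card) (R.card - 1) := by
      rw [Finset.sum_congr rfl (g := fun _ => cvr n (Fintype.card W - K.card) (R.card - 1))]
      · rw [sum_const, smul_eq_mul]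
      · intro w hw
        rw [card_erase_of_mem hw]
    rw [hA, hB]
    rcases Nat.eq_zero_or_pos R.card with h0 | h0
    · rw [h0]
      simp only [cvr]
      rw [Nat.sub_zero, Nat.zero_mul, Nat.add_zero, pow_succ]
      ring
    · obtain ⟨u, hu⟩ := Nat.exists_eq_succ_of_ne_zero h0.ne'
      rw [hu]
      simp only [cvr, Nat.succ_eq_add_one, Nat.add_sub_cancel]

theorem card_Om {V : Type} [Fintype V] {k : ℕ} (T0 : V → Fin k → V)
    (X : Finset (V × Fin k)) (K R : Finset V) (hRK : Disjoint R K) :
    (Om T0 X K R).card = cvr (Fintype.card V * k - X.card) (Fintype.card V - K.card) R.card := by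
  classical
  have h := card_OmG (fun c : V × Fin k => T0 c.1 c.2) X K R hRK
  rw [Fintype.card_prod, Fintype.card_fin] at h
  rw [← h]
  apply Finset.card_equiv (Equiv.curry V (Fin k) V).symm
  intro T
  have m1 : T ∈ Om T0 X K R ↔ ((∀ c ∈ X, T c.1 c.2 = T0 c.1 c.2) ∧ (∀ c, c ∉ X → T c.1 c.2 ∉ K) ∧
      ∀ r ∈ R, ∃ c, c ∉ X ∧ T c.1 c.2 = r) := by
    unfold Om
    simp only [Finset.mem_filter, Finset.mem_univ, true_and]
  have m2 : ∀ f : V × Fin k → V, f ∈ OmG (fun c : V × Fin k => T0 c.1 c.2) X K R ↔
      ((∀ c ∈ X, f c = T0 c.1 c.2) ∧ (∀ c, c ∉ X → f c ∉ K) ∧ ∀ r ∈ R, ∃ c, c ∉ X ∧ f c = r) := by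
    intro f
    unfold OmG
    simp only [Finset.mem_filter, Finset.mem_univ, true_and]
  rw [m1]
  exact (m2 _).symm
end AS

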