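import Pool.Agent.Helper949.ASX.Defs
import Pool.Agent.Helper949.ASX.B2

set_option autoImplicit false

namespace RA
variable {V : Type} {k : ℕ}
end RA

namespace SI
variable {V : Type} {k : ℕ}
end SI

namespace AS
open Finset

end AS

namespace AS
open Finset
end AS

namespace AS
open Finset
/-! GIVEN -/
/-! TARGETS -/

private theorem b3_mem {C W : Type} [Fintype C] [Fintype W] {f0 : C → W} {X : Finset C}
    {K R : Finset W} {f : C → W} : f ∈ OmG f0 X K R ↔
      (∀ c ∈ X, f c = f0 c) ∧ (∀ c, c ∉ X → f c ∉ K) ∧ ∀ r ∈ R, ∃ c, c ∉ X ∧ f c = r := by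
  unfold OmG
  classical
  simp only [Finset.mem_filter, Finset.mem_univ, true_and]

private theorem b3_mem0 {C W : Type} [Fintype C] [Fintype W] {f0 : C → W} {X : Finset C}
    {K : Finset W} {f : C → W} : f ∈ OmG f0 X K ∅ ↔
      (∀ c ∈ X, f c = f0 c) ∧ (∀ c, c ∉ X → f c ∉ K) := by
  rw [b3_mem]
  constructor
  · rintro ⟨h1, h2, -⟩
    exact ⟨h1, h2⟩
  · rintro ⟨h1, h2⟩
    exact ⟨h1, h2, fun r hr => absurd hr (Finset.notMem_empty r)⟩

private theorem b3_sub {C W : Type} [Fintype C] [Fintype W] {f0 : C → W} {X : Finset C}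
    {K R : Finset W} {f : C → W} (h : f ∈ OmG f0 X K R) : f ∈ OmG f0 X K ∅ :=
  b3_mem0.2 ⟨(b3_mem.1 h).1, (b3_mem.1 h).2.1⟩

private theorem b3_card {C W : Type} [Fintype C] [Fintype W] (f0 : C → W) (X : Finset C) (K : Finset W) :
    (OmG f0 X K ∅).card = (Fintype.card W - K.card) ^ (Fintype.card C - X.card) := by
  classical
  have h1 : OmG f0 X K ∅ = Fintype.piFinset (fun c => if c ∈ X then {f0 c} else Kᶜ) := by
    ext f
    rw [b3_mem0, Fintype.mem_piFinset]
    constructor
    · rintro ⟨h1, h2⟩ c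
      by_cases hc : c ∈ X
      · rw [if_pos hc, Finset.mem_singleton]
        exact h1 c hc
      · rw [if_neg hc, Finset.mem_compl]
        exact h2 c hc
    · intro h
      refine ⟨fun c hc => ?_, fun c hc => ?_⟩
      · have h2 := h c
        rw [if_pos hc, Finset.mem_singleton] at h2
        exact h2
      · have h2 := h c
        rw [if_neg hc, Finset.mem_compl] at h2
        exact h2
  rw [h1, Fintype.card_piFinset]
  have h2 : ∀ c : C, (if c ∈ X then ({f0 c} : Finset W) else Kᶜ).card =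
      if c ∈ X then 1 else (Fintype.card W - K.card) := by
    intro c
    by_cases hc : c ∈ X
    · rw [if_pos hc, if_pos hc, Finset.card_singleton]
    · rw [if_neg hc, if_neg hc, Finset.card_compl]
  rw [Finset.prod_congr rfl fun c _ => h2 c, Finset.prod_ite, Finset.prod_const_one, one_mul,
    Finset.prod_const]
  congr 1
  rw [← Finset.card_compl]
  congr 1
  ext c
  simp

/-- an event which can be certified by looking at few cells is not much more likely under the
covering condition than without it -/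
theorem certG {C W : Type} [Fintype C] [Fintype W] [DecidableEq C] [DecidableEq W]
    (f0 : C → W) (X : Finset C) (K R : Finset W) (hRK : Disjoint R K) (r : ℕ) (hr : r < R.card)
    (E : Set (C → W)) (Zf : (C → W) → Finset C)
    (h1 : ∀ f ∈ OmG f0 X K ∅, f ∈ E → (Zf f).card ≤ r ∧ Disjoint (Zf f) X)
    (h2 : ∀ f ∈ OmG f0 X K ∅, f ∈ E → ∀ f' ∈ OmG f0 X K ∅, (∀ c ∈ Zf f, f' c = f c) →
      f' ∈ E ∧ Zf f' = Zf f) :
    (Set.ncard {f | f ∈ OmG f0 X K R ∧ f ∈ E} : ℝ) * (OmG f0 X K ∅).card *
        ((R.card : ℝ) - r) ^ r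
      ≤ (OmG f0 X K R).card * Set.ncard {f | f ∈ OmG f0 X K ∅ ∧ f ∈ E} *
        ((Fintype.card W : ℝ) - K.card) ^ r := by
  classical
  have hn : ∀ R' : Finset W, Set.ncard {f | f ∈ OmG f0 X K R' ∧ f ∈ E} =
      ((OmG f0 X K R').filter fun f => f ∈ E).card := by
    intro R'
    have h3 : {f | f ∈ OmG f0 X K R' ∧ f ∈ E} =
        (((OmG f0 X K R').filter fun f => f ∈ E : Finset (C → W)) : Set (C → W)) := by
      ext f
      simp
    rw [h3, Set.ncard_coe_finset]
  rw [hn, hn]
  obtain ⟨S, hS⟩ : ∃ S, S = (OmG f0 X K ∅).filter fun f => f ∈ E := ⟨_, rfl⟩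
  obtain ⟨SR, hSR⟩ : ∃ SR, SR = (OmG f0 X K R).filter fun f => f ∈ E := ⟨_, rfl⟩
  rw [← hS, ← hSR]
  have hmS : ∀ f, f ∈ S ↔ f ∈ OmG f0 X K ∅ ∧ f ∈ E := fun f => by rw [hS, Finset.mem_filter]
  have hmSR : ∀ f, f ∈ SR ↔ f ∈ OmG f0 X K R ∧ f ∈ E := fun f => by rw [hSR, Finset.mem_filter]
  obtain ⟨key, hkey⟩ : ∃ key : (C → W) → Finset C × (C → Option W),
      key = fun f => (Zf f, fun c => if c ∈ Zf f then some (f c) else none) := ⟨_, rfl⟩
  have hk1 : ∀ f f', key f' = key f → Zf f' = Zf f ∧ ∀ c ∈ Zf f, f' c = f c := by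
    intro f f' h
    rw [hkey] at h
    obtain ⟨h3, h4⟩ := Prod.mk.inj h
    refine ⟨h3, fun c hc => ?_⟩
    have h5 := congrFun h4 c
    simp only [h3, hc, if_true] at h5
    exact Option.some.inj h5
  have hk2 : ∀ f f', Zf f' = Zf f → (∀ c ∈ Zf f, f' c = f c) → key f' = key f := by
    intro f f' h h'
    rw [hkey]
    apply Prod.ext
    · exact h
    · funext c
      show (if c ∈ Zf f' then some (f' c) else none) = (if c ∈ Zf f then some (f c) else none)
      rw [h]
      by_cases hc : c ∈ Zf f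
      · rw [if_pos hc, if_pos hc, h' c hc]
      · rw [if_neg hc, if_neg hc]
  -- abbreviations
  have hKW : K.card ≤ Fintype.card W := Finset.card_le_univ K
  have hRW : R.card ≤ Fintype.card W - K.card := by
    rw [← Finset.card_compl]
    apply Finset.card_le_card
    intro w hw
    rw [Finset.mem_compl]
    exact fun hK => (Finset.disjoint_left.1 hRK) hw hK
  obtain ⟨x, hx⟩ : ∃ x, x = Fintype.card W - K.card := ⟨_, rfl⟩
  obtain ⟨ρ, hρ⟩ : ∃ ρ, ρ = R.card - r := ⟨_, rfl⟩
  have hcx : ((Fintype.card W : ℝ) - K.card) = (x : ℝ) := by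
    rw [hx, Nat.cast_sub hKW]
  have hcρ : ((R.card : ℝ) - r) = (ρ : ℝ) := by
    rw [hρ, Nat.cast_sub hr.le]
  rw [hcx, hcρ]
  -- main counting
  have hmain : ∀ b ∈ S.image key, (SR.filter fun f => key f = b).card * (OmG f0 X K ∅).card *
      ρ ^ r ≤ (OmG f0 X K R).card * (S.filter fun f => key f = b).card * x ^ r := by
    intro b hb
    obtain ⟨f, hfS, hfb⟩ := Finset.mem_image.1 hb
    obtain ⟨hfO, hfE⟩ := (hmS f).1 hfS
    obtain ⟨hz, hZX⟩ := h1 f hfO hfE
    -- (i)
    have i1 : (SR.filter fun f => key f = b).card * R.card.descFactorial (Zf f).card ≤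
        (OmG f0 X K R).card := by
      refine le_trans (Nat.mul_le_mul_right _ ?_) (prescribe_upper f0 f X (Zf f) K R hZX)
      rw [← Set.ncard_coe_finset]
      apply Set.ncard_le_ncard _ (Set.toFinite _)
      intro f' hf'
      rw [Finset.mem_coe, Finset.mem_filter, hmSR] at hf'
      obtain ⟨⟨h3, h4⟩, h5⟩ := hf'
      rw [← hfb] at h5
      exact ⟨h3, (hk1 f f' h5).2⟩
    have i2 : ρ ^ (Zf f).card ≤ R.card.descFactorial (Zf f).card := by
      refine le_trans (Nat.pow_le_pow_left ?_ _) (Nat.pow_sub_le_descFactorial _ _)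
      omega
    -- (ii)
    have i3 : (OmG f0 X K ∅).card = (S.filter fun f => key f = b).card * x ^ (Zf f).card := by
      have h3 : (S.filter fun f => key f = b) = OmG f (X ∪ Zf f) K ∅ := by
        ext f'
        rw [Finset.mem_filter, hmS, ← hfb, b3_mem0, b3_mem0]
        rw [b3_mem0] at hfO
        constructor
        · rintro ⟨⟨⟨h4, h5⟩, h6⟩, h7⟩
          refine ⟨fun c hc => ?_, fun c hc => ?_⟩
          · rcases Finset.mem_union.1 hc with hc | hc
            · rw [h4 c hc, hfO.1 c hc]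
            · exact (hk1 f f' h7).2 c hc
          · exact h5 c fun hcX => hc (Finset.mem_union_left _ hcX)
        · rintro ⟨h4, h5⟩
          have h6 : f' ∈ OmG f0 X K ∅ := by
            rw [b3_mem0]
            refine ⟨fun c hc => ?_, fun c hc => ?_⟩
            · rw [h4 c (Finset.mem_union_left _ hc), hfO.1 c hc]
            · by_cases hcZ : c ∈ Zf f
              · rw [h4 c (Finset.mem_union_right _ hcZ)]
                exact hfO.2 c hc
              · exact h5 c fun h7 => (Finset.mem_union.1 h7).elim hc hcZ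
          have h7 := h2 f (b3_mem0.2 hfO) hfE f' h6 fun c hc =>
            h4 c (Finset.mem_union_right _ hc)
          exact ⟨⟨b3_mem0.1 h6, h7.1⟩, hk2 f f' h7.2 fun c hc =>
            h4 c (Finset.mem_union_right _ hc)⟩
      have h4 : (X ∪ Zf f).card = X.card + (Zf f).card :=
        Finset.card_union_of_disjoint hZX.symm
      have h5 : X.card + (Zf f).card ≤ Fintype.card C := by
        rw [← h4]
        exact Finset.card_le_univ _
      rw [h3, b3_card, b3_card, ← hx, h4, ← pow_add]
      congr 1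
      omega
    have i4 : ρ ^ (r - (Zf f).card) ≤ x ^ (r - (Zf f).card) := by
      apply Nat.pow_le_pow_left
      omega
    have i5 : ρ ^ r = ρ ^ (Zf f).card * ρ ^ (r - (Zf f).card) := by
      rw [← pow_add]
      congr 1
      omega
    have i6 : x ^ r = x ^ (Zf f).card * x ^ (r - (Zf f).card) := by
      rw [← pow_add]
      congr 1
      omega
    calc (SR.filter fun f => key f = b).card * (OmG f0 X K ∅).card * ρ ^ r
        = ((SR.filter fun f => key f = b).card * ρ ^ (Zf f).card) *
            ((S.filter fun f => key f = b).card * x ^ (Zf f).card) * ρ ^ (r - (Zf f).card) := by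
          rw [i5, i3]
          ring
      _ ≤ (OmG f0 X K R).card *
            ((S.filter fun f => key f = b).card * x ^ (Zf f).card) * x ^ (r - (Zf f).card) := by
          apply Nat.mul_le_mul _ i4
          apply Nat.mul_le_mul_right
          exact (Nat.mul_le_mul_left _ i2).trans i1
      _ = (OmG f0 X K R).card * (S.filter fun f => key f = b).card * x ^ r := by
          rw [i6]
          ring
  have hcS : S.card = ∑ b ∈ S.image key, (S.filter fun f => key f = b).card :=
    Finset.card_eq_sum_card_fiberwise fun f hf => Finset.mem_image_of_mem key hf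
  have hcSR : SR.card = ∑ b ∈ S.image key, (SR.filter fun f => key f = b).card := by
    apply Finset.card_eq_sum_card_fiberwise
    intro f hf
    have h3 := (hmSR f).1 hf
    exact Finset.mem_image_of_mem key ((hmS f).2 ⟨b3_sub h3.1, h3.2⟩)
  have hfin : SR.card * (OmG f0 X K ∅).card * ρ ^ r ≤ (OmG f0 X K R).card * S.card * x ^ r := by
    rw [hcS, hcSR, Finset.sum_mul, Finset.sum_mul, Finset.mul_sum, Finset.sum_mul]
    exact Finset.sum_le_sum hmain
  exact_mod_cast hfin

private theorem b3_uncurry {V : Type} [Fintype V] {k : ℕ} (T0 : V → Fin k → V)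
    (X : Finset (V × Fin k)) (K R : Finset V) (T : V → Fin k → V) :
    T ∈ Om T0 X K R ↔ Function.uncurry T ∈ OmG (Function.uncurry T0) X K R := by
  rw [b3_mem]
  unfold Om
  classical
  simp only [Finset.mem_filter, Finset.mem_univ, true_and]
  exact Iff.rfl

private theorem b3_ncard {V : Type} [Fintype V] {k : ℕ} (T0 : V → Fin k → V)
    (X : Finset (V × Fin k)) (K R : Finset V) (E : Set (V → Fin k → V)) :
    Set.ncard {T | T ∈ Om T0 X K R ∧ T ∈ E} =
      Set.ncard {f | f ∈ OmG (Function.uncurry T0) X K R ∧ f ∈ Function.curry ⁻¹' E} := by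
  have hinj : Function.Injective (Function.uncurry : (V → Fin k → V) → (V × Fin k → V)) := by
    intro f g h
    rw [← Function.curry_uncurry f, ← Function.curry_uncurry g, h]
  rw [← Set.ncard_image_of_injective _ hinj]
  congr 1
  ext f
  constructor
  · rintro ⟨T, ⟨h1, h2⟩, rfl⟩
    refine ⟨(b3_uncurry T0 X K R T).1 h1, ?_⟩
    show Function.curry (Function.uncurry T) ∈ E
    rw [Function.curry_uncurry]
    exact h2
  · rintro ⟨h1, h2⟩
    refine ⟨Function.curry f, ⟨?_, h2⟩, Function.uncurry_curry f⟩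
    rw [b3_uncurry, Function.uncurry_curry]
    exact h1

private theorem b3_cardeq {V : Type} [Fintype V] {k : ℕ} (T0 : V → Fin k → V)
    (X : Finset (V × Fin k)) (K R : Finset V) :
    (Om T0 X K R).card = (OmG (Function.uncurry T0) X K R).card := by
  have h := b3_ncard T0 X K R Set.univ
  have h1 : {T | T ∈ Om T0 X K R ∧ T ∈ (Set.univ : Set (V → Fin k → V))} =
      ((Om T0 X K R : Finset (V → Fin k → V)) : Set (V → Fin k → V)) := by
    ext T
    exact ⟨fun h => h.1, fun h => ⟨h, Set.mem_univ _⟩⟩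
  have h2 : {f | f ∈ OmG (Function.uncurry T0) X K R ∧
      f ∈ Function.curry ⁻¹' (Set.univ : Set (V → Fin k → V))} =
      ((OmG (Function.uncurry T0) X K R : Finset (V × Fin k → V)) : Set (V × Fin k → V)) := by
    ext T
    exact ⟨fun h => h.1, fun h => ⟨h, Set.mem_univ _⟩⟩
  rw [h1, h2, Set.ncard_coe_finset, Set.ncard_coe_finset] at h
  exact h

theorem cert {V : Type} [Fintype V] [DecidableEq V] {k : ℕ}
    (T0 : V → Fin k → V) (X : Finset (V × Fin k)) (K R : Finset V) (hRK : Disjoint R K)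
    (r : ℕ) (hr : r < R.card)
    (E : Set (V → Fin k → V)) (Zf : (V → Fin k → V) → Finset (V × Fin k))
    (h1 : ∀ T ∈ Om T0 X K ∅, T ∈ E → (Zf T).card ≤ r ∧ Disjoint (Zf T) X)
    (h2 : ∀ T ∈ Om T0 X K ∅, T ∈ E → ∀ T' ∈ Om T0 X K ∅,
      (∀ c ∈ Zf T, T' c.1 c.2 = T c.1 c.2) → T' ∈ E ∧ Zf T' = Zf T) :
    (Set.ncard {T | T ∈ Om T0 X K R ∧ T ∈ E} : ℝ) * (Om T0 X K ∅).card *
        ((R.card : ℝ) - r) ^ r
      ≤ (Om T0 X K R).card * Set.ncard {T | T ∈ Om T0 X K ∅ ∧ T ∈ E} *
        ((Fintype.card V : ℝ) - K.card) ^ r := by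
  rw [b3_ncard, b3_ncard, b3_cardeq, b3_cardeq]
  have hcur : ∀ f : V × Fin k → V, f ∈ OmG (Function.uncurry T0) X K ∅ →
      Function.curry f ∈ Om T0 X K ∅ := by
    intro f hf
    rw [b3_uncurry, Function.uncurry_curry]
    exact hf
  apply certG (Function.uncurry T0) X K R hRK r hr (Function.curry ⁻¹' E)
    (fun f => Zf (Function.curry f))
  · intro f hf hfE
    exact h1 (Function.curry f) (hcur f hf) hfE
  · intro f hf hfE f' hf' hff'
    exact h2 (Function.curry f) (hcur f hf) hfE (Function.curry f') (hcur f' hf')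
      (fun c hc => hff' c hc)

theorem card_Om_empty {V : Type} [Fintype V] {k : ℕ} (T0 : V → Fin k → V)
    (X : Finset (V × Fin k)) (K : Finset V) :
    (Om T0 X K ∅).card = (Fintype.card V - K.card) ^ (Fintype.card V * k - X.card) := by
  rw [b3_cardeq, b3_card, Fintype.card_prod, Fintype.card_fin]

theorem Om_subset {V : Type} [Fintype V] {k : ℕ} (T0 : V → Fin k → V)
    (X : Finset (V × Fin k)) (K R : Finset V) : Om T0 X K R ⊆ Om T0 X K ∅ := by
  intro T hT
  rw [b3_uncurry] at hT ⊢
  exact b3_sub hT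
end AS

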