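import Pool.Agent.Helper949.ASX.Defs2

set_option autoImplicit false

namespace RA
variable {V : Type} {k : ℕ}
end RA

namespace SI
variable {V : Type} {k : ℕ}
end SI

namespace AS
open Finset

end AS

namespace AS
open Finset SI
end AS

namespace AS
open Finset SI
variable {V : Type} [Fintype V] [DecidableEq V] {k : ℕ}
/-! TARGETS -/
/-- reading a finite word -/
private def rn {V : Type} {k : ℕ} (T : V → Fin k → V) (q : V) (w : List (Fin k)) : V := w.foldl T q

/-- the walk of the word `w` from `q` avoids the cells in `D` -/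
private def Av {V : Type} {k : ℕ} (T : V → Fin k → V) (D : Set (V × Fin k)) (q : V)
    (w : List (Fin k)) : Prop :=
  ∀ u a u', w = u ++ a :: u' → (rn T q u, a) ∉ D

/-- the first letters -/
private def pre {k : ℕ} (v : ℕ → Fin k) (j : ℕ) : List (Fin k) := (List.range j).map v

section words
variable {V : Type} {k : ℕ}

private theorem pre_length (v : ℕ → Fin k) (j : ℕ) : (pre v j).length = j := by simp [pre]

private theorem pre_succ (v : ℕ → Fin k) (j : ℕ) : pre v (j + 1) = pre v j ++ [v j] := by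
  simp [pre, List.range_succ]

private theorem pre_inj {v v' : ℕ → Fin k} {j j' : ℕ} (h : pre v j = pre v' j') :
    j = j' ∧ ∀ i, i < j → v i = v' i := by
  have h1 : j = j' := by
    have := congrArg List.length h
    rwa [pre_length, pre_length] at this
  subst h1
  refine ⟨rfl, fun i hi => ?_⟩
  unfold pre at h
  exact (List.map_inj_left.mp h) i (List.mem_range.mpr hi)

private theorem rn_append (T : V → Fin k → V) (q : V) (w w' : List (Fin k)) :
    rn T q (w ++ w') = rn T (rn T q w) w' := by simp [rn]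

private theorem rn_snoc (T : V → Fin k → V) (q : V) (w : List (Fin k)) (a : Fin k) :
    rn T q (w ++ [a]) = T (rn T q w) a := by simp [rn]

private theorem rn_pre (T : V → Fin k → V) (q : V) (v : ℕ → Fin k) (j : ℕ) :
    rn T q (pre v j) = traj T q v j := by
  induction j with
  | zero => simp [pre, rn, traj]
  | succ j ih => rw [pre_succ, rn_snoc, ih]; rfl

private theorem Av_nil (T : V → Fin k → V) (D : Set (V × Fin k)) (q : V) : Av T D q [] := by
  intro u a u' h
  simp at h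

private theorem Av_snoc {T : V → Fin k → V} {D : Set (V × Fin k)} {q : V} {w : List (Fin k)}
    {a : Fin k} (h : Av T D q w) (h' : (rn T q w, a) ∉ D) : Av T D q (w ++ [a]) := by
  intro u b u' he
  rcases u'.eq_nil_or_concat with rfl | ⟨u'', c, rfl⟩
  · obtain ⟨h1, h2⟩ := List.append_inj' he rfl
    rw [← h1]
    have h3 : a = b := by simpa using h2
    rw [← h3]
    exact h'
  · have h1 : w ++ [a] = (u ++ b :: u'') ++ [c] := by rw [he]; simp
    obtain ⟨h2, -⟩ := List.append_inj' h1 rfl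
    exact h u b u'' h2

private theorem Av_pre {T : V → Fin k → V} {D : Set (V × Fin k)} {q : V} {v : ℕ → Fin k} {m : ℕ}
    (h : ∀ i < m, (traj T q v i, v i) ∉ D) : Av T D q (pre v m) := by
  induction m with
  | zero => simpa [pre] using Av_nil T D q
  | succ m ih =>
    rw [pre_succ]
    apply Av_snoc (ih fun i hi => h i (by omega))
    rw [rn_pre]
    exact h m (by omega)

private theorem Av_prefix {T : V → Fin k → V} {D : Set (V × Fin k)} {q : V} {w w' : List (Fin k)}
    (h : Av T D q (w ++ w')) : Av T D q w := by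
  intro u a u' he
  exact h u a (u' ++ w') (by rw [he]; simp)

private theorem Av_mono {T : V → Fin k → V} {D D' : Set (V × Fin k)} {q : V} {w : List (Fin k)}
    (hD : D' ⊆ D) (h : Av T D q w) : Av T D' q w := fun u a u' he hh => h u a u' he (hD hh)

private theorem rn_congr {T T' : V → Fin k → V} {D : Set (V × Fin k)}
    (hT : ∀ c : V × Fin k, c ∉ D → T' c.1 c.2 = T c.1 c.2) (w : List (Fin k)) :
    ∀ q, Av T D q w → rn T' q w = rn T q w := by
  induction w with
  | nil => intro q _; rfl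
  | cons a w ih =>
    intro q h
    have h1 : (q, a) ∉ D := h [] a w rfl
    have h2 := hT _ h1
    have h3 : Av T D (T q a) w := by
      intro u b u' he
      exact h (a :: u) b u' (by rw [he]; rfl)
    show rn T' (T' q a) w = rn T (T q a) w
    rw [show T' q a = T q a from h2]
    exact ih _ h3

/-- Lemma A -/
private theorem lemA (T : V → Fin k → V) (D : Set (V × Fin k)) (r : V) (ρ : ℕ)
    (h : ∃ α β : List (Fin k), α ≠ β ∧ α.length ≤ ρ ∧ β.length ≤ ρ ∧ Av T D r α ∧ Av T D r β ∧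
      rn T r α = rn T r β) :
    ∃ d : V × Fin k, d ∉ D ∧ ∃ γ δ : List (Fin k), γ.length ≤ ρ ∧ δ.length ≤ ρ ∧
      Av T (D ∪ {d}) r γ ∧ Av T (D ∪ {d}) r δ ∧ rn T r γ = d.1 ∧ rn T r δ = T d.1 d.2 := by
  classical
  -- minimal length of the longer word
  have hex : ∃ n, ∃ w w' : List (Fin k), w.length = n ∧ w ≠ w' ∧ w'.length ≤ w.length ∧
      w.length ≤ ρ ∧ Av T D r w ∧ Av T D r w' ∧ rn T r w = rn T r w' := by
    obtain ⟨α, β, hne, hα, hβ, h1, h2, h3⟩ := h
    rcases le_total β.length α.length with hl | hl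
    · exact ⟨α.length, α, β, rfl, hne, hl, hα, h1, h2, h3⟩
    · exact ⟨β.length, β, α, rfl, hne.symm, hl, hβ, h2, h1, h3.symm⟩
  obtain ⟨w, w', hwn, hne, hle, hwρ, hw, hw', hr⟩ := Nat.find_spec hex
  have hmin := fun m (hm : m < Nat.find hex) => Nat.find_min hex hm
  -- words shorter than w are separated
  have hinj : ∀ u u' : List (Fin k), Av T D r u → Av T D r u' → u.length < w.length →
      u'.length < w.length → rn T r u = rn T r u' → u = u' := by
    intro u u' hu hu' hlu hlu' hrr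
    by_contra hc
    rcases le_total u'.length u.length with hl | hl
    · exact hmin u.length (by omega) ⟨u, u', rfl, hc, hl, by omega, hu, hu', hrr⟩
    · exact hmin u'.length (by omega)
        ⟨u', u, rfl, fun hh => hc hh.symm, hl, by omega, hu', hu, hrr.symm⟩
  rcases w.eq_nil_or_concat' with rfl | ⟨γ, a, rfl⟩
  · exfalso
    apply hne
    have : w'.length = 0 := by simpa using hle
    exact (List.length_eq_zero_iff.mp this).symm
  have hγl : γ.length < (γ ++ [a]).length := by simp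
  have hγ : Av T D r γ := Av_prefix hw
  refine ⟨(rn T r γ, a), hw γ a [] rfl, γ, w', by omega, by omega, ?_, ?_, rfl, ?_⟩
  · intro u b u' he
    rintro (hD | hD)
    · exact hγ u b u' he hD
    · have h1 : (rn T r u, b) = (rn T r γ, a) := hD
      have h2 : rn T r u = rn T r γ := congrArg Prod.fst h1
      have hlu : u.length < γ.length := by rw [he]; simp
      have hu : Av T D r u := Av_prefix (w' := b :: u') (by rw [← he]; exact hγ)
      have h3 := hinj u γ hu hγ (by omega) hγl h2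
      rw [h3] at hlu
      exact lt_irrefl _ hlu
  · intro u b u' he
    rintro (hD | hD)
    · exact hw' u b u' he hD
    · have h1 : (rn T r u, b) = (rn T r γ, a) := hD
      have h2 : rn T r u = rn T r γ := congrArg Prod.fst h1
      have h2' : b = a := congrArg Prod.snd h1
      have hlu : u.length + 1 ≤ w'.length := by rw [he]; simp
      have hu : Av T D r u := Av_prefix (w' := b :: u') (by rw [← he]; exact hw')
      have h3 := hinj u γ hu hγ (by omega) hγl h2
      have hlen : w'.length = γ.length + 1 + u'.length := by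
        rw [he, h3]; simp; omega
      have hlen2 : (γ ++ [a]).length = γ.length + 1 := by simp
      have h4 : u' = [] := List.length_eq_zero_iff.mp (by omega)
      apply hne
      rw [he, h3, h2', h4]
  · show rn T r w' = T (rn T r γ) a
    rw [← hr, rn_snoc]

/-- finite codes for words of length at most `ρ` -/
private abbrev Wd (k ρ : ℕ) := Fin (ρ + 1) × (Fin ρ → Fin k)

private def dec {k ρ : ℕ} (c : Wd k ρ) : List (Fin k) := (List.ofFn c.2).take c.1

private theorem dec_surj (hk : 0 < k) {ρ : ℕ} (l : List (Fin k)) (hl : l.length ≤ ρ) :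
    ∃ c : Wd k ρ, dec c = l := by
  refine ⟨(⟨l.length, by omega⟩, fun i => if h : (i : ℕ) < l.length then l[(i : ℕ)] else
    ⟨0, hk⟩), ?_⟩
  unfold dec
  apply List.ext_getElem
  · simp; omega
  · intro i h1 h2
    simp [h2]

private theorem card_Wd (hk : 2 ≤ k) (ρ : ℕ) : Fintype.card (Wd k ρ) ≤ k ^ (2 * ρ) := by
  rw [Fintype.card_prod, Fintype.card_fin, Fintype.card_fun, Fintype.card_fin, Fintype.card_fin,
    two_mul, pow_add]
  exact Nat.mul_le_mul_right _ (Nat.lt_pow_self (by omega))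

end words

section codes
variable {V : Type} [Fintype V] [DecidableEq V] {k : ℕ}

/-- redirect one cell -/
private def upd (T : V → Fin k → V) (c : V × Fin k) (y : V) : V → Fin k → V :=
  fun s a => if (s, a) = c then y else T s a

omit [Fintype V] in
private theorem upd_self (T : V → Fin k → V) (c : V × Fin k) (y : V) : upd T c y c.1 c.2 = y := by
  simp [upd]

omit [Fintype V] in
private theorem upd_ne (T : V → Fin k → V) {c c' : V × Fin k} (y : V) (h : c' ≠ c) :
    upd T c y c'.1 c'.2 = T c'.1 c'.2 := by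
  unfold upd
  rw [if_neg h]

/-- one recoverable cell -/
private structure G1 {ρ : ℕ} (p : V) (T : V → Fin k → V) (d : V × Fin k)
    (c : Wd k ρ × Fin k × Wd k ρ) : Prop where
  a1 : Av T {d} p (dec c.1)
  a2 : rn T p (dec c.1) = d.1
  a3 : c.2.1 = d.2
  a4 : Av T {d} p (dec c.2.2)
  a5 : rn T p (dec c.2.2) = T d.1 d.2

omit [Fintype V] in
private theorem G1_inj {ρ : ℕ} {p : V} {T1 T2 : V → Fin k → V} {d1 d2 : V × Fin k}
    {c : Wd k ρ × Fin k × Wd k ρ} (h1 : G1 p T1 d1 c) (h2 : G1 p T2 d2 c) {y1 y2 : V}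
    (he : upd T1 d1 y1 = upd T2 d2 y2) : T1 = T2 ∧ y1 = y2 := by
  have c1 : ∀ c' : V × Fin k, c' ∉ ({d1} : Set (V × Fin k)) →
      upd T1 d1 y1 c'.1 c'.2 = T1 c'.1 c'.2 := fun c' hc' => upd_ne T1 y1 hc'
  have c2 : ∀ c' : V × Fin k, c' ∉ ({d2} : Set (V × Fin k)) →
      upd T1 d1 y1 c'.1 c'.2 = T2 c'.1 c'.2 := fun c' hc' => by rw [he]; exact upd_ne T2 y2 hc'
  have e1 := rn_congr c1 _ _ h1.a1
  have e2 := rn_congr c2 _ _ h2.a1
  have hd : d1 = d2 := by
    apply Prod.ext
    · rw [← h1.a2, ← h2.a2, ← e1, ← e2]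
    · rw [← h1.a3, ← h2.a3]
  subst hd
  have e3 := rn_congr c1 _ _ h1.a4
  have e4 := rn_congr c2 _ _ h2.a4
  have hTd : T1 d1.1 d1.2 = T2 d1.1 d1.2 := by
    rw [← h1.a5, ← h2.a5, ← e3, ← e4]
  constructor
  · funext s a
    by_cases hc : (s, a) = d1
    · rw [← hc] at hTd; exact hTd
    · exact (c1 (s, a) hc).symm.trans (c2 (s, a) hc)
  · rw [← upd_self T1 d1 y1, he, upd_self]

/-- two recoverable cells -/
private structure G2 {ρ : ℕ} (p p' : V) (T : V → Fin k → V) (d e : V × Fin k)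
    (c : (Wd k ρ × Fin k × Wd k ρ) × Bool × (Wd k ρ × Fin k × Wd k ρ)) : Prop where
  ne : d ≠ e
  a1 : Av T {d, e} p' (dec c.1.1)
  a2 : rn T p' (dec c.1.1) = d.1
  a3 : c.1.2.1 = d.2
  a4 : Av T {d, e} (if c.2.1 then p else p') (dec c.1.2.2)
  a5 : rn T (if c.2.1 then p else p') (dec c.1.2.2) = T d.1 d.2
  b1 : Av T {e} p' (dec c.2.2.1)
  b2 : rn T p' (dec c.2.2.1) = e.1
  b3 : c.2.2.2.1 = e.2
  b4 : Av T {e} p (dec c.2.2.2.2)
  b5 : rn T p (dec c.2.2.2.2) = T e.1 e.2

omit [Fintype V] in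
private theorem upd2_off (T : V → Fin k → V) (d e : V × Fin k) (y z : V) (c' : V × Fin k)
    (h : c' ∉ ({d, e} : Set (V × Fin k))) : upd (upd T d y) e z c'.1 c'.2 = T c'.1 c'.2 := by
  have h1 : c' ≠ d := fun hh => h (Or.inl hh)
  have h2 : c' ≠ e := fun hh => h (Or.inr hh)
  rw [upd_ne _ z h2, upd_ne _ y h1]

omit [Fintype V] in
private theorem G2_inj {ρ : ℕ} {p p' : V} {T1 T2 : V → Fin k → V} {d1 d2 e1 e2 : V × Fin k}
    {c : (Wd k ρ × Fin k × Wd k ρ) × Bool × (Wd k ρ × Fin k × Wd k ρ)}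
    (h1 : G2 p p' T1 d1 e1 c) (h2 : G2 p p' T2 d2 e2 c) {y1 y2 z1 z2 : V}
    (he : upd (upd T1 d1 y1) e1 z1 = upd (upd T2 d2 y2) e2 z2) :
    T1 = T2 ∧ y1 = y2 ∧ z1 = z2 := by
  set U := upd (upd T1 d1 y1) e1 z1 with hU
  have c1 : ∀ c' : V × Fin k, c' ∉ ({d1, e1} : Set (V × Fin k)) →
      U c'.1 c'.2 = T1 c'.1 c'.2 := upd2_off T1 d1 e1 y1 z1
  have c2 : ∀ c' : V × Fin k, c' ∉ ({d2, e2} : Set (V × Fin k)) →
      U c'.1 c'.2 = T2 c'.1 c'.2 := by rw [he]; exact upd2_off T2 d2 e2 y2 z2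
  have f1 := rn_congr c1 _ _ h1.a1
  have f2 := rn_congr c2 _ _ h2.a1
  have hd : d1 = d2 := by
    apply Prod.ext
    · rw [← h1.a2, ← h2.a2, ← f1, ← f2]
    · rw [← h1.a3, ← h2.a3]
  subst hd
  have f3 := rn_congr c1 _ _ h1.a4
  have f4 := rn_congr c2 _ _ h2.a4
  have hTd : T1 d1.1 d1.2 = T2 d1.1 d1.2 := by
    rw [← h1.a5, ← h2.a5, ← f3, ← f4]
  -- restore d
  have g1 : ∀ c' : V × Fin k, c' ∉ ({e1} : Set (V × Fin k)) →
      upd U d1 (T1 d1.1 d1.2) c'.1 c'.2 = T1 c'.1 c'.2 := by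
    intro c' hc'
    by_cases hc : c' = d1
    · rw [hc, upd_self]
    · rw [upd_ne _ _ hc]
      exact c1 c' (by rintro (h | h); exacts [hc h, hc' h])
  have g2 : ∀ c' : V × Fin k, c' ∉ ({e2} : Set (V × Fin k)) →
      upd U d1 (T1 d1.1 d1.2) c'.1 c'.2 = T2 c'.1 c'.2 := by
    intro c' hc'
    by_cases hc : c' = d1
    · rw [hc, upd_self, hTd]
    · rw [upd_ne _ _ hc]
      exact c2 c' (by rintro (h | h); exacts [hc h, hc' h])
  have f5 := rn_congr g1 _ _ h1.b1
  have f6 := rn_congr g2 _ _ h2.b1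
  have hee : e1 = e2 := by
    apply Prod.ext
    · rw [← h1.b2, ← h2.b2, ← f5, ← f6]
    · rw [← h1.b3, ← h2.b3]
  subst hee
  have f7 := rn_congr g1 _ _ h1.b4
  have f8 := rn_congr g2 _ _ h2.b4
  have hTe : T1 e1.1 e1.2 = T2 e1.1 e1.2 := by
    rw [← h1.b5, ← h2.b5, ← f7, ← f8]
  refine ⟨?_, ?_, ?_⟩
  · funext s a
    by_cases hc : (s, a) = d1
    · rw [← hc] at hTd; exact hTd
    · by_cases hc' : (s, a) = e1
      · rw [← hc'] at hTe; exact hTe
      · have hn : (s, a) ∉ ({d1, e1} : Set (V × Fin k)) := by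
          rintro (h | h); exacts [hc h, hc' h]
        exact (c1 (s, a) hn).symm.trans (c2 (s, a) hn)
  · have i1 : U d1.1 d1.2 = y1 := by
      rw [hU, upd_ne _ z1 h1.ne, upd_self]
    have i2 : U d1.1 d1.2 = y2 := by
      rw [he, upd_ne _ z2 h2.ne, upd_self]
    rw [← i1, i2]
  · have i1 : U e1.1 e1.2 = z1 := by rw [hU, upd_self]
    have i2 : U e1.1 e1.2 = z2 := by rw [he, upd_self]
    rw [← i1, i2]

private theorem card_code {k : ℕ} {W : Type} [Fintype W] :
    Fintype.card (W × Fin k × W) = Fintype.card W * (k * Fintype.card W) := by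
  rw [Fintype.card_prod, Fintype.card_prod, Fintype.card_fin]

private theorem card_code2 {W : Type} [Fintype W] :
    Fintype.card (W × Bool × W) = Fintype.card W * (2 * Fintype.card W) := by
  rw [Fintype.card_prod, Fintype.card_prod, Fintype.card_bool]

private theorem count1 {ρ : ℕ} (hk : 2 ≤ k) (p : V) (S : Set (V → Fin k → V))
    (h : ∀ T ∈ S, ∃ (d : V × Fin k) (c : Wd k ρ × Fin k × Wd k ρ), G1 p T d c) :
    S.ncard * Fintype.card V ≤ (k ^ (ρ + 1)) ^ 4 * Fintype.card (V → Fin k → V) := by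
  choose D C hDC using h
  let Φ : S × V → (Wd k ρ × Fin k × Wd k ρ) × (V → Fin k → V) := fun x =>
    (C x.1.1 x.1.2, upd x.1.1 (D x.1.1 x.1.2) x.2)
  have hΦ : Function.Injective Φ := by
    rintro ⟨⟨T1, hT1⟩, y1⟩ ⟨⟨T2, hT2⟩, y2⟩ hh
    have h1 : C T1 hT1 = C T2 hT2 := congrArg Prod.fst hh
    have h2 : upd T1 (D T1 hT1) y1 = upd T2 (D T2 hT2) y2 := congrArg Prod.snd hh
    have g1 := hDC T1 hT1
    have g2 := hDC T2 hT2
    rw [← h1] at g2
    obtain ⟨e1, e2⟩ := G1_inj g1 g2 h2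
    subst e1 e2
    rfl
  have hcard := Nat.card_le_card_of_injective Φ hΦ
  rw [Nat.card_prod, Nat.card_prod, Nat.card_coe_set_eq, Nat.card_eq_fintype_card (α := V),
    Nat.card_eq_fintype_card (α := V → Fin k → V), Nat.card_eq_fintype_card] at hcard
  refine hcard.trans (Nat.mul_le_mul_right _ ?_)
  rw [card_code]
  have hW := card_Wd hk ρ
  calc Fintype.card (Wd k ρ) * (k * Fintype.card (Wd k ρ))
      ≤ k ^ (2 * ρ) * (k * k ^ (2 * ρ)) :=
        Nat.mul_le_mul hW (Nat.mul_le_mul_left _ hW)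
    _ = k ^ (4 * ρ + 1) := by ring
    _ ≤ k ^ ((ρ + 1) * 4) := Nat.pow_le_pow_right (by omega) (by omega)
    _ = (k ^ (ρ + 1)) ^ 4 := by rw [pow_mul]

private theorem count2 {ρ : ℕ} (hk : 2 ≤ k) (p p' : V) (S : Set (V → Fin k → V))
    (h : ∀ T ∈ S, ∃ (d e : V × Fin k)
      (c : (Wd k ρ × Fin k × Wd k ρ) × Bool × (Wd k ρ × Fin k × Wd k ρ)), G2 p p' T d e c) :
    S.ncard * (Fintype.card V) ^ 2 ≤ (k ^ (ρ + 1)) ^ 12 * Fintype.card (V → Fin k → V) := by
  choose D E C hDC using h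
  let Φ : S × V × V → ((Wd k ρ × Fin k × Wd k ρ) × Bool × (Wd k ρ × Fin k × Wd k ρ)) ×
      (V → Fin k → V) := fun x =>
    (C x.1.1 x.1.2, upd (upd x.1.1 (D x.1.1 x.1.2) x.2.1) (E x.1.1 x.1.2) x.2.2)
  have hΦ : Function.Injective Φ := by
    rintro ⟨⟨T1, hT1⟩, y1, z1⟩ ⟨⟨T2, hT2⟩, y2, z2⟩ hh
    have h1 : C T1 hT1 = C T2 hT2 := congrArg Prod.fst hh
    have h2 : upd (upd T1 (D T1 hT1) y1) (E T1 hT1) z1 =
        upd (upd T2 (D T2 hT2) y2) (E T2 hT2) z2 :=
      congrArg Prod.snd hh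
    have g1 := hDC T1 hT1
    have g2 := hDC T2 hT2
    rw [← h1] at g2
    obtain ⟨e1, e2, e3⟩ := G2_inj g1 g2 h2
    subst e1 e2 e3
    rfl
  have hcard := Nat.card_le_card_of_injective Φ hΦ
  rw [Nat.card_prod, Nat.card_prod, Nat.card_prod, Nat.card_coe_set_eq,
    Nat.card_eq_fintype_card (α := V),
    Nat.card_eq_fintype_card (α := V → Fin k → V), Nat.card_eq_fintype_card] at hcard
  rw [sq]
  refine hcard.trans (Nat.mul_le_mul_right _ ?_)
  rw [card_code2, card_code]
  have hW := card_Wd hk ρ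
  have h3 : Fintype.card (Wd k ρ) * (k * Fintype.card (Wd k ρ)) ≤ k ^ (4 * ρ + 1) := by
    calc Fintype.card (Wd k ρ) * (k * Fintype.card (Wd k ρ))
      ≤ k ^ (2 * ρ) * (k * k ^ (2 * ρ)) :=
        Nat.mul_le_mul hW (Nat.mul_le_mul_left _ hW)
    _ = k ^ (4 * ρ + 1) := by ring
  calc Fintype.card (Wd k ρ) * (k * Fintype.card (Wd k ρ)) *
        (2 * (Fintype.card (Wd k ρ) * (k * Fintype.card (Wd k ρ))))
      ≤ k ^ (4 * ρ + 1) * (k * k ^ (4 * ρ + 1)) :=
        Nat.mul_le_mul h3 (Nat.mul_le_mul hk h3)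
    _ = k ^ (8 * ρ + 3) := by ring
    _ ≤ k ^ ((ρ + 1) * 12) := Nat.pow_le_pow_right (by omega) (by omega)
    _ = (k ^ (ρ + 1)) ^ 12 := by rw [pow_mul]

end codes

/-- last time at which the two trajectories differ -/
private theorem last_diff {V : Type} {k : ℕ} (T : V → Fin k → V) (p p' : V) (hp : p ≠ p')
    (v : ℕ → Fin k) (ρ : ℕ) (h : traj T p v ρ = traj T p' v ρ) :
    ∃ t, t < ρ ∧ traj T p v t ≠ traj T p' v t ∧ traj T p v (t + 1) = traj T p' v (t + 1) := by
  classical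
  have hex : ∃ n, traj T p v n = traj T p' v n := ⟨ρ, h⟩
  have hs := Nat.find_spec hex
  have hle : Nat.find hex ≤ ρ := Nat.find_min' hex h
  have h0 : Nat.find hex ≠ 0 := by
    intro h0
    rw [h0] at hs
    exact hp hs
  obtain ⟨t, ht⟩ := Nat.exists_eq_succ_of_ne_zero h0
  refine ⟨t, by omega, Nat.find_min hex (by omega), ?_⟩
  rw [ht] at hs
  exact hs

/-- first time at which a cell of `D` is used -/
private theorem first_use {V : Type} {k : ℕ} (T : V → Fin k → V) (q : V) (v : ℕ → Fin k)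
    (D : Set (V × Fin k)) (t : ℕ) (h : (traj T q v t, v t) ∈ D) :
    ∃ s, s ≤ t ∧ (traj T q v s, v s) ∈ D ∧ Av T D q (pre v s) := by
  classical
  have hex : ∃ s, (traj T q v s, v s) ∈ D := ⟨t, h⟩
  exact ⟨Nat.find hex, Nat.find_min' hex h, Nat.find_spec hex,
    Av_pre fun i hi => Nat.find_min hex hi⟩

theorem notTL_count (hk : 2 ≤ k) (p : V) (ρ : ℕ) :
    Set.ncard {T : V → Fin k → V | ¬ TL T p ρ} * Fintype.card V
      ≤ (k ^ (ρ + 1)) ^ 4 * Fintype.card (V → Fin k → V) := by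
  apply count1 hk p
  intro T hT
  have hT' : ¬ TL T p ρ := hT
  unfold TL at hT'
  push Not at hT'
  obtain ⟨v, v', j, j', hj, hj', he, hne⟩ := hT'
  have hne' : pre v j ≠ pre v' j' := by
    intro h
    obtain ⟨h1, h2⟩ := pre_inj h
    obtain ⟨i, hi, hi'⟩ := hne h1
    exact hi' (h2 i hi)
  obtain ⟨d, -, γ, δ, hγ, hδ, a1, a2, a3, a4⟩ := lemA T ∅ p ρ ⟨pre v j, pre v' j', hne',
    by rw [pre_length]; exact hj, by rw [pre_length]; exact hj', fun _ _ _ _ h => h,
    fun _ _ _ _ h => h, by rw [rn_pre, rn_pre]; exact he⟩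
  obtain ⟨c1, hc1⟩ := dec_surj (by omega) γ hγ
  obtain ⟨c2, hc2⟩ := dec_surj (by omega) δ hδ
  rw [Set.empty_union] at a1 a2
  refine ⟨d, (c1, d.2, c2), ?_, ?_, rfl, ?_, ?_⟩
  · rw [hc1]; exact a1
  · rw [hc1]; exact a3
  · rw [hc2]; exact a2
  · rw [hc2]; exact a4

theorem merge_count2 (hk : 2 ≤ k) (p p' : V) (hp : p ≠ p') (ρ : ℕ) (hρ : 1 ≤ ρ) :
    Set.ncard {T : V → Fin k → V | TL T p ρ ∧ Mg T p p' ρ} * (Fintype.card V) ^ 2
      ≤ (k ^ (ρ + 1)) ^ 12 * Fintype.card (V → Fin k → V) := by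
  apply count2 hk p p'
  rintro T ⟨hTL, v, v', hv0, hm, hm'⟩
  obtain ⟨t1, ht1, hd1, he1⟩ := last_diff T p p' hp v ρ hm
  obtain ⟨t2, ht2, hd2, he2⟩ := last_diff T p p' hp v' ρ hm'
  set c1 : V × Fin k := (traj T p' v t1, v t1) with hc1
  set c2 : V × Fin k := (traj T p' v' t2, v' t2) with hc2
  have hT1 : T c1.1 c1.2 = traj T p v (t1 + 1) := he1.symm
  have hT2 : T c2.1 c2.2 = traj T p v' (t2 + 1) := he2.symm
  have hy : ∀ s s', s ≤ t1 → s' ≤ t2 → traj T p v (s + 1) ≠ traj T p v' (s' + 1) := by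
    intro s s' hs hs' h
    obtain ⟨-, h2⟩ := hTL v v' (s + 1) (s' + 1) (by omega) (by omega) h
    exact hv0 (h2 0 (by omega))
  have hc12 : c1 ≠ c2 := by
    intro h
    apply hy t1 t2 le_rfl le_rfl
    rw [← hT1, ← hT2, h]
  -- walks of p avoid both cells
  have hA1 : Av T {c1, c2} p (pre v (t1 + 1)) := by
    apply Av_pre
    intro i hi
    rintro (h | h)
    · have h1 : traj T p v (i + 1) = traj T p v (t1 + 1) := by
        rw [← hT1, ← h]; rfl
      obtain ⟨h2, -⟩ := hTL v v (i + 1) (t1 + 1) (by omega) (by omega) h1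
      have h3 : i = t1 := by omega
      subst h3
      exact hd1 (congrArg Prod.fst h)
    · have h1 : traj T p v (i + 1) = traj T p v' (t2 + 1) := by
        have h' : (traj T p v i, v i) = c2 := h
        rw [← hT2, ← h']; rfl
      exact hy i t2 (by omega) le_rfl h1
  have hA2 : Av T {c1, c2} p (pre v' (t2 + 1)) := by
    apply Av_pre
    intro i hi
    rintro (h | h)
    · have h1 : traj T p v' (i + 1) = traj T p v (t1 + 1) := by
        rw [← hT1, ← h]; rfl
      exact hy t1 i le_rfl (by omega) h1.symm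
    · have h' : (traj T p v' i, v' i) = c2 := h
      have h1 : traj T p v' (i + 1) = traj T p v' (t2 + 1) := by
        rw [← hT2, ← h']; rfl
      obtain ⟨h2, -⟩ := hTL v' v' (i + 1) (t2 + 1) (by omega) (by omega) h1
      have h3 : i = t2 := by omega
      subst h3
      exact hd2 (congrArg Prod.fst h')
  obtain ⟨s1, hs1, hm1, hB1⟩ := first_use T p' v {c1, c2} t1 (Or.inl rfl)
  obtain ⟨s2, hs2, hm2, hB2⟩ := first_use T p' v' {c1, c2} t2 (Or.inr rfl)
  obtain ⟨w1, hw1⟩ := dec_surj (ρ := ρ) (by omega) (pre v (t1 + 1)) (by rw [pre_length]; omega)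
  obtain ⟨w2, hw2⟩ := dec_surj (ρ := ρ) (by omega) (pre v' (t2 + 1)) (by rw [pre_length]; omega)
  obtain ⟨x1, hx1⟩ := dec_surj (ρ := ρ) (by omega) (pre v s1) (by rw [pre_length]; omega)
  obtain ⟨x2, hx2⟩ := dec_surj (ρ := ρ) (by omega) (pre v' s2) (by rw [pre_length]; omega)
  have hsub1 : ({c1} : Set (V × Fin k)) ⊆ {c1, c2} := fun z hz => Or.inl hz
  have hsub2 : ({c2} : Set (V × Fin k)) ⊆ {c1, c2} := fun z hz => Or.inr hz
  by_cases hef : (traj T p' v s1, v s1) = (traj T p' v' s2, v' s2)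
  · -- the same cell e
    have hne : pre v s1 ≠ pre v' s2 := by
      intro h
      obtain ⟨h1, h2⟩ := pre_inj h
      rcases Nat.eq_zero_or_pos s1 with h0 | h0
      · apply hv0
        have h3 := congrArg Prod.snd hef
        rw [← h1, h0] at h3
        exact h3
      · exact hv0 (h2 0 h0)
    obtain ⟨d, hdD, γ, δ, hγ, hδ, a1, a2, a3, a4⟩ := lemA T {c1, c2} p' ρ ⟨pre v s1, pre v' s2,
      hne, by rw [pre_length]; omega, by rw [pre_length]; omega, hB1, hB2,
      by rw [rn_pre, rn_pre]; exact congrArg Prod.fst hef⟩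
    obtain ⟨z1, hz1⟩ := dec_surj (ρ := ρ) (by omega) γ hγ
    obtain ⟨z2, hz2⟩ := dec_surj (ρ := ρ) (by omega) δ hδ
    -- the cell e is c1 or c2
    obtain ⟨e, w, heD, hes, hAe, hTe⟩ : ∃ (e : V × Fin k) (w : Wd k ρ),
        e ∈ ({c1, c2} : Set (V × Fin k)) ∧ (traj T p' v s1, v s1) = e ∧
        Av T {c1, c2} p (dec w) ∧ rn T p (dec w) = T e.1 e.2 := by
      rcases hm1 with h | h
      · refine ⟨c1, w1, Or.inl rfl, h, by rw [hw1]; exact hA1, ?_⟩
        rw [hw1, rn_pre, hT1]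
      · refine ⟨c2, w2, Or.inr rfl, h, by rw [hw2]; exact hA2, ?_⟩
        rw [hw2, rn_pre, hT2]
    have hsube : ({e} : Set (V × Fin k)) ⊆ {c1, c2} := by
      intro z hz
      have : z = e := hz
      rw [this]; exact heD
    have hsubde : ({d, e} : Set (V × Fin k)) ⊆ {c1, c2} ∪ {d} := by
      rintro z (hz | hz)
      · exact Or.inr hz
      · have : z = e := hz
        rw [this]; exact Or.inl heD
    refine ⟨d, e, ((z1, d.2, z2), false, (x1, e.2, w)), ?_, ?_, ?_, rfl, ?_, ?_, ?_, ?_, rfl,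
      ?_, ?_⟩
    · intro h
      rw [h] at hdD
      exact hdD heD
    · show Av T {d, e} p' (dec z1)
      rw [hz1]; exact Av_mono hsubde a1
    · show rn T p' (dec z1) = d.1
      rw [hz1]; exact a3
    · show Av T {d, e} (if false = true then p else p') (dec z2)
      rw [hz2]; simpa using Av_mono hsubde a2
    · show rn T (if false = true then p else p') (dec z2) = T d.1 d.2
      rw [hz2]; simpa using a4
    · show Av T {e} p' (dec x1)
      rw [hx1]; exact Av_mono hsube hB1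
    · show rn T p' (dec x1) = e.1
      rw [hx1, rn_pre, ← hes]
    · show Av T {e} p (dec w)
      exact Av_mono hsube hAe
    · exact hTe
  · -- different cells
    obtain ⟨x, x', hxx1, hxx2, hxx3, hxx4⟩ : ∃ x x' : Wd k ρ,
        Av T {c1, c2} p' (dec x) ∧ rn T p' (dec x) = c1.1 ∧
        Av T {c1, c2} p' (dec x') ∧ rn T p' (dec x') = c2.1 := by
      rcases hm1 with h | h <;> rcases hm2 with h' | h'
      · exact absurd (h.trans h'.symm) hef
      · refine ⟨x1, x2, by rw [hx1]; exact hB1, ?_, by rw [hx2]; exact hB2, ?_⟩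
        · rw [hx1, rn_pre]; exact congrArg Prod.fst h
        · rw [hx2, rn_pre]; exact congrArg Prod.fst h'
      · refine ⟨x2, x1, by rw [hx2]; exact hB2, ?_, by rw [hx1]; exact hB1, ?_⟩
        · rw [hx2, rn_pre]; exact congrArg Prod.fst h'
        · rw [hx1, rn_pre]; exact congrArg Prod.fst h
      · exact absurd (h.trans h'.symm) hef
    refine ⟨c1, c2, ((x, c1.2, w1), true, (x', c2.2, w2)), hc12, hxx1, hxx2, rfl, ?_, ?_, ?_,
      hxx4, rfl, ?_, ?_⟩
    · show Av T {c1, c2} (if true = true then p else p') (dec w1)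
      rw [hw1]; simpa using hA1
    · show rn T (if true = true then p else p') (dec w1) = T c1.1 c1.2
      rw [hw1, hT1]; simpa using rn_pre T p v (t1 + 1)
    · exact Av_mono hsub2 hxx3
    · show Av T {c2} p (dec w2)
      rw [hw2]; exact Av_mono hsub2 hA2
    · show rn T p (dec w2) = T c2.1 c2.2
      rw [hw2, hT2, rn_pre]
end AS

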