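import Pool.Agent.Helper949.ASX.Defs2
import Pool.Agent.Helper949.ASX.F3
import Pool.Agent.Helper949.ASX.F4

set_option autoImplicit false

namespace RA
variable {V : Type} {k : ℕ}
end RA

namespace SI
variable {V : Type} {k : ℕ}
end SI

namespace AS
open Finset

end AS

namespace SI
end SI

namespace AS
open Finset SI
end AS

namespace AS
open Finset SI
end AS

namespace AS
open Finset SI RA
/-! GIVEN -/
section
variable {V : Type} [Fintype V] [DecidableEq V] {k : ℕ}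
end

/-! auxiliary lemmas -/

private theorem tw_run_traj {V : Type} {k : ℕ} (T : V → Fin k → V) (p : V) (W : ℕ → Fin k) (t : ℕ) :
    run T p (List.ofFn (fun i : Fin t => W i)) = traj T p W t := by
  induction t with
  | zero => simp [run, traj]
  | succ t ih =>
    rw [List.ofFn_succ_last]
    unfold run at ih ⊢
    rw [List.foldl_append]
    simp only [List.foldl_cons, List.foldl_nil, traj]
    have : (fun i : Fin t => W ((Fin.castSucc i : Fin (t + 1)) : ℕ)) = fun i : Fin t => W i := by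
      funext i; simp
    rw [this, ih]
    simp

private theorem tw_x {V : Type} {k ρ : ℕ} [NeZero k] (T : V → Fin k → V) (p : V) (v : Fin ρ → Fin k) :
    run T p (List.ofFn v) = traj T p (SI.ext v) ρ := by
  rw [← tw_run_traj]
  congr 2
  funext i
  simp [SI.ext]

private theorem tw_inj {V : Type} {k ρ : ℕ} [NeZero k] (T : V → Fin k → V) (p : V) (h : TL T p ρ) :
    Function.Injective (fun v : Fin ρ → Fin k => run T p (List.ofFn v)) := by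
  intro v v' hv
  simp only [tw_x] at hv
  have h1 := (h _ _ ρ ρ le_rfl le_rfl hv).2
  funext i
  have h2 := h1 i.val i.isLt
  simpa [SI.ext] using h2

/-- bad pairs -/
private def tBad {V : Type} {k : ℕ} (T : V → Fin k → V) (p : V) (ρ : ℕ) : Prop :=
  ¬ TL T p ρ ∨ ∃ p', p ≠ p' ∧ TL T p ρ ∧ Mg T p p' ρ

private theorem tw_two {k r : ℕ} (D : Finset (Fin (r + 1) → Fin k)) (hD : D.card < k ^ r) (a : Fin k) :
    ∃ v : Fin (r + 1) → Fin k, v 0 = a ∧ v ∉ D := by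
  classical
  by_contra hcon
  push Not at hcon
  have h1 : (Finset.univ.image (fun u : Fin r → Fin k => (Fin.cons a u : Fin (r + 1) → Fin k)))
      ⊆ D := by
    intro v hv
    rw [Finset.mem_image] at hv
    obtain ⟨u, -, rfl⟩ := hv
    exact hcon _ (by simp)
  have h2 := Finset.card_le_card h1
  rw [Finset.card_image_of_injective _ (Fin.cons_right_injective (α := fun _ => Fin k) a),
    Finset.card_univ, Fintype.card_fun, Fintype.card_fin,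
    Fintype.card_fin] at h2
  omega

private theorem tw_claim {m k r : ℕ} (hk : 2 ≤ k) (T T' : Fin (m+1) → Fin k → Fin (m+1))
    (p q p2 q2 : Fin (m+1)) (hp : ¬ tBad T p (r + 1)) (hq : ¬ tBad T' q (r + 1))
    (hne : (p2, q2) ≠ (p, q)) :
    k ^ r ≤ (Finset.univ.filter (fun v : Fin (r + 1) → Fin k =>
      (run T p (List.ofFn v), run T' q (List.ofFn v)) ≠
        (run T p2 (List.ofFn v), run T' q2 (List.ofFn v)))).card := by
  have : NeZero k := ⟨by omega⟩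
  by_contra hcon
  push Not at hcon
  unfold tBad at hp hq
  push Not at hp hq
  have h01 : (⟨0, by omega⟩ : Fin k) ≠ ⟨1, by omega⟩ := by
    intro h
    have := congrArg Fin.val h
    simp at this
  obtain ⟨v1, hv1, hv1D⟩ := tw_two _ hcon ⟨0, by omega⟩
  obtain ⟨v2, hv2, hv2D⟩ := tw_two _ hcon ⟨1, by omega⟩
  simp only [Finset.mem_filter, Finset.mem_univ, true_and, not_not, Prod.mk.injEq] at hv1D hv2D
  have hfirst : SI.ext v1 0 ≠ SI.ext v2 0 := by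
    have e1 : SI.ext v1 0 = v1 0 := by simp [SI.ext]
    have e2 : SI.ext v2 0 = v2 0 := by simp [SI.ext]
    rw [e1, e2, hv1, hv2]
    exact h01
  rw [tw_x, tw_x, tw_x, tw_x] at hv1D hv2D
  apply hne
  have hpp : p2 = p := by
    by_contra h
    exact hp.2 p2 (fun h' => h h'.symm) hp.1 ⟨SI.ext v1, SI.ext v2, hfirst, hv1D.1, hv2D.1⟩
  have hqq : q2 = q := by
    by_contra h
    exact hq.2 q2 (fun h' => h h'.symm) hq.1 ⟨SI.ext v1, SI.ext v2, hfirst, hv1D.2, hv2D.2⟩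
  rw [hpp, hqq]

/-! counting -/

private theorem cn_mono {α : Type} [Finite α] {P Q : α → Prop} (h : ∀ x, P x → Q x) :
    Set.ncard {x | P x} ≤ Set.ncard {x | Q x} :=
  Set.ncard_le_ncard (fun x hx => h x hx) (Set.toFinite _)

private theorem cn_or {α : Type} [Finite α] (P Q : α → Prop) :
    Set.ncard {x | P x ∨ Q x} ≤ Set.ncard {x | P x} + Set.ncard {x | Q x} :=
  Set.ncard_union_le {x | P x} {x | Q x}

private theorem cn_filter {α : Type} [Fintype α] (P : α → Prop) [DecidablePred P] :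
    Set.ncard {x | P x} = (Finset.univ.filter P).card := by
  rw [← Set.ncard_coe_finset]
  congr 1
  ext x
  simp

private theorem cn_ex {α ι : Type} [Fintype α] (s : Finset ι) (P : ι → α → Prop) :
    Set.ncard {x | ∃ i ∈ s, P i x} ≤ ∑ i ∈ s, Set.ncard {x | P i x} := by
  classical
  rw [cn_filter]
  simp only [cn_filter]
  refine le_trans (Finset.card_le_card ?_) Finset.card_biUnion_le
  intro x hx
  rw [Finset.mem_filter] at hx
  obtain ⟨-, i, hi, hx⟩ := hx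
  rw [Finset.mem_biUnion]
  exact ⟨i, hi, by rw [Finset.mem_filter]; exact ⟨Finset.mem_univ x, hx⟩⟩

private theorem cn_fib {α β : Type} [Fintype α] [Fintype β] (R : α → β → Prop) :
    Set.ncard {x : α × β | R x.1 x.2} = ∑ a, Set.ncard {b | R a b} := by
  classical
  rw [cn_filter]
  simp only [cn_filter, Finset.card_filter]
  rw [Fintype.sum_prod_type]

private theorem cn_inj {α β : Type} [Finite α] [Finite β] (f : α → β) (hf : Function.Injective f)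
    {P : α → Prop} {Q : β → Prop} (h : ∀ x, P x → Q (f x)) :
    Set.ncard {x | P x} ≤ Set.ncard {y | Q y} :=
  Set.ncard_le_ncard_of_injOn f (fun x hx => h x hx) hf.injOn (Set.toFinite _)


private theorem tw_BS {m k ρ : ℕ} (hk : 2 ≤ k) (hρ : 1 ≤ ρ) (T0 : Fin (m+1) → Fin k → Fin (m+1))
    (hr : 2 * k ^ (ρ + 1) + 1 < m + 1) (A : ℝ)
    (hA : ((((m+1 : ℕ) : ℝ)) / (((m+1 : ℕ) : ℝ) - 1 - 2 * (k:ℝ) ^ (ρ + 1)))
      ^ (2 * k ^ (ρ + 1)) ≤ A) :
    (Set.ncard {Q : (Fin (m+1) → Fin k → Fin (m+1)) × Fin (m+1) |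
      Q.1 ∈ Om T0 ∅ ∅ (Finset.univ.erase 0) ∧ tBad Q.1 Q.2 ρ} : ℝ) ≤
      A * ((k:ℝ) ^ (ρ + 1)) ^ 4 * (Om T0 ∅ ∅ (Finset.univ.erase 0)).card +
      A * ((k:ℝ) ^ (ρ + 1)) ^ 12 * (Om T0 ∅ ∅ (Finset.univ.erase 0)).card := by
  classical
  set S := Om T0 ∅ ∅ (Finset.univ.erase 0) with hS
  set N : ℝ := (S.card : ℝ) with hN
  set n : ℝ := ((m+1 : ℕ) : ℝ) with hn
  set K : ℝ := (k:ℝ) ^ (ρ + 1) with hK
  have hn0 : 0 < n := by rw [hn]; positivity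
  have hN0 : 0 ≤ N := by positivity
  have hK0 : 0 ≤ K := by positivity
  have h1 : ∀ p : Fin (m+1), (Set.ncard {T | T ∈ S ∧ ¬ TL T p ρ} : ℝ) ≤ A * K ^ 4 * N / n := by
    intro p
    have h := notTL_S hk T0 0 p ρ (by rw [Fintype.card_fin]; exact hr)
    rw [Fintype.card_fin] at h
    rw [le_div_iff₀ hn0]
    refine h.trans ?_
    have : (((m+1 : ℕ) : ℝ) / (((m+1 : ℕ) : ℝ) - 1 - 2 * (k:ℝ) ^ (ρ + 1))) ^ (2 * k ^ (ρ + 1))
        * K ^ 4 * N ≤ A * K ^ 4 * N := by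
      apply mul_le_mul_of_nonneg_right _ hN0
      exact mul_le_mul_of_nonneg_right hA (by positivity)
    exact this
  have h2 : ∀ p p' : Fin (m+1), p ≠ p' →
      (Set.ncard {T | T ∈ S ∧ TL T p ρ ∧ Mg T p p' ρ} : ℝ) ≤ A * K ^ 12 * N / n ^ 2 := by
    intro p p' hp
    have h := merge_S hk T0 0 p p' hp ρ hρ (by rw [Fintype.card_fin]; exact hr)
    rw [Fintype.card_fin] at h
    rw [le_div_iff₀ (by positivity)]
    refine h.trans ?_
    have : (((m+1 : ℕ) : ℝ) / (((m+1 : ℕ) : ℝ) - 1 - 2 * (k:ℝ) ^ (ρ + 1))) ^ (2 * k ^ (ρ + 1))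
        * K ^ 12 * N ≤ A * K ^ 12 * N := by
      apply mul_le_mul_of_nonneg_right _ hN0
      exact mul_le_mul_of_nonneg_right hA (by positivity)
    exact this
  have hA0 : 0 ≤ A := by
    have h := h1 0
    have hpos : (0:ℝ) ≤ (((m+1 : ℕ) : ℝ) / (((m+1 : ℕ) : ℝ) - 1 - 2 * (k:ℝ) ^ (ρ + 1)))
        ^ (2 * k ^ (ρ + 1)) := by
      apply pow_nonneg
      apply div_nonneg (by positivity)
      have : ((2 * k ^ (ρ + 1) + 1 : ℕ) : ℝ) < ((m+1 : ℕ) : ℝ) := by exact_mod_cast hr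
      push_cast at this ⊢
      linarith
    exact hpos.trans hA
  have h3 : ∀ p : Fin (m+1), (Set.ncard {T | T ∈ S ∧ tBad T p ρ} : ℝ) ≤
      A * K ^ 4 * N / n + n * (A * K ^ 12 * N / n ^ 2) := by
    intro p
    have e1 : Set.ncard {T | T ∈ S ∧ tBad T p ρ} ≤
        Set.ncard {T | T ∈ S ∧ ¬ TL T p ρ} +
        ∑ p' ∈ Finset.univ.erase p, Set.ncard {T | T ∈ S ∧ TL T p ρ ∧ Mg T p p' ρ} := by
      refine le_trans (cn_mono (Q := fun T => (T ∈ S ∧ ¬ TL T p ρ) ∨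
        ∃ p' ∈ Finset.univ.erase p, (T ∈ S ∧ TL T p ρ ∧ Mg T p p' ρ)) ?_) ?_
      · rintro T ⟨hT, hb | ⟨p', hp', hb⟩⟩
        · exact Or.inl ⟨hT, hb⟩
        · exact Or.inr ⟨p', Finset.mem_erase.mpr ⟨hp'.symm, Finset.mem_univ _⟩, hT, hb⟩
      · refine le_trans (cn_or _ _) ?_
        exact Nat.add_le_add_left (cn_ex _ _) _
    have e2 : (∑ p' ∈ Finset.univ.erase p,
        (Set.ncard {T | T ∈ S ∧ TL T p ρ ∧ Mg T p p' ρ} : ℝ)) ≤
        n * (A * K ^ 12 * N / n ^ 2) := by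
      refine (Finset.sum_le_sum (g := fun _ => A * K ^ 12 * N / n ^ 2) ?_).trans ?_
      · intro p' hp'
        exact h2 p p' (Finset.ne_of_mem_erase hp').symm
      · rw [Finset.sum_const, nsmul_eq_mul]
        apply mul_le_mul_of_nonneg_right _ (by positivity)
        rw [hn]
        have : (Finset.univ.erase p).card ≤ m + 1 := by
          refine (Finset.card_le_univ _).trans ?_
          rw [Fintype.card_fin]
        exact_mod_cast this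
    have e3 : (Set.ncard {T | T ∈ S ∧ tBad T p ρ} : ℝ) ≤
        (Set.ncard {T | T ∈ S ∧ ¬ TL T p ρ} : ℝ) +
        ∑ p' ∈ Finset.univ.erase p, (Set.ncard {T | T ∈ S ∧ TL T p ρ ∧ Mg T p p' ρ} : ℝ) := by
      exact_mod_cast e1
    exact e3.trans (add_le_add (h1 p) e2)
  have h4 : Set.ncard {Q : (Fin (m+1) → Fin k → Fin (m+1)) × Fin (m+1) |
      Q.1 ∈ S ∧ tBad Q.1 Q.2 ρ} ≤ ∑ p : Fin (m+1), Set.ncard {T | T ∈ S ∧ tBad T p ρ} := by
    rw [← cn_fib (fun (p : Fin (m+1)) (T : Fin (m+1) → Fin k → Fin (m+1)) =>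
      T ∈ S ∧ tBad T p ρ)]
    exact cn_inj Prod.swap Prod.swap_injective (fun x hx => hx)
  have h5 : (Set.ncard {Q : (Fin (m+1) → Fin k → Fin (m+1)) × Fin (m+1) |
      Q.1 ∈ S ∧ tBad Q.1 Q.2 ρ} : ℝ) ≤
      ∑ p : Fin (m+1), (Set.ncard {T | T ∈ S ∧ tBad T p ρ} : ℝ) := by exact_mod_cast h4
  refine h5.trans ((Finset.sum_le_sum (fun p _ => h3 p)).trans (le_of_eq ?_))
  rw [Finset.sum_const, Finset.card_univ, Fintype.card_fin, nsmul_eq_mul, ← hn]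
  field_simp

private theorem tw_E1 {m k : ℕ} (S : Finset (Fin (m+1) → Fin k → Fin (m+1)))
    (B : (Fin (m+1) → Fin k → Fin (m+1)) → Fin (m+1) → Prop) :
    Set.ncard {P : (((Fin (m+1) → Fin k → Fin (m+1)) × (Fin (m+1) → Bool)) ×
          ((Fin (m+1) → Fin k → Fin (m+1)) × (Fin (m+1) → Bool))) × (Fin (m+1) × Fin (m+1)) |
        P.1.1.1 ∈ S ∧ P.1.2.1 ∈ S ∧ B P.1.1.1 P.2.1} ≤
      Set.ncard {Q : (Fin (m+1) → Fin k → Fin (m+1)) × Fin (m+1) | Q.1 ∈ S ∧ B Q.1 Q.2}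
        * (2 ^ (m+1) * (S.card * (2 ^ (m+1) * (m+1)))) := by
  have h1 : Set.ncard ({Q : (Fin (m+1) → Fin k → Fin (m+1)) × Fin (m+1) | Q.1 ∈ S ∧ B Q.1 Q.2} ×ˢ
      ((Set.univ : Set (Fin (m+1) → Bool)) ×ˢ ((S : Set (Fin (m+1) → Fin k → Fin (m+1))) ×ˢ
        ((Set.univ : Set (Fin (m+1) → Bool)) ×ˢ (Set.univ : Set (Fin (m+1))))))) =
      Set.ncard {Q : (Fin (m+1) → Fin k → Fin (m+1)) × Fin (m+1) | Q.1 ∈ S ∧ B Q.1 Q.2}
        * (2 ^ (m+1) * (S.card * (2 ^ (m+1) * (m+1)))) := by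
    rw [Set.ncard_prod, Set.ncard_prod, Set.ncard_prod, Set.ncard_prod, Set.ncard_univ,
      Set.ncard_univ, Set.ncard_coe_finset]
    simp
  rw [← h1]
  exact Set.ncard_le_ncard_of_injOn
    (fun P => ((P.1.1.1, P.2.1), (P.1.1.2, (P.1.2.1, (P.1.2.2, P.2.2)))))
    (fun P hP => ⟨⟨hP.1, hP.2.2⟩, Set.mem_univ _, hP.2.1, Set.mem_univ _, Set.mem_univ _⟩)
    (fun P _ P' _ h => by
      simp only [Prod.mk.injEq] at h
      obtain ⟨⟨a1, a2⟩, a3, a4, a5, a6⟩ := h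
      ext1
      · ext1
        · exact Prod.ext a1 a3
        · exact Prod.ext a4 a5
      · exact Prod.ext a2 a6) (Set.toFinite _)

private theorem tw_E2 {m k : ℕ} (S : Finset (Fin (m+1) → Fin k → Fin (m+1)))
    (B : (Fin (m+1) → Fin k → Fin (m+1)) → Fin (m+1) → Prop) :
    Set.ncard {P : (((Fin (m+1) → Fin k → Fin (m+1)) × (Fin (m+1) → Bool)) ×
          ((Fin (m+1) → Fin k → Fin (m+1)) × (Fin (m+1) → Bool))) × (Fin (m+1) × Fin (m+1)) |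
        P.1.1.1 ∈ S ∧ P.1.2.1 ∈ S ∧ B P.1.2.1 P.2.2} ≤
      Set.ncard {Q : (Fin (m+1) → Fin k → Fin (m+1)) × Fin (m+1) | Q.1 ∈ S ∧ B Q.1 Q.2}
        * (2 ^ (m+1) * (S.card * (2 ^ (m+1) * (m+1)))) := by
  refine le_trans ?_ (tw_E1 S B)
  refine cn_inj (fun P => ((P.1.2, P.1.1), (P.2.2, P.2.1))) ?_ (fun P hP => ⟨hP.2.1, hP.1, hP.2.2⟩)
  intro P P' h
  simp only [Prod.mk.injEq] at h
  obtain ⟨⟨a1, a2⟩, a3, a4⟩ := h
  exact Prod.ext (Prod.ext a2 a1) (Prod.ext a4 a3)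

private theorem tw_E3 {m k r : ℕ} (hk : 2 ≤ k) (S : Finset (Fin (m+1) → Fin k → Fin (m+1))) :
    (Set.ncard {P : (((Fin (m+1) → Fin k → Fin (m+1)) × (Fin (m+1) → Bool)) ×
          ((Fin (m+1) → Fin k → Fin (m+1)) × (Fin (m+1) → Bool))) × (Fin (m+1) × Fin (m+1)) |
        P.1.1.1 ∈ S ∧ P.1.2.1 ∈ S ∧ (¬ tBad P.1.1.1 P.2.1 (r+1) ∧ ¬ tBad P.1.2.1 P.2.2 (r+1)) ∧
        Tw P.1.1 P.1.2 P.2.1 P.2.2} : ℝ) ≤
      ((S.card : ℝ) * S.card * (((m+1 : ℕ) : ℝ) * ((m+1 : ℕ) : ℝ))) *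
        ((((m+1 : ℕ) : ℝ) * ((m+1 : ℕ) : ℝ)) * ((3/4 : ℝ) ^ (k ^ r / 5) * 4 ^ (m+1))) := by
  classical
  set c3 : ℝ := (((m+1 : ℕ) : ℝ) * ((m+1 : ℕ) : ℝ)) * ((3/4 : ℝ) ^ (k ^ r / 5) * 4 ^ (m+1))
    with hc3
  let R : (((Fin (m+1) → Fin k → Fin (m+1)) × (Fin (m+1) → Fin k → Fin (m+1))) ×
      (Fin (m+1) × Fin (m+1))) → ((Fin (m+1) → Bool) × (Fin (m+1) → Bool)) → Prop :=
    fun a b => a.1.1 ∈ S ∧ a.1.2 ∈ S ∧ (¬ tBad a.1.1 a.2.1 (r+1) ∧ ¬ tBad a.1.2 a.2.2 (r+1)) ∧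
      Tw (a.1.1, b.1) (a.1.2, b.2) a.2.1 a.2.2
  have h1 : Set.ncard {P : (((Fin (m+1) → Fin k → Fin (m+1)) × (Fin (m+1) → Bool)) ×
          ((Fin (m+1) → Fin k → Fin (m+1)) × (Fin (m+1) → Bool))) × (Fin (m+1) × Fin (m+1)) |
        P.1.1.1 ∈ S ∧ P.1.2.1 ∈ S ∧ (¬ tBad P.1.1.1 P.2.1 (r+1) ∧ ¬ tBad P.1.2.1 P.2.2 (r+1)) ∧
        Tw P.1.1 P.1.2 P.2.1 P.2.2} ≤ ∑ a, Set.ncard {b | R a b} := by
    rw [← cn_fib R]
    refine cn_inj (fun P => (((P.1.1.1, P.1.2.1), (P.2.1, P.2.2)), (P.1.1.2, P.1.2.2))) ?_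
      (fun P hP => hP)
    intro P P' h
    simp only [Prod.mk.injEq] at h
    obtain ⟨⟨⟨a1, a2⟩, a3, a4⟩, a5, a6⟩ := h
    exact Prod.ext (Prod.ext (Prod.ext a1 a5) (Prod.ext a2 a6)) (Prod.ext a3 a4)
  have h2 : ∀ a, (Set.ncard {b | R a b} : ℝ) ≤ c3 := by
    intro a
    by_cases hgood : ¬ tBad a.1.1 a.2.1 (r+1) ∧ ¬ tBad a.1.2 a.2.2 (r+1)
    · have e1 : Set.ncard {b | R a b} ≤
          ∑ i ∈ (Finset.univ : Finset (Fin (m+1) × Fin (m+1))).filter (fun i => i ≠ a.2),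
            Set.ncard {FF : (Fin (m+1) → Bool) × (Fin (m+1) → Bool) |
              ∀ v : Fin (r+1) → Fin k,
                (FF.1 (run a.1.1 a.2.1 (List.ofFn v)) && FF.2 (run a.1.2 a.2.2 (List.ofFn v))) =
                (FF.1 (run a.1.1 i.1 (List.ofFn v)) && FF.2 (run a.1.2 i.2 (List.ofFn v)))} := by
        refine le_trans (cn_mono ?_) (cn_ex _ _)
        rintro b ⟨-, -, -, p2, q2, hne, hw⟩
        refine ⟨(p2, q2), ?_, fun v => hw (List.ofFn v)⟩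
        rw [Finset.mem_filter]
        exact ⟨Finset.mem_univ _, hne⟩
      have e2 : ∀ i ∈ (Finset.univ : Finset (Fin (m+1) × Fin (m+1))).filter (fun i => i ≠ a.2),
          (Set.ncard {FF : (Fin (m+1) → Bool) × (Fin (m+1) → Bool) |
              ∀ v : Fin (r+1) → Fin k,
                (FF.1 (run a.1.1 a.2.1 (List.ofFn v)) && FF.2 (run a.1.2 a.2.2 (List.ofFn v))) =
                (FF.1 (run a.1.1 i.1 (List.ofFn v)) && FF.2 (run a.1.2 i.2 (List.ofFn v)))} : ℝ)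
            ≤ (3/4 : ℝ) ^ (k ^ r / 5) * 4 ^ (m+1) := by
        intro i hi
        rw [Finset.mem_filter] at hi
        have : NeZero k := ⟨by omega⟩
        have t1 : TL a.1.1 a.2.1 (r+1) := by
          by_contra h
          exact hgood.1 (Or.inl h)
        have t2 : TL a.1.2 a.2.2 (r+1) := by
          by_contra h
          exact hgood.2 (Or.inl h)
        have h := twin_count (fun v : Fin (r+1) → Fin k => run a.1.1 a.2.1 (List.ofFn v))
          (fun v => run a.1.2 a.2.2 (List.ofFn v)) (fun v => run a.1.1 i.1 (List.ofFn v))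
          (fun v => run a.1.2 i.2 (List.ofFn v)) (tw_inj _ _ t1) (tw_inj _ _ t2) (k ^ r)
          (by
            have := tw_claim (r := r) hk a.1.1 a.1.2 a.2.1 a.2.2 i.1 i.2 hgood.1 hgood.2 hi.2
            convert this)
        rw [Fintype.card_fin] at h
        have h' : (Set.ncard {FF : (Fin (m+1) → Bool) × (Fin (m+1) → Bool) |
              ∀ v : Fin (r+1) → Fin k,
                (FF.1 (run a.1.1 a.2.1 (List.ofFn v)) && FF.2 (run a.1.2 a.2.2 (List.ofFn v))) =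
                (FF.1 (run a.1.1 i.1 (List.ofFn v)) && FF.2 (run a.1.2 i.2 (List.ofFn v)))} : ℝ)
            * 4 ^ (k ^ r / 5) ≤ 3 ^ (k ^ r / 5) * 4 ^ (m+1) := by exact_mod_cast h
        rw [div_pow, div_mul_eq_mul_div, le_div_iff₀ (by positivity)]
        exact h'
      have e3 : (Set.ncard {b | R a b} : ℝ) ≤
          ∑ i ∈ (Finset.univ : Finset (Fin (m+1) × Fin (m+1))).filter (fun i => i ≠ a.2),
            (Set.ncard {FF : (Fin (m+1) → Bool) × (Fin (m+1) → Bool) |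
              ∀ v : Fin (r+1) → Fin k,
                (FF.1 (run a.1.1 a.2.1 (List.ofFn v)) && FF.2 (run a.1.2 a.2.2 (List.ofFn v))) =
                (FF.1 (run a.1.1 i.1 (List.ofFn v)) && FF.2 (run a.1.2 i.2 (List.ofFn v)))} : ℝ)
          := by exact_mod_cast e1
      refine e3.trans ((Finset.sum_le_sum e2).trans ?_)
      rw [Finset.sum_const, nsmul_eq_mul, hc3]
      apply mul_le_mul_of_nonneg_right _ (by positivity)
      have : ((Finset.univ : Finset (Fin (m+1) × Fin (m+1))).filter (fun i => i ≠ a.2)).card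
          ≤ (m+1) * (m+1) := by
        refine (Finset.card_le_univ _).trans ?_
        rw [Fintype.card_prod, Fintype.card_fin]
      exact_mod_cast this
    · have : {b | R a b} = ∅ := by
        rw [Set.eq_empty_iff_forall_notMem]
        intro b hb
        exact hgood hb.2.2.1
      rw [this, Set.ncard_empty]
      push_cast
      positivity
  have h3 : ∑ a, Set.ncard {b | R a b} =
      ∑ a ∈ (S ×ˢ S) ×ˢ (Finset.univ : Finset (Fin (m+1) × Fin (m+1))), Set.ncard {b | R a b} := by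
    symm
    apply Finset.sum_subset (Finset.subset_univ _)
    intro a _ ha
    have : {b | R a b} = ∅ := by
      rw [Set.eq_empty_iff_forall_notMem]
      intro b hb
      apply ha
      rw [Finset.mem_product, Finset.mem_product]
      exact ⟨⟨hb.1, hb.2.1⟩, Finset.mem_univ _⟩
    rw [this, Set.ncard_empty]
  have h4 : (Set.ncard {P : (((Fin (m+1) → Fin k → Fin (m+1)) × (Fin (m+1) → Bool)) ×
          ((Fin (m+1) → Fin k → Fin (m+1)) × (Fin (m+1) → Bool))) × (Fin (m+1) × Fin (m+1)) |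
        P.1.1.1 ∈ S ∧ P.1.2.1 ∈ S ∧ (¬ tBad P.1.1.1 P.2.1 (r+1) ∧ ¬ tBad P.1.2.1 P.2.2 (r+1)) ∧
        Tw P.1.1 P.1.2 P.2.1 P.2.2} : ℝ) ≤
      ∑ a ∈ (S ×ˢ S) ×ˢ (Finset.univ : Finset (Fin (m+1) × Fin (m+1))),
        (Set.ncard {b | R a b} : ℝ) := by
    rw [h3] at h1
    exact_mod_cast h1
  refine h4.trans ((Finset.sum_le_sum (fun a _ => h2 a)).trans (le_of_eq ?_))
  rw [Finset.sum_const, nsmul_eq_mul, Finset.card_product, Finset.card_product, Finset.card_univ,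
    Fintype.card_prod, Fintype.card_fin]
  push_cast
  ring


private theorem tw_asym (k : ℕ) (hk : 2 ≤ k) (ε : ℝ) (hε : 0 < ε) : ∃ m0 : ℕ, ∀ m, m0 ≤ m → ∃ r : ℕ,
    16 * ((k:ℝ) ^ (r + 2)) ^ 12 ≤ ε * ((m+1 : ℕ) : ℝ) ∧
    16 * ((k:ℝ) ^ (r + 2)) ^ 12 ≤ ((m+1 : ℕ) : ℝ) ∧
    ((m+1 : ℕ) : ℝ) * ((m+1 : ℕ) : ℝ) * (3/4 : ℝ) ^ (k ^ r / 5) ≤ ε / 2 := by
  have hk0 : (0:ℝ) < k := by
    have : (2:ℝ) ≤ k := by exact_mod_cast hk
    linarith
  set C : ℝ := 40 * (k:ℝ) ^ 3 with hC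
  have hC0 : 0 < C := by positivity
  set e1 : ℝ := min ε 1 with he1
  have he10 : 0 < e1 := lt_min hε one_pos
  have hlim := tendsto_pow_const_div_const_pow_of_one_lt 12 (r := (2:ℝ)) (by norm_num)
  have hδ : 0 < e1 / (32 * C ^ 12) := by positivity
  obtain ⟨L0, hL0⟩ := Filter.eventually_atTop.mp (hlim.eventually (gt_mem_nhds hδ))
  obtain ⟨M1, hM1⟩ := exists_nat_ge (2 / ε)
  refine ⟨max (2 ^ L0) (max M1 1), fun m hm => ?_⟩
  have hm1 : 2 ^ L0 ≤ m := le_trans (le_max_left _ _) hm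
  have hm2 : M1 ≤ m := le_trans (le_trans (le_max_left _ _) (le_max_right _ _)) hm
  set n : ℕ := m + 1 with hn
  set L : ℕ := Nat.log 2 n + 1 with hL
  have hnL : n < 2 ^ L := Nat.lt_pow_succ_log_self (by norm_num) n
  have hLn : 2 ^ (L - 1) ≤ n := by
    rw [hL, Nat.add_sub_cancel]
    exact Nat.pow_log_le_self 2 (by omega)
  have hLL0 : L0 ≤ L := by
    have : L0 ≤ Nat.log 2 n := (Nat.le_log_iff_pow_le (by norm_num) (by omega)).mpr (by omega)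
    omega
  set X : ℕ := 40 * L with hX
  have hX1 : 1 < X := by omega
  refine ⟨Nat.clog k X, ?_⟩
  set r := Nat.clog k X with hr
  have hr1 : X ≤ k ^ r := Nat.le_pow_clog (by omega) X
  have hrpos : 0 < r := Nat.clog_pos (by omega) hX1
  have hr2 : k ^ r ≤ k * X := by
    have h1 : k ^ (r - 1) < X := Nat.pow_pred_clog_lt_self (by omega) hX1
    have h2 : k ^ r = k * k ^ (r - 1) := by
      rw [← pow_succ']
      congr 1
      omega
    rw [h2]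
    exact Nat.mul_le_mul_left k h1.le
  have hK : (k:ℝ) ^ (r + 2) ≤ C * L := by
    have h1 : (k:ℝ) ^ r ≤ k * X := by exact_mod_cast hr2
    have h2 : (X : ℝ) = 40 * L := by rw [hX]; push_cast; ring
    calc (k:ℝ) ^ (r + 2) = (k:ℝ) ^ 2 * (k:ℝ) ^ r := by ring
      _ ≤ (k:ℝ) ^ 2 * (k * X) := mul_le_mul_of_nonneg_left h1 (by positivity)
      _ = C * L := by rw [h2, hC]; ring
  have hL12 : 16 * (C * (L:ℝ)) ^ 12 ≤ e1 * (n:ℝ) := by
    have h1 := (hL0 L hLL0).le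
    rw [div_le_div_iff₀ (by positivity) (by positivity)] at h1
    have h2 : ((2:ℝ)) ^ L ≤ 2 * n := by
      have : 2 ^ L ≤ 2 * n := by
        have h3 : 2 ^ L = 2 * 2 ^ (L - 1) := by
          rw [← pow_succ']
          congr 1
        rw [h3]
        exact Nat.mul_le_mul_left 2 hLn
      exact_mod_cast this
    have h4 : (L:ℝ) ^ 12 * (32 * C ^ 12) ≤ e1 * (2 * n) :=
      h1.trans (mul_le_mul_of_nonneg_left h2 he10.le)
    have h5 : 16 * (C * (L:ℝ)) ^ 12 = ((L:ℝ) ^ 12 * (32 * C ^ 12)) / 2 := by ring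
    rw [h5]
    linarith
  have hK12 : 16 * ((k:ℝ) ^ (r + 2)) ^ 12 ≤ e1 * (n:ℝ) := by
    refine le_trans ?_ hL12
    apply mul_le_mul_of_nonneg_left _ (by norm_num)
    exact pow_le_pow_left₀ (by positivity) hK 12
  have hn0 : (0:ℝ) < n := by rw [hn]; positivity
  refine ⟨?_, ?_, ?_⟩
  · exact hK12.trans (mul_le_mul_of_nonneg_right (min_le_left _ _) hn0.le)
  · refine hK12.trans ?_
    calc e1 * (n:ℝ) ≤ 1 * n := mul_le_mul_of_nonneg_right (min_le_right _ _) hn0.le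
      _ = n := one_mul _
  · have h1 : 8 * L ≤ k ^ r / 5 := by
      rw [Nat.le_div_iff_mul_le (by norm_num)]
      omega
    have h2 : (3/4 : ℝ) ^ (k ^ r / 5) ≤ (3/4 : ℝ) ^ (8 * L) :=
      pow_le_pow_of_le_one (by norm_num) (by norm_num) h1
    have h3 : (3/4 : ℝ) ^ (8 * L) ≤ (1/8 : ℝ) ^ L := by
      rw [pow_mul]
      exact pow_le_pow_left₀ (by norm_num) (by norm_num) L
    have h4 : (1/8 : ℝ) ^ L = 1 / ((2:ℝ) ^ L) ^ 3 := by
      rw [one_div_pow, ← pow_mul, mul_comm, pow_mul]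
      norm_num
    have h5 : (n:ℝ) ≤ (2:ℝ) ^ L := by exact_mod_cast hnL.le
    have h6 : 1 / ((2:ℝ) ^ L) ^ 3 ≤ 1 / (n:ℝ) ^ 3 :=
      one_div_le_one_div_of_le (by positivity) (pow_le_pow_left₀ hn0.le h5 3)
    have h7 : (n:ℝ) * n * (3/4 : ℝ) ^ (k ^ r / 5) ≤ n * n * (1 / (n:ℝ) ^ 3) := by
      apply mul_le_mul_of_nonneg_left _ (by positivity)
      rw [← h4] at h6
      exact h2.trans (h3.trans h6)
    have h8 : (n:ℝ) * n * (1 / (n:ℝ) ^ 3) = 1 / n := by field_simp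
    rw [h8] at h7
    refine h7.trans ?_
    rw [div_le_div_iff₀ hn0 (by norm_num)]
    have h9 : (M1 : ℝ) ≤ n := by
      have : M1 ≤ n := by omega
      exact_mod_cast this
    rw [div_le_iff₀ hε] at hM1
    nlinarith

/-! TARGET -/
theorem twinned_S (k : ℕ) (hk : 2 ≤ k) (ε : ℝ) (hε : 0 < ε) : ∃ m0 : ℕ, ∀ m, m0 ≤ m →
    ∀ T0 : Fin (m+1) → Fin k → Fin (m+1),
    (Set.ncard {P : (((Fin (m+1) → Fin k → Fin (m+1)) × (Fin (m+1) → Bool)) ×
          ((Fin (m+1) → Fin k → Fin (m+1)) × (Fin (m+1) → Bool))) × (Fin (m+1) × Fin (m+1)) |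
        P.1.1.1 ∈ Om T0 ∅ ∅ (Finset.univ.erase 0) ∧ P.1.2.1 ∈ Om T0 ∅ ∅ (Finset.univ.erase 0) ∧
        Tw P.1.1 P.1.2 P.2.1 P.2.2} : ℝ)
      ≤ ε * ((m:ℝ) + 1) ^ 2 * (((Om T0 ∅ ∅ (Finset.univ.erase 0)).card : ℝ) * 2 ^ (m + 1)) ^ 2 := by
  have hkr : (2:ℝ) ≤ k := by exact_mod_cast hk
  obtain ⟨m0, hm0⟩ := tw_asym k hk ε hε
  refine ⟨m0, fun m hm T0 => ?_⟩
  obtain ⟨r, ha, hb, hc⟩ := hm0 m hm
  set S := Om T0 ∅ ∅ (Finset.univ.erase 0) with hS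
  set N : ℝ := (S.card : ℝ) with hN
  set n : ℝ := ((m+1 : ℕ) : ℝ) with hn
  have hn' : (m:ℝ) + 1 = n := by rw [hn]; push_cast; ring
  set K : ℝ := (k:ℝ) ^ (r + 2) with hK
  have hn0 : 0 < n := by rw [hn]; positivity
  have hN0 : 0 ≤ N := by positivity
  have hK1 : 1 ≤ K := by
    rw [hK]
    exact one_le_pow₀ (by linarith)
  have hK2 : 16 * K ^ 2 ≤ n := by
    have : K ^ 2 ≤ K ^ 12 := pow_le_pow_right₀ hK1 (by norm_num)
    linarith
  -- the size condition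
  have hr : 2 * k ^ (r + 1 + 1) + 1 < m + 1 := by
    have h1 : (2:ℝ) * K + 1 < n := by nlinarith
    have h2 : ((2 * k ^ (r + 1 + 1) + 1 : ℕ) : ℝ) < ((m+1 : ℕ) : ℝ) := by
      push_cast
      rw [← hn'] at h1
      exact h1
    exact_mod_cast h2
  -- the factor A is at most 2
  have hA : (n / (n - 1 - 2 * (k:ℝ) ^ (r + 1 + 1))) ^ (2 * k ^ (r + 1 + 1)) ≤ 2 := by
    have hd : 0 < n - 1 - 2 * K := by nlinarith
    have e1 : n / (n - 1 - 2 * (k:ℝ) ^ (r + 1 + 1)) = 1 + (1 + 2 * K) / (n - 1 - 2 * K) := by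
      show n / (n - 1 - 2 * K) = _
      field_simp
      ring
    rw [e1]
    have e2 : 1 + (1 + 2 * K) / (n - 1 - 2 * K) ≤ Real.exp ((1 + 2 * K) / (n - 1 - 2 * K)) := by
      have := Real.add_one_le_exp ((1 + 2 * K) / (n - 1 - 2 * K))
      linarith
    have e3 : 0 ≤ 1 + (1 + 2 * K) / (n - 1 - 2 * K) := by positivity
    refine (pow_le_pow_left₀ e3 e2 _).trans ?_
    rw [← Real.exp_nat_mul]
    have e4 : ((2 * k ^ (r + 1 + 1) : ℕ) : ℝ) * ((1 + 2 * K) / (n - 1 - 2 * K)) ≤ 1 / 2 := by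
      have : ((2 * k ^ (r + 1 + 1) : ℕ) : ℝ) = 2 * K := by
        push_cast
        rfl
      rw [this, ← mul_div_assoc, div_le_div_iff₀ hd (by norm_num)]
      nlinarith
    calc Real.exp (((2 * k ^ (r + 1 + 1) : ℕ) : ℝ) * ((1 + 2 * K) / (n - 1 - 2 * K)))
        ≤ Real.exp (Real.log 2) := by
          apply Real.exp_le_exp.mpr
          have := Real.log_two_gt_d9
          linarith
      _ = 2 := Real.exp_log (by norm_num)
  have hBS := tw_BS (ρ := r + 1) hk (by omega) T0 hr 2 hA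
  rw [← hS, ← hN] at hBS
  have hBS2 : (Set.ncard {Q : (Fin (m+1) → Fin k → Fin (m+1)) × Fin (m+1) |
      Q.1 ∈ S ∧ tBad Q.1 Q.2 (r + 1)} : ℝ) ≤ 4 * K ^ 12 * N := by
    refine hBS.trans ?_
    have h1 : K ^ 4 ≤ K ^ 12 := pow_le_pow_right₀ hK1 (by norm_num)
    have h2 : 2 * K ^ 4 * N ≤ 2 * K ^ 12 * N := by
      apply mul_le_mul_of_nonneg_right _ hN0
      linarith
    show 2 * K ^ 4 * N + 2 * K ^ 12 * N ≤ 4 * K ^ 12 * N
    linarith
  have hE1 := tw_E1 S (fun T p => tBad T p (r + 1))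
  have hE2 := tw_E2 S (fun T p => tBad T p (r + 1))
  have hE3 := tw_E3 (r := r) hk S
  set bs := Set.ncard {Q : (Fin (m+1) → Fin k → Fin (m+1)) × Fin (m+1) |
      Q.1 ∈ S ∧ tBad Q.1 Q.2 (r + 1)} with hbs
  -- union bound
  have hcov : Set.ncard {P : (((Fin (m+1) → Fin k → Fin (m+1)) × (Fin (m+1) → Bool)) ×
          ((Fin (m+1) → Fin k → Fin (m+1)) × (Fin (m+1) → Bool))) × (Fin (m+1) × Fin (m+1)) |
        P.1.1.1 ∈ S ∧ P.1.2.1 ∈ S ∧ Tw P.1.1 P.1.2 P.2.1 P.2.2} ≤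
      bs * (2 ^ (m+1) * (S.card * (2 ^ (m+1) * (m+1)))) +
      (bs * (2 ^ (m+1) * (S.card * (2 ^ (m+1) * (m+1)))) +
      Set.ncard {P : (((Fin (m+1) → Fin k → Fin (m+1)) × (Fin (m+1) → Bool)) ×
          ((Fin (m+1) → Fin k → Fin (m+1)) × (Fin (m+1) → Bool))) × (Fin (m+1) × Fin (m+1)) |
        P.1.1.1 ∈ S ∧ P.1.2.1 ∈ S ∧ (¬ tBad P.1.1.1 P.2.1 (r+1) ∧ ¬ tBad P.1.2.1 P.2.2 (r+1)) ∧
        Tw P.1.1 P.1.2 P.2.1 P.2.2}) := by
    refine le_trans (cn_mono (Q := fun P => (P.1.1.1 ∈ S ∧ P.1.2.1 ∈ S ∧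
        tBad P.1.1.1 P.2.1 (r + 1)) ∨ ((P.1.1.1 ∈ S ∧ P.1.2.1 ∈ S ∧
        tBad P.1.2.1 P.2.2 (r + 1)) ∨ (P.1.1.1 ∈ S ∧ P.1.2.1 ∈ S ∧
        (¬ tBad P.1.1.1 P.2.1 (r+1) ∧ ¬ tBad P.1.2.1 P.2.2 (r+1)) ∧
        Tw P.1.1 P.1.2 P.2.1 P.2.2))) ?_) ?_
    · rintro P ⟨h1, h2, h3⟩
      by_cases hb1 : tBad P.1.1.1 P.2.1 (r + 1)
      · exact Or.inl ⟨h1, h2, hb1⟩
      · by_cases hb2 : tBad P.1.2.1 P.2.2 (r + 1)
        · exact Or.inr (Or.inl ⟨h1, h2, hb2⟩)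
        · exact Or.inr (Or.inr ⟨h1, h2, ⟨hb1, hb2⟩, h3⟩)
    · refine (cn_or _ _).trans (Nat.add_le_add hE1 ?_)
      exact (cn_or _ _).trans (Nat.add_le_add_right hE2 _)
  have hcovR : (Set.ncard {P : (((Fin (m+1) → Fin k → Fin (m+1)) × (Fin (m+1) → Bool)) ×
          ((Fin (m+1) → Fin k → Fin (m+1)) × (Fin (m+1) → Bool))) × (Fin (m+1) × Fin (m+1)) |
        P.1.1.1 ∈ S ∧ P.1.2.1 ∈ S ∧ Tw P.1.1 P.1.2 P.2.1 P.2.2} : ℝ) ≤
      (bs:ℝ) * (2 ^ (m+1) * (N * (2 ^ (m+1) * n))) +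
      ((bs:ℝ) * (2 ^ (m+1) * (N * (2 ^ (m+1) * n))) +
      (Set.ncard {P : (((Fin (m+1) → Fin k → Fin (m+1)) × (Fin (m+1) → Bool)) ×
          ((Fin (m+1) → Fin k → Fin (m+1)) × (Fin (m+1) → Bool))) × (Fin (m+1) × Fin (m+1)) |
        P.1.1.1 ∈ S ∧ P.1.2.1 ∈ S ∧ (¬ tBad P.1.1.1 P.2.1 (r+1) ∧ ¬ tBad P.1.2.1 P.2.2 (r+1)) ∧
        Tw P.1.1 P.1.2 P.2.1 P.2.2} : ℝ)) := by
    rw [hn, hN]
    exact_mod_cast hcov
  refine hcovR.trans ?_
  rw [hn']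
  have h4 : (4:ℝ) ^ (m+1) = 2 ^ (m+1) * 2 ^ (m+1) := by
    rw [← mul_pow]; norm_num
  set P2 : ℝ := (2:ℝ) ^ (m+1) with hP2
  have hP20 : 0 < P2 := by positivity
  -- first two terms
  have hb1 : (bs:ℝ) * (P2 * (N * (P2 * n))) ≤ ε / 4 * n ^ 2 * (N * P2) ^ 2 := by
    have h1 : (bs:ℝ) * (P2 * (N * (P2 * n))) ≤ (4 * K ^ 12 * N) * (P2 * (N * (P2 * n))) :=
      mul_le_mul_of_nonneg_right hBS2 (by positivity)
    have h2 : (4 * K ^ 12 * N) * (P2 * (N * (P2 * n))) = (4 * K ^ 12) * (n * (N * P2) ^ 2) := by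
      ring
    have h3 : (4 * K ^ 12) * (n * (N * P2) ^ 2) ≤ (ε / 4 * n) * (n * (N * P2) ^ 2) := by
      apply mul_le_mul_of_nonneg_right _ (by positivity)
      linarith
    calc _ ≤ _ := h1
      _ = _ := h2
      _ ≤ _ := h3
      _ = _ := by ring
  have hb3 : (N * N * (n * n)) * ((n * n) * ((3/4 : ℝ) ^ (k ^ r / 5) * 4 ^ (m+1))) ≤
      ε / 2 * n ^ 2 * (N * P2) ^ 2 := by
    rw [h4]
    have h1 : (N * N * (n * n)) * ((n * n) * ((3/4 : ℝ) ^ (k ^ r / 5) * (P2 * P2))) =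
        (n * n * (3/4 : ℝ) ^ (k ^ r / 5)) * (n ^ 2 * (N * P2) ^ 2) := by ring
    rw [h1]
    have h2 : (n * n * (3/4 : ℝ) ^ (k ^ r / 5)) * (n ^ 2 * (N * P2) ^ 2) ≤
        (ε / 2) * (n ^ 2 * (N * P2) ^ 2) := mul_le_mul_of_nonneg_right hc (by positivity)
    refine h2.trans (le_of_eq ?_)
    ring
  have hfin : ε / 4 * n ^ 2 * (N * P2) ^ 2 + (ε / 4 * n ^ 2 * (N * P2) ^ 2 +
      ε / 2 * n ^ 2 * (N * P2) ^ 2) = ε * n ^ 2 * (N * P2) ^ 2 := by ring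
  rw [← hfin]
  exact add_le_add hb1 (add_le_add hb1 (hE3.trans hb3))

end AS

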