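import Pool.Agent.Helper949.ASX.Defs
import Pool.Agent.Helper949.ASX.E1
import Pool.Agent.Helper949.ASX.B3

set_option autoImplicit false

namespace RA
variable {V : Type} {k : ℕ}
end RA

namespace SI
variable {V : Type} {k : ℕ}
end SI

namespace AS
open Finset

end AS

namespace SI
end SI

namespace AS
open Finset SI
end AS

namespace AS
open Finset SI
variable {V : Type} [Fintype V] [DecidableEq V] {k : ℕ}
/-! GIVEN -/
omit [Fintype V] [DecidableEq V] in
private theorem traj_congrR (T T' : V → Fin k → V) (o : V) (W : ℕ → Fin k) (n : ℕ)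
    (h : ∀ i < n, T' (traj T o W i) (W i) = T (traj T o W i) (W i)) :
    ∀ i ≤ n, traj T' o W i = traj T o W i := by
  intro i
  induction i with
  | zero => intro _; rfl
  | succ i ih =>
    intro hi
    have h1 := ih (by omega)
    show T' (traj T' o W i) (W i) = T (traj T o W i) (W i)
    rw [h1]
    exact h i (by omega)

omit [Fintype V] [DecidableEq V] in
private theorem nice_congrR (T T' : V → Fin k → V) (B : Finset V) (o x : V) (W : ℕ → Fin k) (L : ℕ)
    (h : ∀ i < L, T' (cell T o W i).1 (cell T o W i).2 = T (cell T o W i).1 (cell T o W i).2)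
    (hN : Nice T B o x W L) :
    Nice T' B o x W L ∧ ∀ i < L, cell T' o W i = cell T o W i := by
  have h1 := traj_congrR T T' o W L h
  refine ⟨⟨?_, ?_, ?_⟩, ?_⟩
  · rw [h1 L (le_refl L)]
    exact hN.1
  · intro i hi
    rw [h1 i hi.le]
    exact hN.2.1 i hi
  · intro i j hij hj
    rw [h1 i (by omega), h1 j hj.le]
    exact hN.2.2 i j hij hj
  · intro i hi
    unfold cell
    rw [h1 i hi.le]

private theorem arith_R (a OR O0 e P D M c : ℝ) (h1 : a * O0 * D ≤ OR * e * P) (h2 : e * M ≤ c * O0)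
    (hO : 0 < O0) (hD : 0 < D) (hOR : 0 ≤ OR) (hP : 0 ≤ P) (hM : 0 ≤ M) :
    a * M ≤ P / D * c * OR := by
  have h3 : P / D * c * OR = (P * c * OR) / D := by ring
  rw [h3, le_div_iff₀ hD]
  refine le_of_mul_le_mul_right ?_ hO
  calc a * M * D * O0 = a * O0 * D * M := by ring
    _ ≤ OR * e * P * M := mul_le_mul_of_nonneg_right h1 hM
    _ = (OR * P) * (e * M) := by ring
    _ ≤ (OR * P) * (c * O0) := mul_le_mul_of_nonneg_left h2 (mul_nonneg hOR hP)
    _ = P * c * OR * O0 := by ring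

private theorem combR (T0 : V → Fin k → V) (X : Finset (V × Fin k)) (K R : Finset V)
    (hRK : Disjoint R K) (L : ℕ) (hR : 2 * L < R.card) (E : (V → Fin k → V) → Prop)
    (Zf : (V → Fin k → V) → Finset (V × Fin k))
    (h1 : ∀ T ∈ Om T0 X K ∅, E T → (Zf T).card ≤ 2 * L ∧ Disjoint (Zf T) X)
    (h2 : ∀ T ∈ Om T0 X K ∅, E T → ∀ T' ∈ Om T0 X K ∅,
      (∀ c ∈ Zf T, T' c.1 c.2 = T c.1 c.2) → E T' ∧ Zf T' = Zf T)
    (c m : ℕ)
    (h3 : Set.ncard {T | T ∈ Om T0 X K ∅ ∧ E T} * (Fintype.card V - K.card) ^ m ≤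
      c * (Om T0 X K ∅).card) :
    (Set.ncard {T | T ∈ Om T0 X K R ∧ E T} : ℝ) * ((Fintype.card V : ℝ) - K.card) ^ m
      ≤ (((Fintype.card V : ℝ) - K.card) / (R.card - 2 * L)) ^ (2 * L) * (c : ℝ)
        * (Om T0 X K R).card := by
  have hRKc : R.card ≤ Fintype.card V - K.card := by
    rw [← Finset.card_compl]
    exact Finset.card_le_card fun r hr => Finset.mem_compl.2 (Finset.disjoint_left.1 hRK hr)
  have hKV : K.card ≤ Fintype.card V := Finset.card_le_univ K
  have hcast : ((Fintype.card V - K.card : ℕ) : ℝ) = (Fintype.card V : ℝ) - K.card :=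
    Nat.cast_sub hKV
  have hpos : 0 < Fintype.card V - K.card := by omega
  have hposR : (0 : ℝ) < (Fintype.card V : ℝ) - K.card := by
    rw [← hcast]; exact_mod_cast hpos
  have hO : 0 < (Om T0 X K ∅).card := by
    rw [card_Om_empty]
    exact pow_pos hpos _
  have hc := cert T0 X K R hRK (2 * L) hR {T | E T} Zf h1 h2
  have hL : ((2 * L : ℕ) : ℝ) = 2 * (L : ℝ) := by push_cast; ring
  rw [hL] at hc
  have hD0 : (0 : ℝ) < (R.card : ℝ) - 2 * L := by
    have : ((2 * L : ℕ) : ℝ) < (R.card : ℝ) := by exact_mod_cast hR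
    rw [hL] at this
    linarith
  have h3' : (Set.ncard {T | T ∈ Om T0 X K ∅ ∧ E T} : ℝ) *
      ((Fintype.card V : ℝ) - K.card) ^ m ≤ (c : ℝ) * ((Om T0 X K ∅).card : ℝ) := by
    rw [← hcast]
    exact_mod_cast h3
  rw [div_pow]
  exact arith_R _ _ _ _ _ _ _ _ hc h3' (by exact_mod_cast hO) (pow_pos hD0 _)
    (Nat.cast_nonneg _) (pow_nonneg hposR.le _) (pow_nonneg hposR.le _)

omit [Fintype V] in
private theorem card_im (T : V → Fin k → V) (o : V) (W : ℕ → Fin k) (L : ℕ) :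
    ((Finset.range L).image (cell T o W)).card ≤ L :=
  Finset.card_image_le.trans (le_of_eq (Finset.card_range L))

omit [Fintype V] in
private theorem disj_im {T : V → Fin k → V} {B : Finset V} {o x : V} {W : ℕ → Fin k} {L : ℕ}
    (h : Nice T B o x W L) {X : Finset (V × Fin k)} (hXB : ∀ c ∈ X, c.1 ∈ B) :
    Disjoint ((Finset.range L).image (cell T o W)) X := by
  rw [Finset.disjoint_left]
  intro c hc hcX
  obtain ⟨i, hi, rfl⟩ := Finset.mem_image.1 hc
  exact h.2.1 i (Finset.mem_range.1 hi) (hXB _ hcX)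

omit [Fintype V] in
private theorem im_congr {T T' : V → Fin k → V} {o : V} {W : ℕ → Fin k} {L : ℕ}
    (h : ∀ i < L, cell T' o W i = cell T o W i) :
    (Finset.range L).image (cell T' o W) = (Finset.range L).image (cell T o W) :=
  Finset.image_congr fun i hi => h i (Finset.mem_range.1 (Finset.mem_coe.1 hi))

/-- two walks -/
private theorem twoR (T0 : V → Fin k → V) (X : Finset (V × Fin k)) (K B R : Finset V) (o : V)
    (hXB : ∀ c ∈ X, c.1 ∈ B) (hRK : Disjoint R K) (x x' : V)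
    (W W' : ℕ → Fin k) (L : ℕ) (hR : 2 * L < R.card) (c m : ℕ)
    (h3 : Set.ncard {T | T ∈ Om T0 X K ∅ ∧ (Nice T B o x W L ∧ Nice T B o x' W' L)} *
      (Fintype.card V - K.card) ^ m ≤ c * (Om T0 X K ∅).card) :
    (Set.ncard {T | T ∈ Om T0 X K R ∧ (Nice T B o x W L ∧ Nice T B o x' W' L)} : ℝ) *
      ((Fintype.card V : ℝ) - K.card) ^ m
      ≤ (((Fintype.card V : ℝ) - K.card) / (R.card - 2 * L)) ^ (2 * L) * (c : ℝ)
        * (Om T0 X K R).card := by
  refine combR T0 X K R hRK L hR (fun T => Nice T B o x W L ∧ Nice T B o x' W' L)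
    (fun T => (Finset.range L).image (cell T o W) ∪ (Finset.range L).image (cell T o W'))
    ?_ ?_ c m h3
  · intro T _ hT
    refine ⟨?_, ?_⟩
    · refine (Finset.card_union_le _ _).trans ?_
      have := card_im T o W L
      have := card_im T o W' L
      omega
    · rw [Finset.disjoint_union_left]
      exact ⟨disj_im hT.1 hXB, disj_im hT.2 hXB⟩
  · intro T _ hT T' _ hTT
    have a1 := nice_congrR T T' B o x W L (fun i hi => hTT _ (Finset.mem_union_left _
      (Finset.mem_image_of_mem _ (Finset.mem_range.2 hi)))) hT.1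
    have a2 := nice_congrR T T' B o x' W' L (fun i hi => hTT _ (Finset.mem_union_right _
      (Finset.mem_image_of_mem _ (Finset.mem_range.2 hi)))) hT.2
    refine ⟨⟨a1.1, a2.1⟩, ?_⟩
    show (Finset.range L).image (cell T' o W) ∪ (Finset.range L).image (cell T' o W') =
      (Finset.range L).image (cell T o W) ∪ (Finset.range L).image (cell T o W')
    rw [im_congr a1.2, im_congr a2.2]

/-! TARGETS -/
theorem niceR_one (T0 : V → Fin k → V) (X : Finset (V × Fin k)) (K B R : Finset V) (o : V)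
    (hKB : K ⊆ B) (hXB : ∀ c ∈ X, c.1 ∈ B) (hRK : Disjoint R K) (x : V) (hxB : x ∈ B)
    (hxK : x ∉ K) (W : ℕ → Fin k) (L : ℕ) (hL : 1 ≤ L) (hR : 2 * L < R.card) :
    (Set.ncard {T | T ∈ Om T0 X K R ∧ Nice T B o x W L} : ℝ) * ((Fintype.card V : ℝ) - K.card)
      ≤ (((Fintype.card V : ℝ) - K.card) / (R.card - 2 * L)) ^ (2 * L) * (Om T0 X K R).card := by
  have h0 := nice_one T0 X K B o hKB hXB x hxB hxK W L hL
  have h := combR T0 X K R hRK L hR (fun T => Nice T B o x W L)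
    (fun T => (Finset.range L).image (cell T o W)) ?_ ?_ 1 1 (by rw [pow_one, one_mul]; exact h0)
  · rw [pow_one, Nat.cast_one, mul_one] at h
    exact h
  · intro T _ hT
    exact ⟨(card_im T o W L).trans (by omega), disj_im hT hXB⟩
  · intro T _ hT T' _ hTT
    have a1 := nice_congrR T T' B o x W L (fun i hi => hTT _
      (Finset.mem_image_of_mem _ (Finset.mem_range.2 hi))) hT
    exact ⟨a1.1, im_congr a1.2⟩

theorem niceR_two_ne (T0 : V → Fin k → V) (X : Finset (V × Fin k)) (K B R : Finset V) (o : V)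
    (hKB : K ⊆ B) (hXB : ∀ c ∈ X, c.1 ∈ B) (hRK : Disjoint R K) (x x' : V) (hxB : x ∈ B)
    (hxK : x ∉ K) (hxB' : x' ∈ B) (hxK' : x' ∉ K) (hne : x ≠ x')
    (W W' : ℕ → Fin k) (L : ℕ) (hL : 1 ≤ L) (hR : 2 * L < R.card) :
    (Set.ncard {T | T ∈ Om T0 X K R ∧ Nice T B o x W L ∧ Nice T B o x' W' L} : ℝ) *
        ((Fintype.card V : ℝ) - K.card) ^ 2
      ≤ (((Fintype.card V : ℝ) - K.card) / (R.card - 2 * L)) ^ (2 * L) * (Om T0 X K R).card := by
  have h0 := nice_two_ne T0 X K B o hKB hXB x x' hxB hxK hxB' hxK' hne W W' L hL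
  have h := twoR T0 X K B R o hXB hRK x x' W W' L hR 1 2 (by rw [one_mul]; exact h0)
  rw [Nat.cast_one, mul_one] at h
  exact h

theorem niceR_two_eq (T0 : V → Fin k → V) (X : Finset (V × Fin k)) (K B R : Finset V) (o : V)
    (hKB : K ⊆ B) (hXB : ∀ c ∈ X, c.1 ∈ B) (hRK : Disjoint R K) (x : V) (hxB : x ∈ B)
    (hxK : x ∉ K)
    (W W' : ℕ → Fin k) (L t : ℕ) (ht : t < L) (hW : W t ≠ W' t)
    (hW' : ∀ j, t < j → j < L → W j = W' j) (hR : 2 * L < R.card) :
    (Set.ncard {T | T ∈ Om T0 X K R ∧ Nice T B o x W L ∧ Nice T B o x W' L} : ℝ) *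
        ((Fintype.card V : ℝ) - K.card) ^ 2
      ≤ (((Fintype.card V : ℝ) - K.card) / (R.card - 2 * L)) ^ (2 * L) * ((L - t : ℕ) : ℝ)
        * (Om T0 X K R).card := by
  exact twoR T0 X K B R o hXB hRK x x W W' L hR (L - t) 2
    (nice_two_eq T0 X K B o hKB hXB x hxB hxK W W' L t ht hW hW')
end AS

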