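import Pool.Agent.Helper949.ASX.Defs
import Pool.Agent.Helper949.ASX.B4

set_option autoImplicit false

namespace RA
variable {V : Type} {k : ℕ}
end RA

namespace SI
variable {V : Type} {k : ℕ}
end SI

namespace AS
open Finset

end AS

namespace SI
end SI

namespace AS
open Finset SI
end AS

namespace AS
open Finset SI
variable {V : Type} [Fintype V] [DecidableEq V] {k : ℕ}
/-! GIVEN -/
/-! TARGET -/

/-- the sequence `o, e 0, ..., e (n-1), x, x, ...` -/
private def sqn (o x : V) {n : ℕ} {B : Finset V} (e : Fin n ↪ {v : V // v ∉ insert o B}) (i : ℕ) : V :=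
  match i with
  | 0 => o
  | i + 1 => if h : i < n then (e ⟨i, h⟩ : V) else x

private theorem sqn_notMem (o x : V) {n : ℕ} {B : Finset V} (hoB : o ∉ B)
    (e : Fin n ↪ {v : V // v ∉ insert o B}) (i : ℕ) (hi : i < n + 1) : sqn o x e i ∉ B := by
  cases i with
  | zero => exact hoB
  | succ i =>
    have hi' : i < n := by omega
    simp only [sqn, dif_pos hi']
    exact fun h => (e ⟨i, hi'⟩).2 (Finset.mem_insert_of_mem h)

private theorem sqn_last (o x : V) {n : ℕ} {B : Finset V}
    (e : Fin n ↪ {v : V // v ∉ insert o B}) : sqn o x e (n + 1) = x := by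
  simp [sqn]

private theorem sqn_inj (o x : V) {n : ℕ} {B : Finset V}
    (e : Fin n ↪ {v : V // v ∉ insert o B}) (i j : ℕ) (hi : i < n + 1) (hj : j < n + 1)
    (h : sqn o x e i = sqn o x e j) : i = j := by
  cases i with
  | zero =>
    cases j with
    | zero => rfl
    | succ j =>
      exfalso
      have hj' : j < n := by omega
      simp only [sqn, dif_pos hj'] at h
      exact (e ⟨j, hj'⟩).2 (by rw [← h]; exact Finset.mem_insert_self _ _)
  | succ i =>
    have hi' : i < n := by omega
    cases j with
    | zero =>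
      exfalso
      simp only [sqn, dif_pos hi'] at h
      exact (e ⟨i, hi'⟩).2 (by rw [h]; exact Finset.mem_insert_self _ _)
    | succ j =>
      have hj' : j < n := by omega
      simp only [sqn, dif_pos hi', dif_pos hj'] at h
      have := e.injective (Subtype.ext h)
      simp only [Fin.mk.injEq] at this
      omega

private theorem sqn_inj_succ (o x : V) {n : ℕ} {B : Finset V} (hoB : o ∉ B) (hxB : x ∈ B)
    (e : Fin n ↪ {v : V // v ∉ insert o B}) (i j : ℕ) (hi : i < n + 1) (hj : j < n + 1)
    (h : sqn o x e (i + 1) = sqn o x e (j + 1)) : i = j := by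
  by_cases hi' : i < n
  · by_cases hj' : j < n
    · have := sqn_inj o x e (i + 1) (j + 1) (by omega) (by omega) h
      omega
    · have hjn : j = n := by omega
      subst hjn
      exfalso
      rw [sqn_last] at h
      have h3 := sqn_notMem o x hoB e (i + 1) (by omega)
      rw [h] at h3
      exact h3 hxB
  · have hin : i = n := by omega
    subst hin
    by_cases hj' : j < i
    · exfalso
      rw [sqn_last] at h
      have h3 := sqn_notMem o x hoB e (j + 1) (by omega)
      rw [← h] at h3
      exact h3 hxB
    · omega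

open Classical in
/-- the prescribed table -/
private noncomputable def sgn (o x : V) {n : ℕ} {B : Finset V} (e : Fin n ↪ {v : V // v ∉ insert o B})
    (v : V) (_ : Fin k) : V :=
  if h : ∃ i, i < n + 1 ∧ sqn o x e i = v then sqn o x e (h.choose + 1) else v

private theorem sgn_eq (o x : V) {n : ℕ} {B : Finset V} (e : Fin n ↪ {v : V // v ∉ insert o B})
    (i : ℕ) (hi : i < n + 1) (a : Fin k) : sgn o x e (sqn o x e i) a = sqn o x e (i + 1) := by
  have h : ∃ j, j < n + 1 ∧ sqn o x e j = sqn o x e i := ⟨i, hi, rfl⟩
  unfold sgn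
  rw [dif_pos h]
  have := sqn_inj o x e _ _ h.choose_spec.1 hi h.choose_spec.2
  rw [this]

/-- the prescribed cells -/
private def Zn (o x : V) {n : ℕ} {B : Finset V} (e : Fin n ↪ {v : V // v ∉ insert o B}) (W : ℕ → Fin k) :
    Finset (V × Fin k) := (Finset.range (n + 1)).image (fun i => (sqn o x e i, W i))

private theorem Zn_card (o x : V) {n : ℕ} {B : Finset V} (e : Fin n ↪ {v : V // v ∉ insert o B})
    (W : ℕ → Fin k) : (Zn o x e W).card = n + 1 := by
  unfold Zn
  rw [Finset.card_image_of_injOn, Finset.card_range]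
  intro i hi j hj h
  simp only [Finset.coe_range, Set.mem_Iio] at hi hj
  exact sqn_inj o x e i j hi hj (congrArg Prod.fst h)

private theorem traj_eq_sqn (o x : V) {n : ℕ} {B : Finset V} (e : Fin n ↪ {v : V // v ∉ insert o B})
    (W : ℕ → Fin k) (T : V → Fin k → V) (hT : ∀ c ∈ Zn o x e W, T c.1 c.2 = sgn o x e c.1 c.2)
    (i : ℕ) (hi : i ≤ n + 1) : traj T o W i = sqn o x e i := by
  induction i with
  | zero => rfl
  | succ i ih =>
    have h1 := ih (by omega)
    show T (traj T o W i) (W i) = _
    rw [h1]
    have hm : (sqn o x e i, W i) ∈ Zn o x e W :=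
      Finset.mem_image.mpr ⟨i, Finset.mem_range.mpr (by omega), rfl⟩
    have := hT _ hm
    simp only at this
    rw [this, sgn_eq o x e i (by omega)]

theorem nice_lower (T0 : V → Fin k → V) (X : Finset (V × Fin k)) (K B : Finset V) (o : V)
    (hKB : K ⊆ B) (hXB : ∀ c ∈ X, c.1 ∈ B) (hoB : o ∉ B) (x : V) (hxB : x ∈ B)
    (hxK : x ∉ K) (W : ℕ → Fin k) (L : ℕ) (hL : 1 ≤ L) :
    (Fintype.card V - B.card - 1).descFactorial (L - 1) *
        (Om T0 X K ((Finset.univ \ K).erase o)).card
      ≤ Set.ncard {T | T ∈ Om T0 X K ((Finset.univ \ K).erase o) ∧ Nice T B o x W L}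
        * (Fintype.card V - K.card) ^ L := by
  classical
  obtain ⟨n, rfl⟩ : ∃ n, L = n + 1 := ⟨L - 1, by omega⟩
  set R := (Finset.univ \ K).erase o with hR
  set E := (Fin n ↪ {v : V // v ∉ insert o B}) with hE
  have hcard : Fintype.card E = (Fintype.card V - B.card - 1).descFactorial (n + 1 - 1) := by
    have h1 : Fintype.card E = (Fintype.card {v : V // v ∉ insert o B}).descFactorial
        (Fintype.card (Fin n)) := Fintype.card_embedding_eq
    have h2 : Fintype.card {v : V // v ∉ insert o B} = Fintype.card V - B.card - 1 := by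
      rw [Fintype.card_subtype_compl, Fintype.card_coe, Finset.card_insert_of_notMem hoB]
      omega
    rw [h1, h2, Fintype.card_fin]
    rfl
  let P : E → (V → Fin k → V) → Prop := fun e T => ∀ c ∈ Zn o x e W, T c.1 c.2 = sgn o x e c.1 c.2
  have hbound : ∀ e : E, (Om T0 X K R).card ≤
      ((Om T0 X K R).filter (P e)).card * (Fintype.card V - K.card) ^ (n + 1) := by
    intro e
    have h := prescribe_lower_Om T0 (sgn o x e) X (Zn o x e W) K R ?_ ?_ ?_ ?_
    · rw [Zn_card] at h
      have h2 : {T | T ∈ Om T0 X K R ∧ ∀ c ∈ Zn o x e W, T c.1 c.2 = sgn o x e c.1 c.2} =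
          (((Om T0 X K R).filter (P e) : Finset (V → Fin k → V)) : Set (V → Fin k → V)) := by
        ext T
        simp [P]
      rw [h2, Set.ncard_coe_finset] at h
      exact h
    · rw [Finset.disjoint_left]
      intro c hc hcX
      obtain ⟨i, hi, rfl⟩ := Finset.mem_image.mp hc
      exact sqn_notMem o x hoB e i (Finset.mem_range.mp hi) (hXB _ hcX)
    · rw [Finset.disjoint_left]
      intro v hv hvK
      rw [hR, Finset.mem_erase, Finset.mem_sdiff] at hv
      exact hv.2.2 hvK
    · intro c hc c' hc' h
      obtain ⟨i, hi, rfl⟩ := Finset.mem_image.mp (Finset.mem_coe.mp hc)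
      obtain ⟨j, hj, rfl⟩ := Finset.mem_image.mp (Finset.mem_coe.mp hc')
      have hi' := Finset.mem_range.mp hi
      have hj' := Finset.mem_range.mp hj
      simp only [sgn_eq o x e i hi', sgn_eq o x e j hj'] at h
      have := sqn_inj_succ o x hoB hxB e i j hi' hj' h
      rw [this]
    · intro c hc
      obtain ⟨i, hi, rfl⟩ := Finset.mem_image.mp hc
      have hi' := Finset.mem_range.mp hi
      simp only [sgn_eq o x e i hi']
      rw [hR, Finset.mem_erase, Finset.mem_sdiff]
      by_cases hin : i < n
      · have h1 := sqn_notMem o x hoB e (i + 1) (by omega)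
        refine ⟨fun h => ?_, Finset.mem_univ _, fun h => h1 (hKB h)⟩
        have := sqn_inj o x e (i + 1) 0 (by omega) (by omega) h
        omega
      · have : i = n := by omega
        subst this
        rw [sqn_last]
        exact ⟨fun h => hoB (h ▸ hxB), Finset.mem_univ _, hxK⟩
  have hnc : Set.ncard {T | T ∈ Om T0 X K R ∧ Nice T B o x W (n + 1)} =
      ((Om T0 X K R).filter (fun T => Nice T B o x W (n + 1))).card := by
    have h2 : {T | T ∈ Om T0 X K R ∧ Nice T B o x W (n + 1)} =
        (((Om T0 X K R).filter (fun T => Nice T B o x W (n + 1)) : Finset (V → Fin k → V)) :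
          Set (V → Fin k → V)) := by
      ext T
      simp
    rw [h2, Set.ncard_coe_finset]
  rw [hnc]
  have hsum : ∑ e : E, ((Om T0 X K R).filter (P e)).card ≤
      ((Om T0 X K R).filter (fun T => Nice T B o x W (n + 1))).card := by
    rw [← Finset.card_biUnion]
    · apply Finset.card_le_card
      intro T hT
      obtain ⟨e, -, he⟩ := Finset.mem_biUnion.mp hT
      obtain ⟨hT1, hT2⟩ := Finset.mem_filter.mp he
      refine Finset.mem_filter.mpr ⟨hT1, ?_, ?_, ?_⟩
      · rw [traj_eq_sqn o x e W T hT2 (n + 1) le_rfl, sqn_last]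
      · intro i hi
        rw [traj_eq_sqn o x e W T hT2 i hi.le]
        exact sqn_notMem o x hoB e i hi
      · intro i j hij hj
        rw [traj_eq_sqn o x e W T hT2 i (by omega), traj_eq_sqn o x e W T hT2 j (by omega)]
        intro h
        have := sqn_inj o x e i j (by omega) (by omega) h
        omega
    · intro e _ e' _ hne
      show Disjoint (filter (P e) (Om T0 X K R)) (filter (P e') (Om T0 X K R))
      rw [Finset.disjoint_left]
      intro T hT hT'
      apply hne
      have h1 := (Finset.mem_filter.mp hT).2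
      have h2 := (Finset.mem_filter.mp hT').2
      apply Function.Embedding.ext
      intro i
      apply Subtype.ext
      have a1 := traj_eq_sqn o x e W T h1 (i.1 + 1) (by omega)
      have a2 := traj_eq_sqn o x e' W T h2 (i.1 + 1) (by omega)
      rw [a1] at a2
      simp only [sqn, dif_pos i.2] at a2
      exact a2
  calc (Fintype.card V - B.card - 1).descFactorial (n + 1 - 1) * (Om T0 X K R).card
      = ∑ _e : E, (Om T0 X K R).card := by
        rw [Finset.sum_const, Finset.card_univ, hcard, smul_eq_mul]
    _ ≤ ∑ e : E, ((Om T0 X K R).filter (P e)).card * (Fintype.card V - K.card) ^ (n + 1) :=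
        Finset.sum_le_sum (fun e _ => hbound e)
    _ = (∑ e : E, ((Om T0 X K R).filter (P e)).card) * (Fintype.card V - K.card) ^ (n + 1) := by
        rw [Finset.sum_mul]
    _ ≤ _ := Nat.mul_le_mul_right _ hsum
end AS

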