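import Pool.Agent.Helper949.ASX.Defs
import Pool.Agent.Helper949.ASX.E2
import Pool.Agent.Helper949.ASX.E3

set_option autoImplicit false

namespace RA
variable {V : Type} {k : ℕ}
end RA

namespace SI
variable {V : Type} {k : ℕ}
end SI

namespace AS
open Finset

end AS

namespace SI
end SI

namespace AS
open Finset SI
end AS

namespace AS
open Finset SI
/-! GIVEN -/
section
variable {V : Type} [Fintype V] [DecidableEq V] {k : ℕ}
end

/-! TARGET -/

open Classical in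
/-- Cauchy-Schwarz for the number of hits -/
private theorem sm_cs {α β I : Type} [Fintype I] (Ω1 : Finset α) (Ω2 : Finset β) (p : α → I → Prop)
    (q : β → I → Prop) (lo : ℝ) (hlo0 : 0 ≤ lo)
    (hlo : ∀ u, lo ≤ ((Ω1.filter (fun T => p T u)).card : ℝ) *
      ((Ω2.filter (fun T => q T u)).card : ℝ))
    (κ : I → I → ℝ) (hκ : ∀ u v, ((Ω1.filter (fun T => p T u ∧ p T v)).card : ℝ) *
      ((Ω2.filter (fun T => q T u ∧ q T v)).card : ℝ) ≤ κ u v) :
    (Fintype.card I * lo) ^ 2 ≤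
      (((Ω1 ×ˢ Ω2).filter (fun P => ∃ u, p P.1 u ∧ q P.2 u)).card : ℝ) * ∑ u, ∑ v, κ u v := by
  set N : α × β → ℝ := fun P => ∑ u, if p P.1 u ∧ q P.2 u then (1:ℝ) else 0 with hN
  have hprod : ∀ (A : α → Prop) (B : β → Prop),
      ∑ P ∈ Ω1 ×ˢ Ω2, (if A P.1 ∧ B P.2 then (1:ℝ) else 0) =
        ((Ω1.filter A).card : ℝ) * ((Ω2.filter B).card : ℝ) := by
    intro A B
    rw [Finset.sum_boole, ← Nat.cast_mul, ← Finset.card_product]
    congr 2
    ext P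
    simp only [Finset.mem_filter, Finset.mem_product]
    tauto
  have h1 : Fintype.card I * lo ≤ ∑ P ∈ Ω1 ×ˢ Ω2, N P := by
    rw [hN, Finset.sum_comm]
    have : ∑ _u : I, lo = Fintype.card I * lo := by
      rw [Finset.sum_const, Finset.card_univ, nsmul_eq_mul]
    rw [← this]
    refine Finset.sum_le_sum fun u _ => ?_
    rw [hprod (fun T => p T u) (fun T => q T u)]
    exact hlo u
  have h2 : ∑ P ∈ Ω1 ×ˢ Ω2, N P ^ 2 ≤ ∑ u, ∑ v, κ u v := by
    have e : ∀ P : α × β, N P ^ 2 = ∑ u, ∑ v,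
        if (p P.1 u ∧ p P.1 v) ∧ (q P.2 u ∧ q P.2 v) then (1:ℝ) else 0 := by
      intro P
      rw [sq, hN, Finset.sum_mul_sum]
      refine Finset.sum_congr rfl fun u _ => Finset.sum_congr rfl fun v _ => ?_
      by_cases a1 : p P.1 u <;> by_cases a2 : p P.1 v <;> by_cases a3 : q P.2 u <;>
        by_cases a4 : q P.2 v <;> simp [a1, a2, a3, a4]
    simp_rw [e]
    rw [Finset.sum_comm]
    refine Finset.sum_le_sum fun u _ => ?_
    rw [Finset.sum_comm]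
    refine Finset.sum_le_sum fun v _ => ?_
    refine le_of_eq_of_le ?_ (hκ u v)
    convert hprod (fun T => p T u ∧ p T v) (fun T => q T u ∧ q T v)
  have h3 : ∑ P ∈ Ω1 ×ˢ Ω2, N P =
      ∑ P ∈ (Ω1 ×ˢ Ω2).filter (fun P => ∃ u, p P.1 u ∧ q P.2 u), N P := by
    rw [Finset.sum_filter]
    refine Finset.sum_congr rfl fun P _ => ?_
    split_ifs with h
    · rfl
    · push Not at h
      rw [hN]
      refine Finset.sum_eq_zero fun u _ => ?_
      rw [if_neg]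
      rintro ⟨c1, c2⟩
      exact h u c1 c2
  have h4 : (∑ P ∈ (Ω1 ×ˢ Ω2).filter (fun P => ∃ u, p P.1 u ∧ q P.2 u), N P) ^ 2 ≤
      (((Ω1 ×ˢ Ω2).filter (fun P => ∃ u, p P.1 u ∧ q P.2 u)).card : ℝ) *
        ∑ P ∈ (Ω1 ×ˢ Ω2).filter (fun P => ∃ u, p P.1 u ∧ q P.2 u), N P ^ 2 :=
    sq_sum_le_card_mul_sum_sq
  have h5 : ∑ P ∈ (Ω1 ×ˢ Ω2).filter (fun P => ∃ u, p P.1 u ∧ q P.2 u), N P ^ 2 ≤
      ∑ P ∈ Ω1 ×ˢ Ω2, N P ^ 2 :=
    Finset.sum_le_sum_of_subset_of_nonneg (Finset.filter_subset _ _) fun P _ _ => sq_nonneg _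
  calc (Fintype.card I * lo) ^ 2 ≤ (∑ P ∈ Ω1 ×ˢ Ω2, N P) ^ 2 := by
        have : 0 ≤ Fintype.card I * lo := by positivity
        gcongr
    _ ≤ _ := by
        rw [h3]
        refine h4.trans ?_
        gcongr
        exact h5.trans h2

/-- the arithmetic of the weights -/
private theorem sm_S (k : ℕ) (hk : 2 ≤ k) (L : ℕ) :
    (∑ t ∈ Finset.range L, ((L - t : ℕ) : ℝ) ^ 2 * (k : ℝ) ^ (t + 1)) * 2 ^ L +
      (2 * (L : ℝ) ^ 2 + 8 * L + 12) * (k : ℝ) ^ L ≤ 12 * 2 ^ L * (k : ℝ) ^ L := by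
  have hk' : (2:ℝ) ≤ k := by exact_mod_cast hk
  induction L with
  | zero => simp
  | succ L ih =>
    rw [Finset.sum_range_succ']
    have e1 : ∑ t ∈ Finset.range L, ((L + 1 - (t + 1) : ℕ) : ℝ) ^ 2 * (k : ℝ) ^ (t + 1 + 1) =
        k * ∑ t ∈ Finset.range L, ((L - t : ℕ) : ℝ) ^ 2 * (k : ℝ) ^ (t + 1) := by
      rw [Finset.mul_sum]
      refine Finset.sum_congr rfl fun t _ => ?_
      rw [Nat.add_sub_add_right]
      ring
    rw [e1]
    have e2 : (2:ℝ) ^ L ≤ (k : ℝ) ^ L := by gcongr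
    have e3 : (2:ℝ) ^ L * (((L : ℝ) + 1) ^ 2 * k * 2) ≤ (k : ℝ) ^ L * (((L : ℝ) + 1) ^ 2 * k * 2) := by
      gcongr
    have e4 := mul_le_mul_of_nonneg_left ih (show (0:ℝ) ≤ 2 * k by positivity)
    have p1 : (2:ℝ) ^ (L + 1) = 2 ^ L * 2 := pow_succ _ _
    have p2 : (k:ℝ) ^ (L + 1) = (k:ℝ) ^ L * k := pow_succ _ _
    rw [p1, p2, Nat.sub_zero, zero_add, pow_one]
    push_cast
    linear_combination e4 + e3

/-- pairs of words which agree after `t` -/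
private theorem sm_count (k L t : ℕ) (ht : t < L) :
    (((Finset.univ : Finset ((Fin L → Fin k) × (Fin L → Fin k))).filter
      (fun zz => ∀ s : Fin L, t < s.1 → zz.1 s = zz.2 s)).card : ℝ) ≤ (k : ℝ) ^ L * (k : ℝ) ^ (t + 1) := by
  have h1 : ((Finset.univ : Finset ((Fin L → Fin k) × (Fin L → Fin k))).filter
      (fun zz => ∀ s : Fin L, t < s.1 → zz.1 s = zz.2 s)).card ≤
      (Finset.univ : Finset ((Fin L → Fin k) × (Fin (t + 1) → Fin k))).card := by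
    refine Finset.card_le_card_of_injOn
      (fun zz => (zz.1, fun s : Fin (t + 1) => zz.2 ⟨s.1, by omega⟩)) (fun _ _ => Finset.mem_univ _) ?_
    intro a ha b hb hab
    simp only [Prod.mk.injEq] at hab
    have ha' := (Finset.mem_filter.1 (Finset.mem_coe.1 ha)).2
    have hb' := (Finset.mem_filter.1 (Finset.mem_coe.1 hb)).2
    refine Prod.ext hab.1 (funext fun s => ?_)
    by_cases hs : t < s.1
    · rw [← ha' s hs, ← hb' s hs, hab.1]
    · have := congrFun hab.2 ⟨s.1, by omega⟩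
      exact this
  have h2 : (Finset.univ : Finset ((Fin L → Fin k) × (Fin (t + 1) → Fin k))).card =
      k ^ L * k ^ (t + 1) := by
    rw [Finset.card_univ, Fintype.card_prod]
    simp
  rw [h2] at h1
  exact_mod_cast h1


open Classical in
private theorem sm_T2 (k : ℕ) (hk : 2 ≤ k) (L : ℕ) :
    ∑ z : Fin L → Fin k, ∑ z' : Fin L → Fin k, ∑ t ∈ Finset.range L,
      (if ∀ s : Fin L, t < s.1 → z s = z' s then ((L - t : ℕ) : ℝ) ^ 2 else 0) ≤
      12 * ((k : ℝ) ^ L) ^ 2 := by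
  have h1 : ∑ z : Fin L → Fin k, ∑ z' : Fin L → Fin k, ∑ t ∈ Finset.range L,
      (if ∀ s : Fin L, t < s.1 → z s = z' s then ((L - t : ℕ) : ℝ) ^ 2 else 0) =
      ∑ t ∈ Finset.range L, ((L - t : ℕ) : ℝ) ^ 2 *
        (((Finset.univ : Finset ((Fin L → Fin k) × (Fin L → Fin k))).filter
          (fun zz => ∀ s : Fin L, t < s.1 → zz.1 s = zz.2 s)).card : ℝ) := by
    refine Eq.trans (Fintype.sum_prod_type (fun zz : (Fin L → Fin k) × (Fin L → Fin k) =>
      ∑ t ∈ Finset.range L,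
      (if ∀ s : Fin L, t < s.1 → zz.1 s = zz.2 s then ((L - t : ℕ) : ℝ) ^ 2 else 0))).symm ?_
    rw [Finset.sum_comm]
    refine Finset.sum_congr rfl fun t _ => ?_
    rw [← Finset.sum_boole, Finset.mul_sum]
    refine Finset.sum_congr rfl fun zz _ => ?_
    rw [mul_ite, mul_one, mul_zero]
  rw [h1]
  have hS := sm_S k hk L
  have hk0 : (0:ℝ) < k := by exact_mod_cast (by omega : 0 < k)
  have hS2 : ∑ t ∈ Finset.range L, ((L - t : ℕ) : ℝ) ^ 2 * (k : ℝ) ^ (t + 1) ≤ 12 * (k : ℝ) ^ L := by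
    have h2 : (0:ℝ) < 2 ^ L := by positivity
    have h3 : (0:ℝ) ≤ (2 * (L : ℝ) ^ 2 + 8 * L + 12) * (k : ℝ) ^ L := by positivity
    refine le_of_mul_le_mul_right ?_ h2
    linarith
  calc _ ≤ ∑ t ∈ Finset.range L, ((L - t : ℕ) : ℝ) ^ 2 * ((k : ℝ) ^ L * (k : ℝ) ^ (t + 1)) := by
        refine Finset.sum_le_sum fun t ht => ?_
        gcongr
        exact sm_count k L t (Finset.mem_range.1 ht)
    _ = (k : ℝ) ^ L * ∑ t ∈ Finset.range L, ((L - t : ℕ) : ℝ) ^ 2 * (k : ℝ) ^ (t + 1) := by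
        rw [Finset.mul_sum]
        exact Finset.sum_congr rfl fun t _ => by ring
    _ ≤ (k : ℝ) ^ L * (12 * (k : ℝ) ^ L) := by gcongr
    _ = _ := by ring

open Classical in
/-- the kernel of the second moment -/
private noncomputable def smK (k L M : ℕ) (C Q : ℝ) (u v : Fin M × (Fin L → Fin k)) : ℝ :=
  C * (1 / Q ^ 2 + (if u.1 = v.1 then (∑ t ∈ Finset.range L,
      (if ∀ s : Fin L, t < s.1 → u.2 s = v.2 s then ((L - t : ℕ) : ℝ) ^ 2 else 0)) / Q ^ 2 else 0)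
    + (if u = v then 1 / Q else 0))

private theorem sm_kernel (k L M : ℕ) (hk : 2 ≤ k) (C Q : ℝ) (hC : 0 ≤ C) (hQ : 0 < Q) :
    ∑ u, ∑ v, smK k L M C Q u v ≤ C * (((M : ℝ) * (k : ℝ) ^ L) ^ 2 / Q ^ 2 +
      12 * M * ((k : ℝ) ^ L) ^ 2 / Q ^ 2 + M * (k : ℝ) ^ L / Q) := by
  classical
  unfold smK
  simp only [← Finset.mul_sum, Finset.sum_add_distrib]
  gcongr
  · rw [Finset.sum_const, Finset.sum_const, Finset.card_univ, Fintype.card_prod]
    simp
    ring_nf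
    exact le_rfl
  · rw [Fintype.sum_prod_type]
    have h1 : ∀ i : Fin M, ∑ z : Fin L → Fin k, ∑ v : Fin M × (Fin L → Fin k),
        (if i = v.1 then (∑ t ∈ Finset.range L,
          (if ∀ s : Fin L, t < s.1 → z s = v.2 s then ((L - t : ℕ) : ℝ) ^ 2 else 0)) / Q ^ 2 else 0)
        = (∑ z : Fin L → Fin k, ∑ z' : Fin L → Fin k, ∑ t ∈ Finset.range L,
          (if ∀ s : Fin L, t < s.1 → z s = z' s then ((L - t : ℕ) : ℝ) ^ 2 else 0)) / Q ^ 2 := by
      intro i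
      rw [Finset.sum_div]
      refine Finset.sum_congr rfl fun z _ => ?_
      rw [Fintype.sum_prod_type, Finset.sum_eq_single i, Finset.sum_div]
      · simp
      · intro j _ hj
        simp [hj.symm]
      · intro h; exact absurd (Finset.mem_univ _) h
    rw [Finset.sum_congr rfl (fun i _ => h1 i), Finset.sum_const, Finset.card_univ,
      Fintype.card_fin, nsmul_eq_mul, mul_div_assoc']
    have h2 := sm_T2 k hk L
    have : (M : ℝ) * ∑ z : Fin L → Fin k, ∑ z' : Fin L → Fin k, ∑ t ∈ Finset.range L,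
      (if ∀ s : Fin L, t < s.1 → z s = z' s then ((L - t : ℕ) : ℝ) ^ 2 else 0) ≤
      12 * M * ((k : ℝ) ^ L) ^ 2 := by
      calc _ ≤ (M : ℝ) * (12 * ((k : ℝ) ^ L) ^ 2) := by gcongr
        _ = _ := by ring
    gcongr
  · have h1 : ∀ u : Fin M × (Fin L → Fin k), ∑ v, (if u = v then 1 / Q else 0) = 1 / Q := by
      intro u; simp
    rw [Finset.sum_congr rfl (fun u _ => h1 u), Finset.sum_const, Finset.card_univ,
      Fintype.card_prod]
    simp
    ring_nf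
    exact le_rfl


/-- the bounds for one side -/
private structure SmSide {k L M : ℕ} [NeZero k]
    (A : Fin M × (Fin L → Fin k) → Fin M × (Fin L → Fin k) → ℝ) (m c : ℝ) : Prop where
  nn : ∀ u v, 0 ≤ A u v
  ne : ∀ u v, u.1 ≠ v.1 → A u v * m ^ 2 ≤ c
  eq : ∀ u v, u.1 = v.1 → ∀ t, t < L → SI.ext u.2 t ≠ SI.ext v.2 t →
    (∀ j, t < j → j < L → SI.ext u.2 j = SI.ext v.2 j) → A u v * m ^ 2 ≤ c * ((L - t : ℕ) : ℝ)
  one : ∀ u, A u u * m ≤ c

private theorem sm_last {k L : ℕ} [NeZero k] (z z' : Fin L → Fin k) (h : z ≠ z') :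
    ∃ t, t < L ∧ SI.ext z t ≠ SI.ext z' t ∧
      ∀ j, t < j → j < L → SI.ext z j = SI.ext z' j := by
  classical
  have hne : ((Finset.univ : Finset (Fin L)).filter (fun s => z s ≠ z' s)).Nonempty := by
    by_contra hcon
    rw [Finset.not_nonempty_iff_eq_empty] at hcon
    apply h
    funext s
    by_contra hs
    have : s ∈ (Finset.univ : Finset (Fin L)).filter (fun s => z s ≠ z' s) := by simp [hs]
    rw [hcon] at this
    simp at this
  set t := ((Finset.univ : Finset (Fin L)).filter (fun s => z s ≠ z' s)).max' hne with ht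
  have htm : t ∈ (Finset.univ : Finset (Fin L)).filter (fun s => z s ≠ z' s) :=
    Finset.max'_mem _ _
  have hext : ∀ (y : Fin L → Fin k) (j : ℕ) (hj : j < L), SI.ext y j = y ⟨j, hj⟩ := by
    intro y j hj
    simp [SI.ext, hj]
  refine ⟨t.1, t.2, ?_, fun j hj hjL => ?_⟩
  · rw [hext z t.1 t.2, hext z' t.1 t.2]
    exact (Finset.mem_filter.1 htm).2
  · rw [hext z j hjL, hext z' j hjL]
    by_contra hne2
    have hmem : (⟨j, hjL⟩ : Fin L) ∈ (Finset.univ : Finset (Fin L)).filter (fun s => z s ≠ z' s) := by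
      simp [hne2]
    have hle := Finset.le_max' _ _ hmem
    rw [← ht] at hle
    have : j ≤ t.1 := hle
    omega

private theorem sm_combine {k L M : ℕ} [NeZero k]
    (A1 A2 : Fin M × (Fin L → Fin k) → Fin M × (Fin L → Fin k) → ℝ) (m1 m2 c1 c2 : ℝ)
    (hm1 : 0 < m1) (hm2 : 0 < m2) (hc1 : 0 ≤ c1) (hc2 : 0 ≤ c2)
    (H1 : SmSide A1 m1 c1) (H2 : SmSide A2 m2 c2) (u v : Fin M × (Fin L → Fin k)) :
    A1 u v * A2 u v ≤ smK k L M (c1 * c2) (m1 * m2) u v := by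
  classical
  have hQ : 0 < m1 * m2 := mul_pos hm1 hm2
  have hC : 0 ≤ c1 * c2 := mul_nonneg hc1 hc2
  have n1 := H1.nn u v
  have n2 := H2.nn u v
  have hT : 0 ≤ ∑ t ∈ Finset.range L,
      (if ∀ s : Fin L, t < s.1 → u.2 s = v.2 s then ((L - t : ℕ) : ℝ) ^ 2 else 0) :=
    Finset.sum_nonneg fun t _ => by split_ifs <;> positivity
  have p1 : 0 ≤ 1 / (m1 * m2) ^ 2 := by positivity
  have p2 : 0 ≤ (if u.1 = v.1 then (∑ t ∈ Finset.range L,
      (if ∀ s : Fin L, t < s.1 → u.2 s = v.2 s then ((L - t : ℕ) : ℝ) ^ 2 else 0)) /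
        (m1 * m2) ^ 2 else 0) := by
    split_ifs
    · positivity
    · exact le_rfl
  have p3 : 0 ≤ (if u = v then 1 / (m1 * m2) else 0) := by
    split_ifs
    · positivity
    · exact le_rfl
  unfold smK
  by_cases h1 : u.1 = v.1
  · by_cases h2 : u.2 = v.2
    · have huv : u = v := Prod.ext h1 h2
      subst huv
      have a1 := H1.one u
      have a2 := H2.one u
      have a3 : (A1 u u * A2 u u) * (m1 * m2) ≤ c1 * c2 := by
        calc (A1 u u * A2 u u) * (m1 * m2) = (A1 u u * m1) * (A2 u u * m2) := by ring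
          _ ≤ c1 * c2 := by gcongr
      have a4 : A1 u u * A2 u u ≤ c1 * c2 * (1 / (m1 * m2)) := by
        rw [mul_one_div, le_div_iff₀ hQ]; exact a3
      refine a4.trans ?_
      gcongr
      rw [if_pos (rfl : u = u)]
      linarith
    · obtain ⟨t, htL, ht1, ht2⟩ := sm_last u.2 v.2 h2
      have a1 := H1.eq u v h1 t htL ht1 ht2
      have a2 := H2.eq u v h1 t htL ht1 ht2
      have a3 : (A1 u v * A2 u v) * (m1 * m2) ^ 2 ≤ c1 * c2 * ((L - t : ℕ) : ℝ) ^ 2 := by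
        calc (A1 u v * A2 u v) * (m1 * m2) ^ 2 = (A1 u v * m1 ^ 2) * (A2 u v * m2 ^ 2) := by ring
          _ ≤ (c1 * ((L - t : ℕ) : ℝ)) * (c2 * ((L - t : ℕ) : ℝ)) := by gcongr
          _ = _ := by ring
      have a4 : A1 u v * A2 u v ≤ c1 * c2 * (((L - t : ℕ) : ℝ) ^ 2 / (m1 * m2) ^ 2) := by
        rw [← mul_div_assoc, le_div_iff₀ (by positivity)]; exact a3
      refine a4.trans ?_
      gcongr
      have hle : ((L - t : ℕ) : ℝ) ^ 2 ≤ ∑ t ∈ Finset.range L,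
          (if ∀ s : Fin L, t < s.1 → u.2 s = v.2 s then ((L - t : ℕ) : ℝ) ^ 2 else 0) := by
        have hag : ∀ s : Fin L, t < s.1 → u.2 s = v.2 s := by
          intro s hs
          have := ht2 s.1 hs s.2
          simpa [SI.ext] using this
        have := Finset.single_le_sum (s := Finset.range L) (f := fun t =>
          (if ∀ s : Fin L, t < s.1 → u.2 s = v.2 s then ((L - t : ℕ) : ℝ) ^ 2 else 0))
          (fun t _ => by split_ifs <;> positivity) (Finset.mem_range.2 htL)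
        rw [if_pos hag] at this
        exact this
      rw [if_pos h1]
      have : ((L - t : ℕ) : ℝ) ^ 2 / (m1 * m2) ^ 2 ≤ (∑ t ∈ Finset.range L,
          (if ∀ s : Fin L, t < s.1 → u.2 s = v.2 s then ((L - t : ℕ) : ℝ) ^ 2 else 0)) /
            (m1 * m2) ^ 2 := by gcongr
      linarith
  · have a1 := H1.ne u v h1
    have a2 := H2.ne u v h1
    have a3 : (A1 u v * A2 u v) * (m1 * m2) ^ 2 ≤ c1 * c2 := by
      calc (A1 u v * A2 u v) * (m1 * m2) ^ 2 = (A1 u v * m1 ^ 2) * (A2 u v * m2 ^ 2) := by ring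
        _ ≤ c1 * c2 := by gcongr
    have a4 : A1 u v * A2 u v ≤ c1 * c2 * (1 / (m1 * m2) ^ 2) := by
      rw [mul_one_div, le_div_iff₀ (by positivity)]; exact a3
    refine a4.trans ?_
    gcongr
    linarith

open Classical in
private theorem sm_side {n k M L : ℕ} [NeZero k] (T0 : Fin n → Fin k → Fin n)
    (X : Finset (Fin n × Fin k)) (K B : Finset (Fin n)) (o : Fin n)
    (hKB : K ⊆ B) (hXB : ∀ c ∈ X, c.1 ∈ B) (x : Fin M → Fin n)
    (hinj : Function.Injective x) (hx : ∀ i, x i ∈ B ∧ x i ∉ K) (hL : 1 ≤ L)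
    (hR : 2 * L < ((Finset.univ \ K).erase o).card) :
    SmSide (k := k) (L := L) (M := M)
      (fun u v => (((Om T0 X K ((Finset.univ \ K).erase o)).filter (fun T =>
        Nice T B o (x u.1) (SI.ext u.2) L ∧ Nice T B o (x v.1) (SI.ext v.2) L)).card : ℝ))
      ((Fintype.card (Fin n) : ℝ) - K.card)
      ((((Fintype.card (Fin n) : ℝ) - K.card) / (((Finset.univ \ K).erase o).card - 2 * L)) ^ (2 * L)
        * (Om T0 X K ((Finset.univ \ K).erase o)).card) := by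
  have hRK : Disjoint ((Finset.univ \ K).erase o) K := by
    rw [Finset.disjoint_left]
    intro a ha haK
    exact (Finset.mem_sdiff.1 (Finset.mem_of_mem_erase ha)).2 haK
  have hconv : ∀ P : (Fin n → Fin k → Fin n) → Prop,
      (Set.ncard {T | T ∈ Om T0 X K ((Finset.univ \ K).erase o) ∧ P T} : ℝ) =
      (((Om T0 X K ((Finset.univ \ K).erase o)).filter P).card : ℝ) := by
    intro P
    rw [← Finset.coe_filter, Set.ncard_coe_finset]
  refine ⟨fun u v => Nat.cast_nonneg _, ?_, ?_, ?_⟩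
  · intro u v huv
    have h := niceR_two_ne T0 X K B _ o hKB hXB hRK (x u.1) (x v.1) (hx _).1 (hx _).2 (hx _).1
      (hx _).2 (fun h => huv (hinj h)) (SI.ext u.2) (SI.ext v.2) L hL hR
    rw [hconv] at h
    convert h
  · intro u v huv t ht h1 h2
    have h := niceR_two_eq T0 X K B _ o hKB hXB hRK (x u.1) (hx _).1 (hx _).2
      (SI.ext u.2) (SI.ext v.2) L t ht h1 h2 hR
    rw [hconv] at h
    simp only [← huv]
    rw [mul_right_comm] at h
    convert h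
  · intro u
    have h := niceR_one T0 X K B _ o hKB hXB hRK (x u.1) (hx _).1 (hx _).2 (SI.ext u.2) L hL hR
    rw [hconv] at h
    simp only [and_self]
    convert h

open Classical in
private theorem sm_low {n k M L : ℕ} [NeZero k] (T0 : Fin n → Fin k → Fin n)
    (X : Finset (Fin n × Fin k)) (K B : Finset (Fin n)) (o : Fin n)
    (hKB : K ⊆ B) (hXB : ∀ c ∈ X, c.1 ∈ B) (hoB : o ∉ B) (x : Fin M → Fin n)
    (hx : ∀ i, x i ∈ B ∧ x i ∉ K) (hL : 1 ≤ L) (hKn : K.card < n)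
    (u : Fin M × (Fin L → Fin k)) :
    ((n - B.card - 1).descFactorial (L - 1) : ℝ) / ((n : ℝ) - K.card) ^ L *
        (Om T0 X K ((Finset.univ \ K).erase o)).card ≤
      (((Om T0 X K ((Finset.univ \ K).erase o)).filter (fun T =>
        Nice T B o (x u.1) (SI.ext u.2) L)).card : ℝ) := by
  have h := nice_lower T0 X K B o hKB hXB hoB (x u.1) (hx _).1 (hx _).2 (SI.ext u.2) L hL
  rw [← Finset.coe_filter, Set.ncard_coe_finset, Fintype.card_fin] at h
  have hm : (0:ℝ) < (n : ℝ) - K.card := by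
    have : (K.card : ℝ) < n := by exact_mod_cast hKn
    linarith
  have hc : ((n - K.card : ℕ) : ℝ) = (n : ℝ) - K.card := Nat.cast_sub hKn.le
  have h2 : (((n - B.card - 1).descFactorial (L - 1) : ℕ) : ℝ) *
      (Om T0 X K ((Finset.univ \ K).erase o)).card ≤
      (((Om T0 X K ((Finset.univ \ K).erase o)).filter (fun T =>
        Nice T B o (x u.1) (SI.ext u.2) L)).card : ℝ) * ((n : ℝ) - K.card) ^ L := by
    rw [← hc]
    exact_mod_cast h
  rw [div_mul_eq_mul_div, div_le_iff₀ (by positivity)]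
  exact h2


private theorem sm_aux1 (p q d : ℝ) (hp : 0 ≤ p) (hq : 0 ≤ q) (h : p + q ≤ d) :
    1 - d ≤ (1 - p) * (1 - q) := by
  nlinarith [mul_nonneg hp hq]

private theorem sm_aux2 (b L : ℝ) (hb : 0 ≤ b) (hL : 1 ≤ L) :
    2 * L * (b + L) + 4 * L * (1 + 2 * L) ≤ (2 * b + 14) * L ^ 2 := by
  have h1 : 0 ≤ b * (L * (L - 1)) := by
    have : 0 ≤ L * (L - 1) := mul_nonneg (by linarith) (by linarith)
    positivity
  have h2 : 0 ≤ L * (L - 1) := mul_nonneg (by linarith) (by linarith)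
  nlinarith

private theorem sm_ratio (n κ β b L : ℕ) (hκβ : κ ≤ β) (hβb : β ≤ b) (hL : 1 ≤ L) (hn : 2 * b ≤ n)
    (h1 : ((2 * b + 14) * L ^ 2 : ℝ) < n) :
    (1 - (2 * b + 14) * (L : ℝ) ^ 2 / n) *
      (((n : ℝ) - κ) / (((n - κ - 1 : ℕ) : ℝ) - 2 * L)) ^ (2 * L) ≤
      (((n - β - 1).descFactorial (L - 1) : ℝ) / ((n : ℝ) - κ) ^ L * ((n : ℝ) - κ)) ^ 2 ∧
      2 * L < n - κ - 1 := by
  have hLr : (1:ℝ) ≤ L := by exact_mod_cast hL
  have hbr : (0:ℝ) ≤ b := by positivity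
  have hκr : (κ:ℝ) ≤ b := by exact_mod_cast hκβ.trans hβb
  have hβr : (β:ℝ) ≤ b := by exact_mod_cast hβb
  have hnr : (2:ℝ) * b ≤ n := by exact_mod_cast hn
  have hLL : (L:ℝ) ≤ (L:ℝ)^2 := by nlinarith
  have hbL : (b:ℝ) ≤ b * (L:ℝ)^2 := by nlinarith
  have hn0 : (0:ℝ) < n := by nlinarith
  have hbig : (2 * b + 14 * L : ℝ) < n := by nlinarith
  have hNat : 2 * b + 14 * L < n := by exact_mod_cast hbig
  have hcast : ((n - κ - 1 : ℕ) : ℝ) = (n : ℝ) - κ - 1 := by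
    rw [Nat.cast_sub (by omega), Nat.cast_sub (by omega)]; simp
  refine ⟨?_, by omega⟩
  rw [hcast]
  set m : ℝ := (n : ℝ) - κ with hm
  have hm0 : 0 < m := by rw [hm]; linarith
  have hmn : m ≤ n := by rw [hm]; have : (0:ℝ) ≤ κ := by positivity
                         linarith
  have hmh : (n:ℝ) / 2 ≤ m := by rw [hm]; linarith
  set w : ℝ := m - 1 - 2 * L with hw
  have hw0 : 0 < w := by rw [hw]; nlinarith
  -- lower bound for the second factor
  have hB : 1 - 4 * L * (1 + 2 * L) / (n:ℝ) ≤ (w / m) ^ (2 * L) := by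
    have e : w / m = 1 + (-(1 + 2 * L) / m) := by
      rw [hw]; field_simp; ring
    rw [e]
    have hge : (-2:ℝ) ≤ -(1 + 2 * L) / m := by
      rw [le_div_iff₀ hm0]; rw [hw] at hw0; nlinarith
    have := one_add_mul_le_pow hge (2 * L)
    refine le_trans ?_ this
    push_cast
    have e2 : (2 * (L:ℝ)) * (-(1 + 2 * L) / m) = -(2 * L * (1 + 2 * L) / m) := by ring
    rw [e2]
    have e3 : 2 * (L:ℝ) * (1 + 2 * L) / m ≤ 4 * L * (1 + 2 * L) / (n:ℝ) := by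
      rw [div_le_div_iff₀ hm0 hn0]
      have : (0:ℝ) ≤ L * (1 + 2 * L) := by positivity
      nlinarith
    linarith
  -- lower bound for λ
  set D : ℝ := ((n - β - 1).descFactorial (L - 1) : ℝ) with hD
  have hlam : D / m ^ L * m = D / m ^ (L - 1) := by
    obtain ⟨j, rfl⟩ : ∃ j, L = j + 1 := ⟨L - 1, by omega⟩
    rw [pow_succ]
    simp only [Nat.add_sub_cancel]
    field_simp
  rw [hlam]
  have hA0 : (0:ℝ) ≤ 1 - (b + L) / n := by
    rw [sub_nonneg, div_le_one hn0]; linarith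
  have hA1 : (1:ℝ) - (b + L) / n ≤ 1 := by
    have : (0:ℝ) ≤ (b + L) / n := by positivity
    linarith
  have hA : (1 - (b + L) / (n:ℝ)) ^ (L - 1) ≤ D / m ^ (L - 1) := by
    have hd := Nat.pow_sub_le_descFactorial (n - β - 1) (L - 1)
    have hd2 : ((n - b - L : ℕ):ℝ) ^ (L - 1) ≤ D := by
      rw [hD]
      have hd' : ((n - β - 1 + 1 - (L - 1) : ℕ):ℝ) ^ (L - 1) ≤
          ((n - β - 1).descFactorial (L - 1) : ℝ) := by exact_mod_cast hd
      refine le_trans ?_ hd'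
      have hle : n - b - L ≤ n - β - 1 + 1 - (L - 1) := by omega
      exact pow_le_pow_left₀ (by positivity) (by exact_mod_cast hle) _
    have hd3 : ((n - b - L : ℕ):ℝ) = n - b - L := by
      rw [Nat.cast_sub (by omega), Nat.cast_sub (by omega)]
    rw [hd3] at hd2
    rw [le_div_iff₀ (by positivity), ← mul_pow]
    refine le_trans ?_ hd2
    have : (1 - (b + L) / (n:ℝ)) * m ≤ n - b - L := by
      calc (1 - (b + L) / (n:ℝ)) * m ≤ (1 - (b + L) / (n:ℝ)) * n := by gcongr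
        _ = n - b - L := by field_simp; ring
    have h0 : 0 ≤ (1 - (b + L) / (n:ℝ)) * m := by positivity
    gcongr
  have hA2 : 1 - 2 * L * (b + L) / (n:ℝ) ≤ (D / m ^ (L - 1)) ^ 2 := by
    have h2 : (1 - (b + L) / (n:ℝ)) ^ (2 * L) ≤ ((1 - (b + L) / (n:ℝ)) ^ (L - 1)) ^ 2 := by
      rw [← pow_mul]
      exact pow_le_pow_of_le_one hA0 hA1 (by omega)
    have h3 : ((1 - (b + L) / (n:ℝ)) ^ (L - 1)) ^ 2 ≤ (D / m ^ (L - 1)) ^ 2 := by
      gcongr
    have h4 := one_add_mul_le_pow (a := -((b + L) / (n:ℝ))) (by linarith) (2 * L)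
    have h5 : (1 + -((b + L) / (n:ℝ))) = 1 - (b + L) / (n:ℝ) := by ring
    rw [h5] at h4
    refine le_trans ?_ (h4.trans (h2.trans h3))
    push_cast
    apply le_of_eq
    ring
  -- combine
  have hwm : 0 < w / m := by positivity
  have key : (1 - (2 * b + 14) * (L : ℝ) ^ 2 / n) ≤ (D / m ^ (L - 1)) ^ 2 * (w / m) ^ (2 * L) := by
    have q1 : (0:ℝ) ≤ 1 - 2 * L * (b + L) / (n:ℝ) := by
      rw [sub_nonneg, div_le_one hn0]
      have r1 := sm_aux2 b L hbr hLr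
      have r2 : 0 ≤ 4 * (L:ℝ) * (1 + 2 * L) := by positivity
      linarith
    have q2 : (0:ℝ) ≤ 1 - 4 * L * (1 + 2 * L) / (n:ℝ) := by
      rw [sub_nonneg, div_le_one hn0]
      have r1 := sm_aux2 b L hbr hLr
      have r2 : 0 ≤ 2 * (L:ℝ) * (b + L) := by positivity
      linarith
    have q3 : (1 - 2 * L * (b + L) / (n:ℝ)) * (1 - 4 * L * (1 + 2 * L) / (n:ℝ)) ≤
        (D / m ^ (L - 1)) ^ 2 * (w / m) ^ (2 * L) := by
      gcongr
    refine le_trans ?_ q3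
    have q4 : (0:ℝ) ≤ 2 * L * (b + L) / (n:ℝ) := by positivity
    have q5 : (0:ℝ) ≤ 4 * L * (1 + 2 * L) / (n:ℝ) := by positivity
    have q6 : 2 * L * (b + L) / (n:ℝ) + 4 * L * (1 + 2 * L) / (n:ℝ) ≤
        (2 * b + 14) * (L : ℝ) ^ 2 / n := by
      rw [← add_div]
      gcongr
      exact sm_aux2 b L hbr hLr
    exact sm_aux1 _ _ _ q4 q5 q6
  have hF : (m / w) ^ (2 * L) * (w / m) ^ (2 * L) = 1 := by
    rw [← mul_pow]
    have : m / w * (w / m) = 1 := by field_simp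
    rw [this, one_pow]
  have hF0 : 0 < (m / w) ^ (2 * L) := by positivity
  calc (1 - (2 * b + 14) * (L : ℝ) ^ 2 / n) * (m / w) ^ (2 * L)
      ≤ ((D / m ^ (L - 1)) ^ 2 * (w / m) ^ (2 * L)) * (m / w) ^ (2 * L) := by gcongr
    _ = (D / m ^ (L - 1)) ^ 2 * ((m / w) ^ (2 * L) * (w / m) ^ (2 * L)) := by ring
    _ = _ := by rw [hF, mul_one]

private theorem sm_asym (k : ℕ) (hk : 2 ≤ k) (b : ℕ) (ε : ℝ) (hε : 0 < ε) :
    ∃ n0 : ℕ, ∀ n, n0 ≤ n → 3 ≤ n ∧ 2 * b ≤ n ∧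
      ((2 * b + 14) * ((Nat.clog k (n ^ 3) : ℕ) : ℝ) ^ 2 : ℝ) < n ∧
      1 / (n:ℝ) + 2 * ((2 * b + 14) * ((Nat.clog k (n ^ 3) : ℕ) : ℝ) ^ 2 / n) ≤ ε := by
  have hlim : Filter.Tendsto (fun n : ℕ => 1 / (n:ℝ) + 2 * (49 * (2 * b + 14)) *
      (Real.log n ^ 2 / (n:ℝ))) Filter.atTop (nhds 0) := by
    have t1 : Filter.Tendsto (fun n : ℕ => 1 / (n:ℝ)) Filter.atTop (nhds 0) :=
      tendsto_one_div_atTop_nhds_zero_nat
    have t2 : Filter.Tendsto (fun n : ℕ => Real.log n ^ 2 / (n:ℝ)) Filter.atTop (nhds 0) :=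
      ((Real.isLittleO_pow_log_id_atTop (n := 2)).tendsto_div_nhds_zero).comp
        tendsto_natCast_atTop_atTop
    have t3 := t1.add (t2.const_mul (2 * (49 * (2 * (b:ℝ) + 14))))
    simpa using t3
  have hev := hlim.eventually (gt_mem_nhds (show (0:ℝ) < min ε 1 by positivity))
  obtain ⟨n1, hn1⟩ := Filter.eventually_atTop.1 hev
  refine ⟨max n1 (max 3 (2 * b)), fun n hn => ?_⟩
  have hnn1 : n1 ≤ n := le_trans (le_max_left _ _) hn
  have hn3 : 3 ≤ n := le_trans (le_trans (le_max_left _ _) (le_max_right _ _)) hn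
  have hnb : 2 * b ≤ n := le_trans (le_trans (le_max_right _ _) (le_max_right _ _)) hn
  have hlt := hn1 n hnn1
  set L := Nat.clog k (n ^ 3) with hL
  have hn0 : (0:ℝ) < n := by exact_mod_cast (by omega : 0 < n)
  have hlog1 : 1 ≤ Real.log n := by
    have h3 : (3:ℝ) ≤ n := by exact_mod_cast hn3
    rw [Real.le_log_iff_exp_le hn0]
    have := Real.exp_one_lt_d9
    linarith
  have hLlog : (L:ℝ) ≤ 7 * Real.log n := by
    have h1 : 1 < n ^ 3 := by
      calc 1 < n := by omega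
        _ = n ^ 1 := (pow_one n).symm
        _ ≤ n ^ 3 := Nat.pow_le_pow_right (by omega) (by omega)
    have h2 : k ^ (L - 1) < n ^ 3 := Nat.pow_pred_clog_lt_self (by omega) h1
    have h3 : 2 ^ (L - 1) < n ^ 3 := lt_of_le_of_lt (Nat.pow_le_pow_left hk _) h2
    have h4 : (2:ℝ) ^ (L - 1) < (n:ℝ) ^ 3 := by exact_mod_cast h3
    have h5 := Real.log_lt_log (by positivity) h4
    rw [Real.log_pow, Real.log_pow] at h5
    have h6 : (0.69:ℝ) < Real.log 2 := by have := Real.log_two_gt_d9; linarith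
    have h7 : (L:ℝ) ≤ ((L - 1 : ℕ):ℝ) + 1 := by
      have : L ≤ (L - 1) + 1 := by omega
      exact_mod_cast this
    have h8 : (0:ℝ) ≤ ((L - 1 : ℕ):ℝ) := by positivity
    push_cast at h5
    nlinarith
  have hL2 : (L:ℝ) ^ 2 ≤ 49 * Real.log n ^ 2 := by
    have : (0:ℝ) ≤ L := by positivity
    calc (L:ℝ) ^ 2 ≤ (7 * Real.log n) ^ 2 := by gcongr
      _ = _ := by ring
  have hδ : (2 * b + 14) * (L:ℝ) ^ 2 / n ≤ 49 * (2 * b + 14) * (Real.log n ^ 2 / (n:ℝ)) := by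
    calc (2 * b + 14) * (L:ℝ) ^ 2 / n ≤ (2 * b + 14) * (49 * Real.log n ^ 2) / n := by gcongr
      _ = _ := by ring
  have hpos : 0 < 1 / (n:ℝ) := by positivity
  have hmin1 : min ε 1 ≤ ε := min_le_left _ _
  have hmin2 : min ε 1 ≤ 1 := min_le_right _ _
  have hδ0 : 0 ≤ (2 * b + 14) * (L:ℝ) ^ 2 / n := by positivity
  refine ⟨hn3, hnb, ?_, ?_⟩
  · have : (2 * b + 14) * (L:ℝ) ^ 2 / n < 1 := by linarith
    rwa [div_lt_one hn0] at this
  · linarith


private theorem sm_arith (A hit F1 F2 lam1 lam2 δ q : ℝ) (hA : 0 ≤ A) (hhit : hit ≤ A)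
    (hF1 : 0 < F1) (hF2 : 0 < F2) (hδ1 : δ ≤ 1) (hq : 0 ≤ q)
    (h1 : (1 - δ) * F1 ≤ lam1 ^ 2) (h2 : (1 - δ) * F2 ≤ lam2 ^ 2)
    (h : A * (lam1 * lam2) ^ 2 ≤ hit * (F1 * F2) * (1 + q)) : A - hit ≤ A * (q + 2 * δ) := by
  have e1 : A * (1 - δ) ^ 2 * (F1 * F2) ≤ hit * (1 + q) * (F1 * F2) := by
    calc A * (1 - δ) ^ 2 * (F1 * F2) = A * (((1 - δ) * F1) * ((1 - δ) * F2)) := by ring
      _ ≤ A * (lam1 ^ 2 * lam2 ^ 2) := by
          have : 0 ≤ (1 - δ) * F1 := mul_nonneg (by linarith) hF1.le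
          have : 0 ≤ (1 - δ) * F2 := mul_nonneg (by linarith) hF2.le
          gcongr
      _ = A * (lam1 * lam2) ^ 2 := by ring
      _ ≤ _ := by linarith
  have e2 : A * (1 - δ) ^ 2 ≤ hit * (1 + q) := le_of_mul_le_mul_right e1 (mul_pos hF1 hF2)
  have e3 : hit * q ≤ A * q := by gcongr
  have e4 : 0 ≤ A * δ ^ 2 := by positivity
  nlinarith

private theorem sm_kersum (A hit F1 F2 l1 l2 m1 m2 M N n A1 A2 S : ℝ) (hA1 : 0 < A1) (hA2 : 0 < A2)
    (hAA : A = A1 * A2) (hhit : 0 ≤ hit) (hF1 : 0 < F1) (hF2 : 0 < F2) (hm1 : 0 < m1)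
    (hm2 : 0 < m2) (hM : 1 ≤ M) (hn : 0 < n) (hm1n : m1 ≤ n) (hm2n : m2 ≤ n) (hN : n ^ 3 ≤ N)
    (hS : S ≤ ((F1 * A1) * (F2 * A2)) * ((M * N) ^ 2 / (m1 * m2) ^ 2 +
      12 * M * N ^ 2 / (m1 * m2) ^ 2 + M * N / (m1 * m2)))
    (hcs : (M * N * ((l1 * A1) * (l2 * A2))) ^ 2 ≤ hit * S) :
    A * ((l1 * m1) * (l2 * m2)) ^ 2 ≤ hit * (F1 * F2) * (1 + (12 / M + 1 / n)) := by
  have hN0 : 0 < N := lt_of_lt_of_le (by positivity) hN
  have hM0 : 0 < M := by linarith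
  have hQ : 0 < m1 * m2 := by positivity
  have hQn : m1 * m2 ≤ n ^ 2 := by
    calc m1 * m2 ≤ n * n := by gcongr
      _ = n ^ 2 := by ring
  have h1 : m1 * m2 / (M * N) ≤ 1 / n := by
    rw [div_le_div_iff₀ (by positivity) hn]
    calc m1 * m2 * n ≤ n ^ 2 * n := by gcongr
      _ = n ^ 3 := by ring
      _ ≤ N := hN
      _ ≤ M * N := by nlinarith
      _ = 1 * (M * N) := by ring
  have h2 : ((F1 * A1) * (F2 * A2)) * ((M * N) ^ 2 / (m1 * m2) ^ 2 +
      12 * M * N ^ 2 / (m1 * m2) ^ 2 + M * N / (m1 * m2)) =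
      (F1 * F2) * (A1 * A2) * ((M * N) ^ 2 / (m1 * m2) ^ 2) *
        (1 + (12 / M + m1 * m2 / (M * N))) := by
    field_simp
    ring
  have h3 : (M * N * ((l1 * A1) * (l2 * A2))) ^ 2 ≤ hit * ((F1 * F2) * (A1 * A2) *
      ((M * N) ^ 2 / (m1 * m2) ^ 2) * (1 + (12 / M + 1 / n))) := by
    calc (M * N * ((l1 * A1) * (l2 * A2))) ^ 2 ≤ hit * S := hcs
      _ ≤ hit * (((F1 * A1) * (F2 * A2)) * ((M * N) ^ 2 / (m1 * m2) ^ 2 +
      12 * M * N ^ 2 / (m1 * m2) ^ 2 + M * N / (m1 * m2))) := by gcongr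
      _ = hit * ((F1 * F2) * (A1 * A2) * ((M * N) ^ 2 / (m1 * m2) ^ 2) *
        (1 + (12 / M + m1 * m2 / (M * N)))) := by rw [h2]
      _ ≤ _ := by gcongr
  have hpos : 0 < (A1 * A2) * ((M * N) ^ 2 / (m1 * m2) ^ 2) := by positivity
  refine le_of_mul_le_mul_right ?_ hpos
  calc A * ((l1 * m1) * (l2 * m2)) ^ 2 * ((A1 * A2) * ((M * N) ^ 2 / (m1 * m2) ^ 2))
      = (M * N * ((l1 * A1) * (l2 * A2))) ^ 2 := by
        rw [hAA]; field_simp
    _ ≤ _ := h3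
    _ = _ := by ring

theorem second_moment (k : ℕ) (hk : 2 ≤ k) (M b : ℕ) (hM : 1 ≤ M) (ε : ℝ) (hε : 0 < ε) :
    ∃ n0 : ℕ, ∀ n, n0 ≤ n → ∀ (o : Fin n) (T1 T2 : Fin n → Fin k → Fin n)
      (X1 X2 : Finset (Fin n × Fin k)) (K1 K2 B1 B2 : Finset (Fin n))
      (x y : Fin M → Fin n),
      K1 ⊆ B1 → K2 ⊆ B2 → (∀ c ∈ X1, c.1 ∈ B1) → (∀ c ∈ X2, c.1 ∈ B2) → o ∉ B1 → o ∉ B2 →
      B1.card ≤ b → B2.card ≤ b → Function.Injective x → Function.Injective y →
      (∀ i, x i ∈ B1 ∧ x i ∉ K1) → (∀ i, y i ∈ B2 ∧ y i ∉ K2) →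
      (Set.ncard {P : (Fin n → Fin k → Fin n) × (Fin n → Fin k → Fin n) |
          P.1 ∈ Om T1 X1 K1 ((Finset.univ \ K1).erase o) ∧
          P.2 ∈ Om T2 X2 K2 ((Finset.univ \ K2).erase o) ∧
          ¬ ∃ (W : ℕ → Fin k) (L : ℕ) (i : Fin M), traj P.1 o W L = x i ∧ traj P.2 o W L = y i} : ℝ)
        ≤ (12 / M + ε) * ((Om T1 X1 K1 ((Finset.univ \ K1).erase o)).card *
            (Om T2 X2 K2 ((Finset.univ \ K2).erase o)).card) := by
  classical
  have : NeZero k := ⟨by omega⟩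
  obtain ⟨n0, hn0⟩ := sm_asym k hk b ε hε
  refine ⟨n0, fun n hn o T1 T2 X1 X2 K1 K2 B1 B2 x y hKB1 hKB2 hX1 hX2 ho1 ho2 hb1 hb2 hxi hyi
    hx hy => ?_⟩
  obtain ⟨hn3, hnb, hδ, hε'⟩ := hn0 n hn
  set L := Nat.clog k (n ^ 3) with hLdef
  have hn31 : 1 < n ^ 3 := by
    calc 1 < n := by omega
      _ = n ^ 1 := (pow_one n).symm
      _ ≤ n ^ 3 := Nat.pow_le_pow_right (by omega) (by omega)
  have hL : 1 ≤ L := Nat.clog_pos (by omega) hn31
  have hkL : n ^ 3 ≤ k ^ L := Nat.le_pow_clog (by omega) _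
  have hn0' : (0:ℝ) < n := by exact_mod_cast (by omega : 0 < n)
  have hcardR : ∀ K B : Finset (Fin n), K ⊆ B → o ∉ B →
      ((Finset.univ \ K).erase o).card = n - K.card - 1 := by
    intro K B hKB ho
    rw [Finset.card_erase_of_mem, Finset.card_sdiff_of_subset (Finset.subset_univ _),
      Finset.card_univ, Fintype.card_fin]
    exact Finset.mem_sdiff.2 ⟨Finset.mem_univ _, fun h => ho (hKB h)⟩
  obtain ⟨hr1, hRc1⟩ := sm_ratio n K1.card B1.card b L (Finset.card_le_card hKB1) hb1 hL hnb hδ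
  obtain ⟨hr2, hRc2⟩ := sm_ratio n K2.card B2.card b L (Finset.card_le_card hKB2) hb2 hL hnb hδ
  have S1 := sm_side (M := M) T1 X1 K1 B1 o hKB1 hX1 x hxi hx hL
    (by rw [hcardR K1 B1 hKB1 ho1]; exact hRc1)
  have S2 := sm_side (M := M) T2 X2 K2 B2 o hKB2 hX2 y hyi hy hL
    (by rw [hcardR K2 B2 hKB2 ho2]; exact hRc2)
  have hK1n : K1.card < n := by omega
  have hK2n : K2.card < n := by omega
  have lo1 := sm_low (M := M) T1 X1 K1 B1 o hKB1 hX1 ho1 x hx hL hK1n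
  have lo2 := sm_low (M := M) T2 X2 K2 B2 o hKB2 hX2 ho2 y hy hL hK2n
  rw [hcardR K1 B1 hKB1 ho1, Fintype.card_fin] at S1
  rw [hcardR K2 B2 hKB2 ho2, Fintype.card_fin] at S2
  set Ω1 := Om T1 X1 K1 ((Finset.univ \ K1).erase o) with hΩ1
  set Ω2 := Om T2 X2 K2 ((Finset.univ \ K2).erase o) with hΩ2
  set m1 : ℝ := (n:ℝ) - K1.card with hm1d
  set m2 : ℝ := (n:ℝ) - K2.card with hm2d
  have hm1 : 0 < m1 := by
    have : (K1.card : ℝ) < n := by exact_mod_cast hK1n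
    rw [hm1d]; linarith
  have hm2 : 0 < m2 := by
    have : (K2.card : ℝ) < n := by exact_mod_cast hK2n
    rw [hm2d]; linarith
  have hm1n : m1 ≤ n := by
    have : (0:ℝ) ≤ K1.card := by positivity
    rw [hm1d]; linarith
  have hm2n : m2 ≤ n := by
    have : (0:ℝ) ≤ K2.card := by positivity
    rw [hm2d]; linarith
  have hw1 : (0:ℝ) < ((n - K1.card - 1 : ℕ) : ℝ) - 2 * L := by
    have : ((2 * L : ℕ) : ℝ) < ((n - K1.card - 1 : ℕ) : ℝ) := by exact_mod_cast hRc1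
    push_cast at this
    linarith
  have hw2 : (0:ℝ) < ((n - K2.card - 1 : ℕ) : ℝ) - 2 * L := by
    have : ((2 * L : ℕ) : ℝ) < ((n - K2.card - 1 : ℕ) : ℝ) := by exact_mod_cast hRc2
    push_cast at this
    linarith
  set F1 : ℝ := (m1 / (((n - K1.card - 1 : ℕ) : ℝ) - 2 * L)) ^ (2 * L) with hF1d
  set F2 : ℝ := (m2 / (((n - K2.card - 1 : ℕ) : ℝ) - 2 * L)) ^ (2 * L) with hF2d
  have hF1 : 0 < F1 := by rw [hF1d]; positivity
  have hF2 : 0 < F2 := by rw [hF2d]; positivity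
  set l1 : ℝ := ((n - B1.card - 1).descFactorial (L - 1) : ℝ) / m1 ^ L with hl1
  set l2 : ℝ := ((n - B2.card - 1).descFactorial (L - 1) : ℝ) / m2 ^ L with hl2
  have hl10 : 0 ≤ l1 := by rw [hl1]; positivity
  have hl20 : 0 ≤ l2 := by rw [hl2]; positivity
  clear_value F1 F2 l1 l2 m1 m2 L
  have hc10 : 0 ≤ F1 * (Ω1.card : ℝ) := mul_nonneg hF1.le (Nat.cast_nonneg _)
  have hc20 : 0 ≤ F2 * (Ω2.card : ℝ) := mul_nonneg hF2.le (Nat.cast_nonneg _)
  have cs := sm_cs (I := Fin M × (Fin L → Fin k)) Ω1 Ω2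
    (fun T u => Nice T B1 o (x u.1) (SI.ext u.2) L) (fun T u => Nice T B2 o (y u.1) (SI.ext u.2) L)
    ((l1 * Ω1.card) * (l2 * Ω2.card)) (by positivity)
    (fun u => by
      have e1 := lo1 u
      have e2 := lo2 u
      have f1 : 0 ≤ l1 * (Ω1.card : ℝ) := by positivity
      have f2 : 0 ≤ l2 * (Ω2.card : ℝ) := by positivity
      exact mul_le_mul e1 e2 f2 (f1.trans e1))
    (smK k L M ((F1 * Ω1.card) * (F2 * Ω2.card)) (m1 * m2))
    (fun u v => sm_combine _ _ m1 m2 (F1 * Ω1.card) (F2 * Ω2.card) hm1 hm2 hc10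
      hc20 S1 S2 u v)
  set H := ((Ω1 ×ˢ Ω2).filter (fun P => ∃ u : Fin M × (Fin L → Fin k),
    Nice P.1 B1 o (x u.1) (SI.ext u.2) L ∧ Nice P.2 B2 o (y u.1) (SI.ext u.2) L)) with hH
  have hHsub : H ⊆ Ω1 ×ˢ Ω2 := Finset.filter_subset _ _
  have hHle : (H.card : ℝ) ≤ Ω1.card * Ω2.card := by
    have := Finset.card_le_card hHsub
    rw [Finset.card_product] at this
    exact_mod_cast this
  -- the set of failures
  have hset : {P : (Fin n → Fin k → Fin n) × (Fin n → Fin k → Fin n) |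
          P.1 ∈ Ω1 ∧ P.2 ∈ Ω2 ∧
          ¬ ∃ (W : ℕ → Fin k) (L : ℕ) (i : Fin M), traj P.1 o W L = x i ∧ traj P.2 o W L = y i} ⊆
      (((Ω1 ×ˢ Ω2) \ H : Finset _) : Set ((Fin n → Fin k → Fin n) × (Fin n → Fin k → Fin n))) := by
    rintro P ⟨h1, h2, h3⟩
    rw [Finset.mem_coe, Finset.mem_sdiff, Finset.mem_product]
    refine ⟨⟨h1, h2⟩, fun hP => h3 ?_⟩
    obtain ⟨u, hu1, hu2⟩ := (Finset.mem_filter.1 hP).2
    exact ⟨SI.ext u.2, L, u.1, hu1.1, hu2.1⟩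
  have hcard : (Set.ncard {P : (Fin n → Fin k → Fin n) × (Fin n → Fin k → Fin n) |
          P.1 ∈ Ω1 ∧ P.2 ∈ Ω2 ∧
          ¬ ∃ (W : ℕ → Fin k) (L : ℕ) (i : Fin M), traj P.1 o W L = x i ∧ traj P.2 o W L = y i} : ℝ)
      ≤ Ω1.card * Ω2.card - H.card := by
    have h1 := Set.ncard_le_ncard hset (Finset.finite_toSet _)
    rw [Set.ncard_coe_finset, Finset.card_sdiff_of_subset hHsub, Finset.card_product] at h1
    have h2 : H.card ≤ Ω1.card * Ω2.card := by exact_mod_cast hHle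
    calc _ ≤ ((Ω1.card * Ω2.card - H.card : ℕ) : ℝ) := by exact_mod_cast h1
      _ = _ := by rw [Nat.cast_sub h2, Nat.cast_mul]
  refine hcard.trans ?_
  have hM1 : (1:ℝ) ≤ M := by exact_mod_cast hM
  by_cases hz : (Ω1.card : ℝ) * Ω2.card = 0
  · rw [hz, mul_zero]
    have : (0:ℝ) ≤ H.card := by positivity
    linarith
  have hz1 : (0:ℝ) < Ω1.card := by
    rcases eq_or_lt_of_le (show (0:ℝ) ≤ Ω1.card by positivity) with h | h
    · exact absurd (by rw [← h, zero_mul]) hz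
    · exact h
  have hz2 : (0:ℝ) < Ω2.card := by
    rcases eq_or_lt_of_le (show (0:ℝ) ≤ Ω2.card by positivity) with h | h
    · exact absurd (by rw [← h, mul_zero]) hz
    · exact h
  have hI : (Fintype.card (Fin M × (Fin L → Fin k)) : ℝ) = M * (k:ℝ) ^ L := by
    rw [Fintype.card_prod]
    simp
  rw [hI] at cs
  have hker := sm_kernel k L M hk ((F1 * Ω1.card) * (F2 * Ω2.card)) (m1 * m2)
    (mul_nonneg hc10 hc20) (mul_pos hm1 hm2)
  have hN : (n:ℝ) ^ 3 ≤ (k:ℝ) ^ L := by exact_mod_cast hkL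
  have hmain := sm_kersum ((Ω1.card : ℝ) * Ω2.card) H.card F1 F2 l1 l2 m1 m2 M ((k:ℝ) ^ L) n
    Ω1.card Ω2.card _ hz1 hz2 rfl (Nat.cast_nonneg _) hF1 hF2 hm1 hm2 hM1 hn0' hm1n hm2n hN hker cs
  have hδ1 : (2 * b + 14) * (L:ℝ) ^ 2 / n ≤ 1 := by
    rw [div_le_one hn0']; exact hδ.le
  have hfin := sm_arith ((Ω1.card : ℝ) * Ω2.card) H.card F1 F2 (l1 * m1) (l2 * m2) _
    (12 / M + 1 / n) (mul_nonneg hz1.le hz2.le) hHle hF1 hF2 hδ1 (by positivity) hr1 hr2 hmain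
  refine hfin.trans ?_
  rw [mul_comm]
  have : (12 / (M:ℝ) + 1 / n + 2 * ((2 * b + 14) * (L:ℝ) ^ 2 / n)) ≤ 12 / M + ε := by linarith
  gcongr

end AS

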