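import Pool.Agent.Helper949.ASX.Defs

set_option autoImplicit false

namespace AS
open Finset SI RA

/-- the forward ball of radius `ρ` of `p` is a tree: different words of length at most `ρ` lead
from `p` to different states -/
def TL {V : Type} {k : ℕ} (T : V → Fin k → V) (p : V) (ρ : ℕ) : Prop :=
  ∀ (v v' : ℕ → Fin k) (j j' : ℕ), j ≤ ρ → j' ≤ ρ → traj T p v j = traj T p v' j' →
    j = j' ∧ ∀ i, i < j → v i = v' i

/-- `p` and `p'` are merged by two words of length `ρ` with different first letters -/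
def Mg {V : Type} {k : ℕ} (T : V → Fin k → V) (p p' : V) (ρ : ℕ) : Prop :=
  ∃ v v' : ℕ → Fin k, v 0 ≠ v' 0 ∧ traj T p v ρ = traj T p' v ρ ∧ traj T p v' ρ = traj T p' v' ρ

/-- pairs of states reachable from `(0,0)` -/
def Reach {m k : ℕ} (T T' : Fin (m+1) → Fin k → Fin (m+1)) : Set (Fin (m+1) × Fin (m+1)) :=
  {z | ∃ w : List (Fin k), run T 0 w = z.1 ∧ run T' 0 w = z.2}

/-- some other pair of states has the same residual language of the intersection -/
def Tw {m k : ℕ} (x y : (Fin (m+1) → Fin k → Fin (m+1)) × (Fin (m+1) → Bool))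
    (p q : Fin (m+1)) : Prop :=
  ∃ p2 q2, (p2, q2) ≠ (p, q) ∧ ∀ w : List (Fin k),
    (x.2 (run x.1 p w) && y.2 (run y.1 q w)) = (x.2 (run x.1 p2 w) && y.2 (run y.1 q2 w))
end AS
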